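import Pool.Agent.PP5T.Bxc

/-!
# PP5 (D'), (N2'): classes modulo `n` of the `x` for which `n` divides the `2 x 2` minors of `S(x)`
-/

set_option autoImplicit false

namespace Pool.Agent.PP5T

open Pool.Agent.PP5L Pool.Agent.PP5K

/-- the signs of the diagonal of `S(x)` -/
def sgd : Fin 4 → ℤ := ![1, 1, -1, -1]

theorem SS_diag (x : Fin 10 → ℤ) (i : Fin 4) : SS x i i = sgd i * (2 * x (dg i)) := by
  fin_cases i <;> simp [SS, sgd, dg]

theorem sgd_sq (i : Fin 4) : sgd i * sgd i = 1 := by fin_cases i <;> rfl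

/-- `S(x)` has rank one modulo `n`, with a unit on the diagonal at every prime -/
def SK (n : ℤ) (x : Fin 10 → ℤ) : Prop :=
  (∀ p : ℕ, p.Prime → (p : ℤ) ∣ n → ∃ i, ¬ (p : ℤ) ∣ x (dg i)) ∧
    ∀ i j k, n ∣ SS x i i * SS x j k - SS x i j * SS x i k

theorem SS_modEq {n : ℤ} {x y : Fin 10 → ℤ} (h : ∀ j, x j ≡ y j [ZMOD n]) (i j : Fin 4) :
    SS x i j ≡ SS y i j [ZMOD n] := by
  fin_cases i <;> fin_cases j <;>
    simp only [SS, Matrix.of_apply, Matrix.cons_val', Fin.isValue, Fin.zero_eta, Fin.mk_one, Fin.reduceFinMk,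
      Matrix.cons_val_zero, Matrix.cons_val_one, Matrix.cons_val] <;>
    first
    | exact (h _).mul_left 2
    | exact h _
    | exact ((h _).add (h _)).neg
    | exact (h _).neg
    | exact ((h _).mul_left 2).neg
    | exact (h _).sub (h _)

theorem SK_congr {n : ℤ} {x y : Fin 10 → ℤ} (h : ∀ j, x j ≡ y j [ZMOD n]) (hx : SK n x) : SK n y := by
  refine ⟨fun p pp hp => ?_, fun i j k => ?_⟩
  · obtain ⟨i, hi⟩ := hx.1 p pp hp
    refine ⟨i, fun hy => hi ?_⟩
    have h2 : (p : ℤ) ∣ y (dg i) - x (dg i) := hp.trans (h (dg i)).dvd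
    have : x (dg i) = y (dg i) - (y (dg i) - x (dg i)) := by ring
    rw [this]
    exact dvd_sub hy h2
  · have h1 : (SS x i i * SS x j k - SS x i j * SS x i k) ≡
        (SS y i i * SS y j k - SS y i j * SS y i k) [ZMOD n] :=
      ((SS_modEq h i i).mul (SS_modEq h j k)).sub ((SS_modEq h i j).mul (SS_modEq h i k))
    exact (Int.modEq_zero_iff_dvd).1 (h1.symm.trans ((Int.modEq_zero_iff_dvd).2 (hx.2 i j k)))

theorem SK_mono {a n : ℤ} (ha : a ∣ n) {x : Fin 10 → ℤ} (hx : SK n x) : SK a x :=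
  ⟨fun p pp hp => hx.1 p pp (hp.trans ha), fun i j k => ha.trans (hx.2 i j k)⟩

/-- two points with the same row `i` modulo `q` -/
theorem same_row {p w : ℕ} (pp : p.Prime) {x y : Fin 10 → ℤ} {i : Fin 4} (hxi : ¬ (p : ℤ) ∣ x (dg i))
    (hxl : ∀ j k, ((p ^ w : ℕ) : ℤ) ∣ SS x i i * SS x j k - SS x i j * SS x i k)
    (hyl : ∀ j k, ((p ^ w : ℕ) : ℤ) ∣ SS y i i * SS y j k - SS y i j * SS y i k)
    (hrow : ∀ j, SS x i j ≡ SS y i j [ZMOD (p ^ w : ℕ)]) :
    ∀ m, ((p ^ w : ℕ) : ℤ) ∣ 4 * x m - 4 * y m := by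
  set q : ℕ := p ^ w with hq
  have h2 : ∀ j k, (q : ℤ) ∣ 2 * (SS x j k - SS y j k) := by
    intro j k
    have a1 : SS x i i * SS x j k ≡ SS x i j * SS x i k [ZMOD q] :=
      (Int.modEq_iff_dvd.2 (by
        have := (hxl j k); rw [← dvd_neg] at this; simpa using this))
    have a2 : SS y i i * SS y j k ≡ SS y i j * SS y i k [ZMOD q] :=
      (Int.modEq_iff_dvd.2 (by
        have := (hyl j k); rw [← dvd_neg] at this; simpa using this))
    have a3 : SS x i i * SS x j k ≡ SS x i i * SS y j k [ZMOD q] :=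
      a1.trans (((hrow j).mul (hrow k)).trans (a2.symm.trans ((hrow i).symm.mul_right _)))
    have a4 : (q : ℤ) ∣ x (dg i) * (2 * (SS x j k - SS y j k)) := by
      have h5 := a3.symm.dvd
      have e : x (dg i) * (2 * (SS x j k - SS y j k)) = sgd i * (SS x i i * SS x j k - SS x i i * SS y j k) := by
        rw [SS_diag]
        have := sgd_sq i
        linear_combination (-(2 * x (dg i) * (SS x j k - SS y j k))) * this
      rw [e]; exact Dvd.dvd.mul_left h5 _
    have a5 : (q : ℤ) ∣ x (dg i) ^ 2 * (2 * (SS x j k - SS y j k)) := by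
      have : x (dg i) ^ 2 * (2 * (SS x j k - SS y j k)) = x (dg i) * (x (dg i) * (2 * (SS x j k - SS y j k))) := by ring
      rw [this]; exact Dvd.dvd.mul_left a4 _
    exact cop_cancel pp hxi a5
  have d0 := h2 0 0
  have d2 := h2 1 1
  have d1 := h2 2 2
  have d3 := h2 3 3
  have d6 := h2 0 2
  have d8 := h2 0 3
  have d7 := h2 1 2
  have d9 := h2 1 3
  have da := h2 0 1
  have db := h2 2 3
  simp only [SS, Matrix.of_apply, Matrix.cons_val', Fin.isValue, Matrix.cons_val_zero, Matrix.cons_val_one,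
    Matrix.cons_val] at d0 d1 d2 d3 d6 d7 d8 d9 da db
  obtain ⟨t0, k0⟩ := d0
  obtain ⟨t1, k1⟩ := d1
  obtain ⟨t2, k2⟩ := d2
  obtain ⟨t3, k3⟩ := d3
  obtain ⟨t6, k6⟩ := d6
  obtain ⟨t7, k7⟩ := d7
  obtain ⟨t8, k8⟩ := d8
  obtain ⟨t9, k9⟩ := d9
  obtain ⟨ta, ka⟩ := da
  obtain ⟨tb, kb⟩ := db
  intro m
  fin_cases m <;> simp only [Fin.isValue, Fin.zero_eta, Fin.mk_one, Fin.reduceFinMk]
  · exact ⟨t0, by linear_combination k0⟩
  · exact ⟨-t1, by linear_combination -k1⟩
  · exact ⟨t2, by linear_combination k2⟩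
  · exact ⟨-t3, by linear_combination -k3⟩
  · exact ⟨tb - ta, by linear_combination kb - ka⟩
  · exact ⟨-(tb + ta), by linear_combination -kb - ka⟩
  · exact ⟨2 * t6, by linear_combination 2 * k6⟩
  · exact ⟨-(2 * t7), by linear_combination -2 * k7⟩
  · exact ⟨-(2 * t8), by linear_combination -2 * k8⟩
  · exact ⟨2 * t9, by linear_combination 2 * k9⟩

/-- prime powers: at most `4^11 q^4` classes -/
theorem scl_pp {p w : ℕ} (pp : p.Prime) (hw : w ≠ 0) (S : Finset (Fin 10 → ℤ))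
    (hS : ∀ x ∈ S, (∀ j, 0 ≤ x j ∧ x j < ((p ^ w : ℕ) : ℤ)) ∧ SK ((p ^ w : ℕ) : ℤ) x) :
    S.card ≤ 4 ^ 11 * (p ^ w) ^ 4 := by
  classical
  have hq0 : 0 < p ^ w := pow_pos pp.pos _
  have hqz : (0 : ℤ) < ((p ^ w : ℕ) : ℤ) := by exact_mod_cast hq0
  have hpq : (p : ℤ) ∣ ((p ^ w : ℕ) : ℤ) := by
    push_cast
    exact dvd_pow_self _ hw
  have hsub : S ⊆ (Finset.univ : Finset (Fin 4)).biUnion (fun i => S.filter (fun x => ¬ (p : ℤ) ∣ x (dg i))) := by
    intro x hx
    obtain ⟨i, hi⟩ := (hS x hx).2.1 p pp hpq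
    exact Finset.mem_biUnion.2 ⟨i, Finset.mem_univ _, Finset.mem_filter.2 ⟨hx, hi⟩⟩
  have hone : ∀ i : Fin 4, (S.filter (fun x => ¬ (p : ℤ) ∣ x (dg i))).card ≤ 4 ^ 10 * (p ^ w) ^ 4 := by
    intro i
    set T := (Fintype.piFinset (fun _ : Fin 4 => Finset.Ico (0 : ℤ) ((p ^ w : ℕ) : ℤ))) ×ˢ
      (Fintype.piFinset (fun _ : Fin 10 => Finset.Ico (0 : ℤ) 4)) with hT
    have hTc : T.card = 4 ^ 10 * (p ^ w) ^ 4 := by
      rw [hT, Finset.card_product, Fintype.card_piFinset, Fintype.card_piFinset]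
      simp only [Int.card_Ico, sub_zero, Int.toNat_natCast, Finset.prod_const, Finset.card_univ, Fintype.card_fin]
      rw [mul_comm]
      rfl
    rw [← hTc]
    apply Finset.card_le_card_of_injOn
      (fun x => ((fun j => SS x i j % ((p ^ w : ℕ) : ℤ)), (fun j => 4 * x j / ((p ^ w : ℕ) : ℤ))))
    · intro x hx
      simp only [Finset.coe_filter, Set.mem_ofPred_eq] at hx
      have hb := (hS x hx.1).1
      simp only [hT, Finset.coe_product, Set.mem_prod, Finset.mem_coe, Fintype.mem_piFinset, Finset.mem_Ico]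
      refine ⟨fun j => ⟨Int.emod_nonneg _ hqz.ne', Int.emod_lt_of_pos _ hqz⟩, fun j => ⟨?_, ?_⟩⟩
      · exact Int.ediv_nonneg (by have := (hb j).1; omega) hqz.le
      · rw [Int.ediv_lt_iff_lt_mul hqz]
        have := (hb j).2
        omega
    · intro x hx y hy hxy
      simp only [Finset.coe_filter, Set.mem_ofPred_eq] at hx hy
      simp only [Prod.mk.injEq] at hxy
      obtain ⟨e1, e2⟩ := hxy
      have h4 := same_row pp hx.2 (fun j k => (hS x hx.1).2.2 i j k) (fun j k => (hS y hy.1).2.2 i j k)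
        (fun j => congrFun e1 j)
      funext m
      have e3 : 4 * x m / ((p ^ w : ℕ) : ℤ) = 4 * y m / ((p ^ w : ℕ) : ℤ) := congrFun e2 m
      have e4 : (4 * x m) % ((p ^ w : ℕ) : ℤ) = (4 * y m) % ((p ^ w : ℕ) : ℤ) := (Int.modEq_iff_dvd.2 (by
        have := h4 m; rw [← dvd_neg] at this; simpa using this) : 4 * x m ≡ 4 * y m [ZMOD ((p ^ w : ℕ) : ℤ)])
      have e5 := Int.mul_ediv_add_emod (4 * x m) ((p ^ w : ℕ) : ℤ)
      have e6 := Int.mul_ediv_add_emod (4 * y m) ((p ^ w : ℕ) : ℤ)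
      rw [e3, e4, e6] at e5
      omega
  calc S.card ≤ _ := Finset.card_le_card hsub
    _ ≤ ∑ i : Fin 4, (S.filter (fun x => ¬ (p : ℤ) ∣ x (dg i))).card := Finset.card_biUnion_le
    _ ≤ ∑ _i : Fin 4, 4 ^ 10 * (p ^ w) ^ 4 := Finset.sum_le_sum (fun i _ => hone i)
    _ = 4 ^ 11 * (p ^ w) ^ 4 := by simp; ring

theorem scl_nat (n : ℕ) (hn : 0 < n) : ∀ S : Finset (Fin 10 → ℤ),
    (∀ x ∈ S, (∀ j, 0 ≤ x j ∧ x j < (n : ℤ)) ∧ SK (n : ℤ) x) → S.card ≤ n.divisors.card ^ 22 * n ^ 4 := by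
  classical
  induction n using Nat.recOnPosPrimePosCoprime with
  | prime_pow p w pp hw =>
    intro S hS
    refine (scl_pp pp hw.ne' S hS).trans (Nat.mul_le_mul_right _ ?_)
    have h1 : 2 ≤ (p ^ w).divisors.card := by
      rw [Nat.divisors_prime_pow pp, Finset.card_map, Finset.card_range]
      omega
    calc 4 ^ 11 = 2 ^ 22 := by norm_num
      _ ≤ _ := Nat.pow_le_pow_left h1 22
  | zero => omega
  | one =>
    intro S hS
    have h1 : S ⊆ {fun _ => 0} := by
      intro x hx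
      rw [Finset.mem_singleton]
      funext j
      have := (hS x hx).1 j
      push_cast at this
      omega
    have := Finset.card_le_card h1
    simpa using this
  | coprime a b ha hb hab iha ihb =>
    intro S hS
    have ha0 : (0 : ℤ) < a := by exact_mod_cast (by omega : 0 < a)
    have hb0 : (0 : ℤ) < b := by exact_mod_cast (by omega : 0 < b)
    set Sa := S.image (fun x j => x j % (a : ℤ)) with hSa
    set Sb := S.image (fun x j => x j % (b : ℤ)) with hSb
    have h1 : S.card ≤ (Sa ×ˢ Sb).card := by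
      apply Finset.card_le_card_of_injOn (fun x => ((fun j => x j % (a : ℤ)), (fun j => x j % (b : ℤ))))
      · intro x hx
        simp only [Finset.coe_product, Set.mem_prod, Finset.mem_coe]
        exact ⟨Finset.mem_image_of_mem _ hx, Finset.mem_image_of_mem _ hx⟩
      · intro x hx y hy hxy
        simp only [Prod.mk.injEq] at hxy
        obtain ⟨e1, e2⟩ := hxy
        funext j
        have f1 : x j ≡ y j [ZMOD a] := congrFun e1 j
        have f2 : x j ≡ y j [ZMOD b] := congrFun e2 j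
        have f3 : x j ≡ y j [ZMOD (a * b : ℕ)] := by
          push_cast
          exact (Int.modEq_and_modEq_iff_modEq_mul (by simpa using hab)).1 ⟨f1, f2⟩
        have hx1 := (hS x hx).1 j
        have hy1 := (hS y hy).1 j
        rw [Int.ModEq, Int.emod_eq_of_lt hx1.1 hx1.2, Int.emod_eq_of_lt hy1.1 hy1.2] at f3
        exact f3
    have hSa' := iha (by omega) Sa (by
      intro z hz
      obtain ⟨x, hx, rfl⟩ := Finset.mem_image.1 hz
      refine ⟨fun j => ⟨Int.emod_nonneg _ ha0.ne', Int.emod_lt_of_pos _ ha0⟩, ?_⟩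
      apply SK_congr (x := x) (fun j => (Int.mod_modEq _ _).symm)
      apply SK_mono _ (hS x hx).2
      push_cast
      exact dvd_mul_right _ _)
    have hSb' := ihb (by omega) Sb (by
      intro z hz
      obtain ⟨x, hx, rfl⟩ := Finset.mem_image.1 hz
      refine ⟨fun j => ⟨Int.emod_nonneg _ hb0.ne', Int.emod_lt_of_pos _ hb0⟩, ?_⟩
      apply SK_congr (x := x) (fun j => (Int.mod_modEq _ _).symm)
      apply SK_mono _ (hS x hx).2
      push_cast
      exact dvd_mul_left _ _)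
    rw [Finset.card_product] at h1
    calc S.card ≤ Sa.card * Sb.card := h1
      _ ≤ (a.divisors.card ^ 22 * a ^ 4) * (b.divisors.card ^ 22 * b ^ 4) := Nat.mul_le_mul hSa' hSb'
      _ = (a * b).divisors.card ^ 22 * (a * b) ^ 4 := by
          rw [Nat.Coprime.card_divisors_mul hab]; ring

end Pool.Agent.PP5T
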