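import Pool.Agent.PP5T.Jnb
import Pool.Agent.PP5V.Td

/-!
# PP5 (D'): joint counts for a modulus and a real size, all moduli
-/

set_option autoImplicit false

namespace Pool.Agent.PP5T

open Matrix Pool.Agent.PP5L Pool.Agent.PP5K

/-- (CK): few `x` with `k(x) / w(x) ≥ Q` -/
theorem ck_count {ε : ℝ} (hε : 0 < ε) :
    ∃ C : ℝ, 1 ≤ C ∧ ∀ Y K Q : ℝ, 1 ≤ Y → 1 ≤ K → 1 ≤ Q → ∀ S : Finset (Fin 10 → ℤ),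
    (∀ x ∈ S, FF x = 0 ∧ (∀ j, |(x j : ℝ)| ≤ Y) ∧ (∃ j, Y ≤ K * |(x j : ℝ)|) ∧
      ∃ n : ℕ, 0 < n ∧ RK n x ∧ Mn x ((n : ℝ) / Q * Y ^ 4)) →
    (S.card : ℝ) ≤ C * K ^ 64 * Y ^ (8 + ε) * (1 / Q ^ 3 + 1 / Y ^ 3) :=
  ck_of (fun he => Pool.Agent.PP5V.tail_R he) hε

/-- (CA): few `x` with `A(x) / p(x) ≥ Q` -/
theorem ca_count {ε : ℝ} (hε : 0 < ε) :
    ∃ C : ℝ, 1 ≤ C ∧ ∀ Y K Q : ℝ, 1 ≤ Y → 1 ≤ K → 1 ≤ Q → ∀ S : Finset (Fin 10 → ℤ),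
    (∀ x ∈ S, FF x = 0 ∧ (∀ j, |(x j : ℝ)| ≤ Y) ∧ (∃ j, Y ≤ K * |(x j : ℝ)|) ∧
      (∀ p : ℕ, p.Prime → ∃ j, ¬ (p : ℤ) ∣ x j) ∧
      ∃ n : ℕ, 0 < n ∧ (∀ i j k l, (n : ℤ) ∣ SS x i k * SS x j l - SS x i l * SS x j k) ∧
      ∀ i i' j j', |((SS x i j * SS x i' j' - SS x i j' * SS x i' j : ℤ) : ℝ)| ≤ (n : ℝ) / Q * Y ^ 2) →
    (S.card : ℝ) ≤ C * K ^ 8 * Y ^ (8 + ε) * (1 / Q ^ 3 + 1 / Y ^ 3) :=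
  ca_of (fun he => Pool.Agent.PP5V.tail_S he) hε

end Pool.Agent.PP5T
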