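import Pool.Agent.PP5S.Dat
import Pool.Agent.PP5M.Dcb
import Pool.Agent.PP5M.L3
import Pool.Agent.PP5M.D1c

/-!
# PP5 (D'): the data `XD` in sixteen coordinates
-/

set_option autoImplicit false

namespace Pool.Agent.PP5T

open Matrix Finset Pool.Agent.PP5S

theorem sg_bd {t1 t2 : ℝ} (h1 : 1 ≤ t1) (h2 : 1 ≤ t2) (i : Fin 12) :
    PP5.sg t1 t2 i ≤ (t1 * t2) ^ 2 ∧ 1 ≤ (t1 * t2) ^ 2 * PP5.sg t1 t2 i := by
  have a1 : 0 < t1 := by linarith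
  have a2 : 0 < t2 := by linarith
  have b1 : 1 ≤ t1 ^ 2 := one_le_pow₀ h1
  have b2 : 1 ≤ t2 ^ 2 := one_le_pow₀ h2
  have c1 : t1 ≤ t1 ^ 2 := le_self_pow₀ h1 two_ne_zero
  have c2 : t2 ≤ t2 ^ 2 := le_self_pow₀ h2 two_ne_zero
  have e : (t1 * t2) ^ 2 = t1 ^ 2 * t2 ^ 2 := by ring
  have d1 : t1 ^ 2 * t2 ≤ t1 ^ 2 * t2 ^ 2 := mul_le_mul_of_nonneg_left c2 (by positivity)
  have d2 : t1 * t2 ^ 2 ≤ t1 ^ 2 * t2 ^ 2 := mul_le_mul_of_nonneg_right c1 (by positivity)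
  have d3 : t1 ^ 2 ≤ t1 ^ 2 * t2 ^ 2 := le_mul_of_one_le_right (by positivity) b2
  have d4 : t2 ^ 2 ≤ t1 ^ 2 * t2 ^ 2 := le_mul_of_one_le_left (by positivity) b1
  have d5 : 1 ≤ t1 ^ 2 * t2 ^ 2 := one_le_mul_of_one_le_of_one_le b1 b2
  rw [e]
  have q1 : t1 / t2 ^ 2 ≤ t1 := div_le_self a1.le b2
  have q2 : t2 / t1 ^ 2 ≤ t2 := div_le_self a2.le b1
  have q3 : t1 ^ 2 / t2 ≤ t1 ^ 2 := div_le_self (by positivity) h2
  have q4 : t2 ^ 2 / t1 ≤ t2 ^ 2 := div_le_self (by positivity) h1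
  have q5 : 1 / (t1 ^ 2 * t2) ≤ 1 := by
    rw [div_le_one (by positivity)]; exact one_le_mul_of_one_le_of_one_le b1 h2
  have q6 : 1 / t2 ≤ 1 := by rw [div_le_one a2]; exact h2
  have q7 : 1 / (t1 * t2 ^ 2) ≤ 1 := by
    rw [div_le_one (by positivity)]; exact one_le_mul_of_one_le_of_one_le h1 b2
  have q8 : 1 / t1 ≤ 1 := by rw [div_le_one a1]; exact h1
  have z1 : t1 ^ 2 * t2 ^ 2 * (1 / (t1 ^ 2 * t2)) = t2 := by field_simp
  have z2 : t1 ^ 2 * t2 ^ 2 * (1 / t2) = t1 ^ 2 * t2 := by field_simp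
  have z3 : t1 ^ 2 * t2 ^ 2 * (t1 ^ 2 / t2) = t1 ^ 4 * t2 := by field_simp
  have z4 : t1 ^ 2 * t2 ^ 2 * (t2 / t1 ^ 2) = t2 ^ 3 := by field_simp
  have z5 : t1 ^ 2 * t2 ^ 2 * (1 / (t1 * t2 ^ 2)) = t1 := by field_simp
  have z6 : t1 ^ 2 * t2 ^ 2 * (1 / t1) = t1 * t2 ^ 2 := by field_simp
  have z7 : t1 ^ 2 * t2 ^ 2 * (t2 ^ 2 / t1) = t1 * t2 ^ 4 := by field_simp
  have z8 : t1 ^ 2 * t2 ^ 2 * (t1 / t2 ^ 2) = t1 ^ 3 := by field_simp
  have p1 : 1 ≤ t1 ^ 3 := one_le_pow₀ h1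
  have p2 : 1 ≤ t2 ^ 3 := one_le_pow₀ h2
  have p3 : 1 ≤ t1 ^ 4 := one_le_pow₀ h1
  have p4 : 1 ≤ t2 ^ 4 := one_le_pow₀ h2
  have p5 : 1 ≤ t1 ^ 2 * t2 := one_le_mul_of_one_le_of_one_le b1 h2
  have p6 : 1 ≤ t1 * t2 ^ 2 := one_le_mul_of_one_le_of_one_le h1 b2
  have p7 : 1 ≤ t1 ^ 4 * t2 := one_le_mul_of_one_le_of_one_le p3 h2
  have p8 : 1 ≤ t1 * t2 ^ 4 := one_le_mul_of_one_le_of_one_le h1 p4
  have p9 : 1 ≤ t1 ^ 2 * t2 ^ 2 * t2 := one_le_mul_of_one_le_of_one_le d5 h2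
  have p10 : 1 ≤ t1 ^ 2 * t2 ^ 2 * t1 := one_le_mul_of_one_le_of_one_le d5 h1
  have p11 : 1 ≤ t1 ^ 2 * t2 ^ 2 * (t1 ^ 2 * t2) := one_le_mul_of_one_le_of_one_le d5 p5
  have p12 : 1 ≤ t1 ^ 2 * t2 ^ 2 * (t1 * t2 ^ 2) := one_le_mul_of_one_le_of_one_le d5 p6
  fin_cases i <;> simp only [PP5.sg, Fin.zero_eta, Fin.mk_one, Fin.reduceFinMk, Matrix.cons_val_zero,
    Matrix.cons_val_one, Matrix.cons_val, Fin.isValue]
  · exact ⟨by linarith, by linarith⟩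
  · exact ⟨by linarith, by linarith⟩
  · exact ⟨by linarith, by linarith⟩
  · exact ⟨by linarith, by linarith⟩
  · exact ⟨by linarith, by linarith⟩
  · exact ⟨by linarith, by linarith⟩
  · exact ⟨by linarith, by linarith⟩
  · exact ⟨by linarith, by linarith⟩
  · exact ⟨by linarith, by linarith⟩
  · exact ⟨by linarith, by linarith⟩
  · exact ⟨by linarith, by linarith⟩
  · exact ⟨by linarith, by linarith⟩

theorem tx_bd {t1 t2 : ℝ} (h1 : 1 ≤ t1) (h2 : 1 ≤ t2) (i : Fin 10) :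
    PP5.tx t1 t2 i ≤ (t1 * t2) ^ 2 ∧ 1 ≤ (t1 * t2) ^ 2 * PP5.tx t1 t2 i := by
  have a1 : 0 < t1 := by linarith
  have a2 : 0 < t2 := by linarith
  have b1 : 1 ≤ t1 ^ 2 := one_le_pow₀ h1
  have b2 : 1 ≤ t2 ^ 2 := one_le_pow₀ h2
  have c1 : t1 ≤ t1 ^ 2 := le_self_pow₀ h1 two_ne_zero
  have c2 : t2 ≤ t2 ^ 2 := le_self_pow₀ h2 two_ne_zero
  have e : (t1 * t2) ^ 2 = t1 ^ 2 * t2 ^ 2 := by ring
  have d3 : t1 ^ 2 ≤ t1 ^ 2 * t2 ^ 2 := le_mul_of_one_le_right (by positivity) b2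
  have d4 : t2 ^ 2 ≤ t1 ^ 2 * t2 ^ 2 := le_mul_of_one_le_left (by positivity) b1
  have d5 : 1 ≤ t1 ^ 2 * t2 ^ 2 := one_le_mul_of_one_le_of_one_le b1 b2
  have d6 : t1 * t2 ≤ t1 ^ 2 * t2 ^ 2 := mul_le_mul c1 c2 a2.le (by positivity)
  rw [e]
  have q1 : t1 / t2 ≤ t1 := div_le_self a1.le h2
  have q2 : t2 / t1 ≤ t2 := div_le_self a2.le h1
  have q5 : 1 / t1 ^ 2 ≤ 1 := by
    rw [div_le_one (by positivity)]; exact b1
  have q6 : 1 / t2 ^ 2 ≤ 1 := by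
    rw [div_le_one (by positivity)]; exact b2
  have q7 : 1 / (t1 * t2) ≤ 1 := by
    rw [div_le_one (by positivity)]; exact one_le_mul_of_one_le_of_one_le h1 h2
  have z1 : t1 ^ 2 * t2 ^ 2 * (1 / t1 ^ 2) = t2 ^ 2 := by field_simp
  have z2 : t1 ^ 2 * t2 ^ 2 * (1 / t2 ^ 2) = t1 ^ 2 := by field_simp
  have z3 : t1 ^ 2 * t2 ^ 2 * (1 / (t1 * t2)) = t1 * t2 := by field_simp
  have z4 : t1 ^ 2 * t2 ^ 2 * (t1 / t2) = t1 ^ 3 * t2 := by field_simp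
  have z5 : t1 ^ 2 * t2 ^ 2 * (t2 / t1) = t1 * t2 ^ 3 := by field_simp
  have p1 : 1 ≤ t1 ^ 3 := one_le_pow₀ h1
  have p2 : 1 ≤ t2 ^ 3 := one_le_pow₀ h2
  have p5 : 1 ≤ t1 * t2 := one_le_mul_of_one_le_of_one_le h1 h2
  have p7 : 1 ≤ t1 ^ 3 * t2 := one_le_mul_of_one_le_of_one_le p1 h2
  have p8 : 1 ≤ t1 * t2 ^ 3 := one_le_mul_of_one_le_of_one_le h1 p2
  have p9 : 1 ≤ t1 ^ 2 * t2 ^ 2 * t1 ^ 2 := one_le_mul_of_one_le_of_one_le d5 b1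
  have p10 : 1 ≤ t1 ^ 2 * t2 ^ 2 * t2 ^ 2 := one_le_mul_of_one_le_of_one_le d5 b2
  have p11 : 1 ≤ t1 ^ 2 * t2 ^ 2 * (t1 * t2) := one_le_mul_of_one_le_of_one_le d5 p5
  fin_cases i <;> simp only [PP5.tx, Fin.zero_eta, Fin.mk_one, Fin.reduceFinMk, Matrix.cons_val_zero,
    Matrix.cons_val_one, Matrix.cons_val, Fin.isValue]
  · exact ⟨by linarith, by linarith⟩
  · exact ⟨by linarith, by linarith⟩
  · exact ⟨by linarith, by linarith⟩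
  · exact ⟨by linarith, by linarith⟩
  · exact ⟨by linarith, by linarith⟩
  · exact ⟨by linarith, by linarith⟩
  · exact ⟨by linarith, by linarith⟩
  · exact ⟨by linarith, by linarith⟩
  · exact ⟨by linarith, by linarith⟩
  · exact ⟨by linarith, by linarith⟩

/-- the coordinates of a real combination are bounded by its size -/
theorem XD_wc {Cx t1 t2 T : ℝ} (hC : 1 ≤ Cx) (h1 : 1 ≤ t1) (h2 : 1 ≤ t2) {x : Fin 10 → ℤ}
    {b : Fin 4 → PP5.Sp} {G : Matrix (Fin 4) (Fin 4) ℤ} {l : Fin 4 → ℝ} {k : ℕ}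
    (h : XD Cx t1 t2 T x b G l k) (u : Fin 4 → ℝ) {Y : ℝ} (hY : 0 ≤ Y)
    (hu : ∀ a, |∑ i, u i * (b i a : ℝ)| ≤ Y * PP5.sg t1 t2 a) (i : Fin 4) :
    |u i| * l i ≤ Cx * Y := by
  have a1 : 0 < t1 := by linarith
  have a2 : 0 < t2 := by linarith
  have hsg := PP5.sg_pos a1 a2
  obtain ⟨L, hL⟩ : ∃ L : ℝ, L = ∑ i, l i := ⟨_, rfl⟩
  have hL0 : 0 ≤ L := by rw [hL]; exact Finset.sum_nonneg fun i _ => (h.lp i).le
  have key : ∀ N : ℕ, (N : ℝ) * (|u i| * l i) ≤ N * (Cx * Y) + (Cx * L + l i) := by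
    intro N
    obtain ⟨n, hn⟩ : ∃ n : Fin 4 → ℤ, n = fun i => round ((N : ℝ) * u i) := ⟨_, rfl⟩
    have hr : ∀ i, |(N : ℝ) * u i - n i| ≤ 1 := by
      intro i
      rw [hn]
      exact (abs_sub_round _).trans (by norm_num)
    have hE : PP5.InE (fun a => ∑ i, n i * b i a) x := by
      rw [← PP5.emb_mem]
      have e : PP5.emb (fun a => ∑ i, n i * b i a) = ∑ i, n i • PP5.emb (b i) := by
        rw [← PP5.emb_sum]
        congr 1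
      rw [e]
      exact Submodule.sum_mem _ fun i _ => Submodule.smul_mem _ _ (PP5.emb_mem.2 (h.bE i))
    have hb : ∀ a, |((∑ i, n i * b i a : ℤ) : ℝ)| ≤ ((N : ℝ) * Y + L) * PP5.sg t1 t2 a := by
      intro a
      have e : ((∑ i, n i * b i a : ℤ) : ℝ) = (N : ℝ) * ∑ i, u i * (b i a : ℝ) -
          ∑ i, ((N : ℝ) * u i - n i) * (b i a : ℝ) := by
        push_cast
        rw [Finset.mul_sum, ← Finset.sum_sub_distrib]
        exact Finset.sum_congr rfl fun i _ => by ring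
      rw [e]
      refine (abs_sub _ _).trans ?_
      have g1 : |(N : ℝ) * ∑ i, u i * (b i a : ℝ)| ≤ N * (Y * PP5.sg t1 t2 a) := by
        rw [abs_mul, abs_of_nonneg (Nat.cast_nonneg N)]
        exact mul_le_mul_of_nonneg_left (hu a) (Nat.cast_nonneg N)
      have g2 : |∑ i, ((N : ℝ) * u i - n i) * (b i a : ℝ)| ≤ L * PP5.sg t1 t2 a := by
        refine (Finset.abs_sum_le_sum_abs _ _).trans ?_
        rw [hL, Finset.sum_mul]
        refine Finset.sum_le_sum fun i _ => ?_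
        rw [abs_mul]
        calc |(N : ℝ) * u i - n i| * |(b i a : ℝ)| ≤ 1 * (l i * PP5.sg t1 t2 a) :=
              mul_le_mul (hr i) (h.bl i a) (abs_nonneg _) zero_le_one
          _ = _ := one_mul _
      calc _ ≤ N * (Y * PP5.sg t1 t2 a) + L * PP5.sg t1 t2 a := add_le_add g1 g2
        _ = _ := by ring
    obtain ⟨n', hn', hl'⟩ := h.span _ _ hE hb
    have e1 : n' = n := by
      have := h.ind (n' - n) (by
        intro a
        have := hn' a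
        simp only [Pi.sub_apply, sub_mul, Finset.sum_sub_distrib]
        linarith)
      exact sub_eq_zero.1 this
    rw [e1] at hl'
    have g3 : (N : ℝ) * |u i| ≤ |(n i : ℝ)| + 1 := by
      have : (N : ℝ) * |u i| = |(N : ℝ) * u i| := by
        rw [abs_mul, abs_of_nonneg (Nat.cast_nonneg N : (0 : ℝ) ≤ N)]
      rw [this]
      have g4 := hr i
      have g5 : |(N : ℝ) * u i| ≤ |(n i : ℝ)| + |(N : ℝ) * u i - n i| := by
        have := abs_add_le ((n i : ℝ)) ((N : ℝ) * u i - n i)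
        have e : (n i : ℝ) + ((N : ℝ) * u i - n i) = (N : ℝ) * u i := by ring
        rw [e] at this
        exact this
      linarith
    calc (N : ℝ) * (|u i| * l i) = ((N : ℝ) * |u i|) * l i := by ring
      _ ≤ (|(n i : ℝ)| + 1) * l i := mul_le_mul_of_nonneg_right g3 (h.lp i).le
      _ = |(n i : ℝ)| * l i + l i := by ring
      _ ≤ Cx * ((N : ℝ) * Y + L) + l i := by linarith [hl' i]
      _ = _ := by ring
  by_contra hcon
  push Not at hcon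
  obtain ⟨N, hN⟩ := exists_nat_gt ((Cx * L + l i) / (|u i| * l i - Cx * Y))
  have hd : 0 < |u i| * l i - Cx * Y := by linarith
  rw [div_lt_iff₀ hd] at hN
  have := key N
  nlinarith

/-- the data in sixteen coordinates -/
theorem XD_ld {Cx t1 t2 T : ℝ} (hC : 1 ≤ Cx) (h1 : 1 ≤ t1) (h2 : 1 ≤ t2) {x : Fin 10 → ℤ}
    {b : Fin 4 → PP5.Sp} {G : Matrix (Fin 4) (Fin 4) ℤ} {l : Fin 4 → ℝ} {k : ℕ} (ok : Xok x)
    (h : XD Cx t1 t2 T x b G l k) :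
    PP5M.LD Cx ((t1 * t2) ^ 2) T x (fun i => PP5.emb (b i)) G l k := by
  have a1 : 0 < t1 := by linarith
  have a2 : 0 < t2 := by linarith
  have hK1 : 1 ≤ (t1 * t2) ^ 2 := one_le_pow₀ (by nlinarith)
  have hK0 : 0 < (t1 * t2) ^ 2 := by linarith
  have hT := h.T0
  refine ⟨hC, hK1, hT, ok.ff, ok.dn, ?_, ?_, h.lp, ?_, ?_, ?_, ?_, h.pol, h.k1, h.kd⟩
  · intro j
    have := (tx_bd h1 h2 j).1
    calc |(x j : ℝ)| ≤ T * PP5.tx t1 t2 j := h.Tle j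
      _ ≤ T * (t1 * t2) ^ 2 := mul_le_mul_of_nonneg_left this hT.le
      _ = _ := mul_comm _ _
  · obtain ⟨j, hj⟩ := h.Tge
    refine ⟨j, ?_⟩
    have := (tx_bd h1 h2 j).2
    calc T = T * 1 := (mul_one T).symm
      _ ≤ T * ((t1 * t2) ^ 2 * PP5.tx t1 t2 j) := mul_le_mul_of_nonneg_left this hT.le
      _ = (t1 * t2) ^ 2 * (T * PP5.tx t1 t2 j) := by ring
      _ ≤ _ := mul_le_mul_of_nonneg_left hj hK0.le
  · intro i
    exact (PP5.InE_iff _ _).1 (h.bE i)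
  · intro i r
    exact PP5.dot_emb _ _
  · intro i a
    have := (sg_bd h1 h2 (PP5.ex a)).1
    have hb := h.bl i (PP5.ex a)
    show |((b i (PP5.ex a) : ℤ) : ℝ)| ≤ _
    calc |((b i (PP5.ex a) : ℤ) : ℝ)| ≤ l i * PP5.sg t1 t2 (PP5.ex a) := hb
      _ ≤ l i * (t1 * t2) ^ 2 := mul_le_mul_of_nonneg_left this (h.lp i).le
      _ = _ := mul_comm _ _
  · intro u i
    obtain ⟨a, _, ha⟩ := Finset.exists_max_image (Finset.univ : Finset (Fin 12))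
      (fun a => |∑ i, u i * (b i a : ℝ)| / PP5.sg t1 t2 a) ⟨0, Finset.mem_univ _⟩
    have hsg := PP5.sg_pos a1 a2
    have hu := XD_wc hC h1 h2 h u (Y := |∑ i, u i * (b i a : ℝ)| / PP5.sg t1 t2 a)
      (div_nonneg (abs_nonneg _) (hsg a).le) (fun a' => by
        have := ha a' (Finset.mem_univ _)
        rwa [div_le_iff₀ (hsg a')] at this) i
    refine ⟨PP5.ix a, ?_⟩
    have e : ∀ i', PP5.emb (b i') (PP5.ix a) = b i' a := fun i' => PP5.emb_ix _ _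
    simp only [e]
    have g1 : |∑ i, u i * (b i a : ℝ)| / PP5.sg t1 t2 a ≤ (t1 * t2) ^ 2 * |∑ i, u i * (b i a : ℝ)| := by
      rw [div_le_iff₀ (hsg a)]
      have := (sg_bd h1 h2 a).2
      have h0 := abs_nonneg (∑ i, u i * (b i a : ℝ))
      calc |∑ i, u i * (b i a : ℝ)| = |∑ i, u i * (b i a : ℝ)| * 1 := (mul_one _).symm
        _ ≤ |∑ i, u i * (b i a : ℝ)| * ((t1 * t2) ^ 2 * PP5.sg t1 t2 a) :=
            mul_le_mul_of_nonneg_left this h0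
        _ = _ := by ring
    calc |u i| * l i ≤ Cx * (|∑ i, u i * (b i a : ℝ)| / PP5.sg t1 t2 a) := hu
      _ ≤ Cx * ((t1 * t2) ^ 2 * |∑ i, u i * (b i a : ℝ)|) := mul_le_mul_of_nonneg_left g1 (by linarith)
      _ = _ := by ring

end Pool.Agent.PP5T
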