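import Pool.Agent.PP5P.HEd
import Pool.Agent.PP5T.Xld
import Pool.Agent.PP5T.Jnc

/-!
# PP5 (D'): the inputs (CK), (CA), (CW) of the exceptional `x`
-/

set_option autoImplicit false

namespace Pool.Agent.PP5T

open Matrix Finset Pool.Agent.PP5S Pool.Agent.PP5L Pool.Agent.PP5K Pool.Agent.PP5P

private theorem Kpow {t : ℝ} (ht : 1 ≤ t) (s : ℝ) : (t ^ 2) ^ s = t ^ (2 * s) := by
  rw [← Real.rpow_natCast t 2, ← Real.rpow_mul (by linarith)]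
  norm_num

/-- the sizes of `x` at the scale `T` -/
private theorem xs {Cx t1 t2 T T' : ℝ} {x : Fin 10 → ℤ} {b : Fin 4 → Fin 16 → ℤ}
    {G : Matrix (Fin 4) (Fin 4) ℤ} {l : Fin 4 → ℝ} {k : ℕ}
    (h : PP5M.LD Cx ((t1 * t2) ^ 2) T' x b G l k) (hT : T' ≤ T) (hT2 : T ≤ 2 * T') :
    (∀ j, |(x j : ℝ)| ≤ (t1 * t2) ^ 2 * T) ∧
      ∃ j, (t1 * t2) ^ 2 * T ≤ 2 * ((t1 * t2) ^ 2) ^ 2 * |(x j : ℝ)| := by
  have hK := h.K1
  constructor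
  · intro j
    exact (h.xle j).trans (mul_le_mul_of_nonneg_left hT (by linarith))
  · obtain ⟨j, hj⟩ := h.xge
    refine ⟨j, ?_⟩
    calc (t1 * t2) ^ 2 * T ≤ (t1 * t2) ^ 2 * (2 * T') := mul_le_mul_of_nonneg_left hT2 (by linarith)
      _ ≤ (t1 * t2) ^ 2 * (2 * ((t1 * t2) ^ 2 * |(x j : ℝ)|)) :=
          mul_le_mul_of_nonneg_left (by linarith) (by linarith)
      _ = _ := by ring

/-- all `x` of the box -/
private theorem all_x {ε : ℝ} (hε : 0 < ε) : ∃ C : ℝ, 1 ≤ C ∧ ∀ Y : ℝ, 1 ≤ Y →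
    ∀ S : Finset (Fin 10 → ℤ), (∀ x ∈ S, FF x = 0 ∧ ∀ j, |(x j : ℝ)| ≤ Y) →
    (S.card : ℝ) ≤ C * Y ^ (8 + ε) := by
  obtain ⟨C, hC, h⟩ := rk_card hε
  refine ⟨C, hC, fun Y hY S hS => ?_⟩
  have := h Y hY 1 one_pos (by simpa using hY) S (fun x hx => ⟨(hS x hx).2, (hS x hx).1, by
    refine ⟨fun p pp hp => ?_, fun i j k => ?_⟩
    · have h3 := Int.natCast_dvd_natCast.1 hp
      exact absurd (Nat.dvd_one.1 h3) pp.one_lt.ne'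
    · simp⟩)
  have e : (1 : ℝ) / ((1 : ℕ) : ℝ) ^ 4 = 1 := by norm_num
  rwa [e, mul_one] at this

/-- the final bookkeeping -/
private theorem book {C K0 T Q A0 ε m : ℝ} {s : ℕ} (hC : 0 ≤ C) (hK : 1 ≤ K0) (hT : 1 ≤ T) (hQ : 1 ≤ Q)
    (hA : 1 ≤ A0) (hm : m ≤ C * (2 * K0 ^ 2) ^ s * (K0 * T) ^ (8 + ε) *
      (1 / (Q / A0) ^ 3 + 1 / (K0 * T) ^ 3)) :
    m ≤ C * 2 ^ s * (K0 ^ (2 * s) * K0 ^ (8 + ε) * A0 ^ 3) * T ^ (8 + ε) * (Q⁻¹ ^ 3 + T⁻¹ ^ 3) := by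
  have hK0 : 0 < K0 := by linarith
  have hT0 : 0 < T := by linarith
  have hQ0 : 0 < Q := by linarith
  have hA3 : 1 ≤ A0 ^ 3 := one_le_pow₀ hA
  have e1 : 1 / (Q / A0) ^ 3 = A0 ^ 3 * Q⁻¹ ^ 3 := by
    rw [div_pow, inv_pow]
    field_simp
  have e2 : 1 / (K0 * T) ^ 3 ≤ A0 ^ 3 * T⁻¹ ^ 3 := by
    have g1 : 1 / (K0 * T) ^ 3 ≤ 1 / T ^ 3 := one_div_le_one_div_of_le (by positivity)
      (pow_le_pow_left₀ hT0.le (by nlinarith) 3)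
    have g2 : 1 / T ^ 3 = T⁻¹ ^ 3 := by rw [inv_pow, one_div]
    have g3 : 0 ≤ T⁻¹ ^ 3 := by positivity
    nlinarith
  have e3 : (K0 * T) ^ (8 + ε) = K0 ^ (8 + ε) * T ^ (8 + ε) := Real.mul_rpow hK0.le hT0.le
  refine hm.trans ?_
  calc C * (2 * K0 ^ 2) ^ s * (K0 * T) ^ (8 + ε) * (1 / (Q / A0) ^ 3 + 1 / (K0 * T) ^ 3)
      ≤ C * (2 * K0 ^ 2) ^ s * (K0 * T) ^ (8 + ε) * (A0 ^ 3 * Q⁻¹ ^ 3 + A0 ^ 3 * T⁻¹ ^ 3) :=
        mul_le_mul_of_nonneg_left (by linarith) (by positivity)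
    _ = _ := by rw [e3, mul_pow, ← pow_mul]; ring

/-- the trivial case -/
private theorem triv {C K0 T Q A0 ε m : ℝ} (s : ℕ) (hC : 0 ≤ C) (hK : 1 ≤ K0) (hT : 1 ≤ T) (hQ : 1 ≤ Q)
    (hQA : Q < A0) (hm : m ≤ C * (K0 * T) ^ (8 + ε)) :
    m ≤ C * 2 ^ s * (K0 ^ (2 * s) * K0 ^ (8 + ε) * A0 ^ 3) * T ^ (8 + ε) * (Q⁻¹ ^ 3 + T⁻¹ ^ 3) := by
  have hK0 : 0 < K0 := by linarith
  have hT0 : 0 < T := by linarith
  have hQ0 : 0 < Q := by linarith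
  have e3 : (K0 * T) ^ (8 + ε) = K0 ^ (8 + ε) * T ^ (8 + ε) := Real.mul_rpow hK0.le hT0.le
  have g1 : 1 ≤ A0 ^ 3 * (Q⁻¹ ^ 3 + T⁻¹ ^ 3) := by
    have g2 : 1 ≤ A0 ^ 3 * Q⁻¹ ^ 3 := by
      rw [← mul_pow]
      apply one_le_pow₀
      rw [← div_eq_mul_inv, one_le_div hQ0]
      exact hQA.le
    have g3 : 0 ≤ A0 ^ 3 * T⁻¹ ^ 3 := by
      have : 0 < A0 := by linarith
      positivity
    rw [mul_add]
    linarith
  have g4 : (1 : ℝ) ≤ 2 ^ s * K0 ^ (2 * s) := by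
    have a1 : (1 : ℝ) ≤ 2 ^ s := one_le_pow₀ (by norm_num)
    have a2 : (1 : ℝ) ≤ K0 ^ (2 * s) := one_le_pow₀ hK
    nlinarith
  refine hm.trans ?_
  rw [e3]
  calc C * (K0 ^ (8 + ε) * T ^ (8 + ε)) = C * (K0 ^ (8 + ε) * T ^ (8 + ε)) * (1 * 1) := by ring
    _ ≤ C * (K0 ^ (8 + ε) * T ^ (8 + ε)) * ((2 ^ s * K0 ^ (2 * s)) * (A0 ^ 3 * (Q⁻¹ ^ 3 + T⁻¹ ^ 3))) :=
        mul_le_mul_of_nonneg_left (mul_le_mul g4 g1 zero_le_one (by positivity)) (by positivity)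
    _ = _ := by ring

/-- (CK) -/
theorem ck (Cx : ℝ) (hCx : 1 ≤ Cx) : CK Cx := by
  classical
  intro ε hε
  obtain ⟨C1, hC1, h1⟩ := ck_count hε
  obtain ⟨C2, hC2, h2⟩ := all_x hε
  refine ⟨2 * (172 + ε), (C1 + C2) * 2 ^ 64 * 10 ^ 60, by positivity, by
    have : (1 : ℝ) ≤ C1 + C2 := by linarith
    nlinarith, fun t1 t2 T Q ht1 ht2 hT hQ S hS => ?_⟩
  have ht : 1 ≤ t1 * t2 := by nlinarith
  obtain ⟨K0, hK0d⟩ : ∃ K0 : ℝ, K0 = (t1 * t2) ^ 2 := ⟨_, rfl⟩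
  have hK1 : 1 ≤ K0 := by rw [hK0d]; exact one_le_pow₀ ht
  have hK0 : 0 < K0 := by linarith
  have hQ0 : 0 < Q := by linarith
  have hT0 : 0 < T := by linarith
  have hY : 1 ≤ K0 * T := by nlinarith
  obtain ⟨A0, hA0⟩ : ∃ A0 : ℝ, A0 = 10 ^ 20 * K0 ^ 12 := ⟨_, rfl⟩
  have hK12 : 1 ≤ K0 ^ 12 := one_le_pow₀ hK1
  have hA1 : 1 ≤ A0 := by rw [hA0]; nlinarith
  have hA00 : 0 < A0 := by linarith
  -- the sizes
  have hx : ∀ x ∈ S, FF x = 0 ∧ (∀ j, |(x j : ℝ)| ≤ K0 * T) ∧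
      (∃ j, K0 * T ≤ 2 * K0 ^ 2 * |(x j : ℝ)|) ∧
      ∃ n : ℕ, 0 < n ∧ RK n x ∧ Mn x ((n : ℝ) / (Q / A0) * (K0 * T) ^ 4) := by
    intro x hx
    obtain ⟨ok, T', b, G, l, k, hXD, hTT, hTT2, hl⟩ := hS x hx
    have hLD := XD_ld hCx ht1 ht2 ok hXD
    obtain ⟨s1, s2⟩ := xs hLD hTT hTT2
    rw [← hK0d] at s1 s2 hLD
    refine ⟨ok.ff, s1, s2, k, hXD.k1, hXD.rk, ?_⟩
    intro c
    have g1 := PP5M.minor_le hLD c
    refine g1.trans ?_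
    have hk0 : (0 : ℝ) ≤ k := Nat.cast_nonneg k
    have g2 : (∏ i, l i) ≤ T' ^ 4 / Q := by
      rw [le_div_iff₀ hQ0]
      linarith
    have hT'0 := hXD.T0
    have g3 : T' ^ 4 ≤ (K0 * T) ^ 4 := pow_le_pow_left₀ hT'0.le (by nlinarith) 4
    calc 10 ^ 20 * K0 ^ 12 * (k * ∏ i, l i) ≤ 10 ^ 20 * K0 ^ 12 * (k * (T' ^ 4 / Q)) :=
          mul_le_mul_of_nonneg_left (mul_le_mul_of_nonneg_left g2 hk0) (by positivity)
      _ ≤ 10 ^ 20 * K0 ^ 12 * (k * ((K0 * T) ^ 4 / Q)) :=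
          mul_le_mul_of_nonneg_left (mul_le_mul_of_nonneg_left
            (div_le_div_of_nonneg_right g3 hQ0.le) hk0) (by positivity)
      _ = _ := by rw [← hA0]; field_simp
  have hfin : (S.card : ℝ) ≤ (C1 + C2) * 2 ^ 64 * (K0 ^ (2 * 64) * K0 ^ (8 + ε) * A0 ^ 3) * T ^ (8 + ε) *
      (Q⁻¹ ^ 3 + T⁻¹ ^ 3) := by
    by_cases hQA : Q < A0
    · refine triv 64 (by linarith) hK1 hT hQ hQA ?_
      refine (h2 (K0 * T) hY S (fun x h => ⟨(hx x h).1, (hx x h).2.1⟩)).trans ?_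
      exact mul_le_mul_of_nonneg_right (by linarith) (by positivity)
    · push Not at hQA
      refine book (by linarith) hK1 hT hQ hA1 ?_
      refine (h1 (K0 * T) (2 * K0 ^ 2) (Q / A0) hY (by nlinarith) (by rwa [one_le_div hA00]) S hx).trans ?_
      refine mul_le_mul_of_nonneg_right (mul_le_mul_of_nonneg_right
        (mul_le_mul_of_nonneg_right (by linarith) (by positivity)) (by positivity)) (by positivity)
  refine hfin.trans (le_of_eq ?_)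
  have e1 : K0 ^ (2 * 64) * K0 ^ (8 + ε) * A0 ^ 3 = 10 ^ 60 * (t1 * t2) ^ (2 * (172 + ε)) := by
    rw [← Kpow ht, ← hK0d, hA0, show (172 + ε : ℝ) = (8 + ε) + 164 by ring, Real.rpow_add hK0 (8 + ε) 164]
    have : K0 ^ (164 : ℝ) = K0 ^ 164 := by rw [← Real.rpow_natCast K0 164]; norm_num
    rw [this]
    ring
  rw [e1]
  simp only
  ring

/-- (CA) -/
theorem ca (Cx : ℝ) (hCx : 1 ≤ Cx) : CA Cx := by
  classical
  intro ε hε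
  obtain ⟨C1, hC1, h1⟩ := ca_count hε
  obtain ⟨C2, hC2, h2⟩ := all_x hε
  have hCx48 : 1 ≤ Cx ^ 48 := one_le_pow₀ hCx
  refine ⟨2 * (216 + ε), (C1 + C2) * 2 ^ 8 * (10 ^ 120 * Cx ^ 48), by positivity, by
    have : (1 : ℝ) ≤ C1 + C2 := by linarith
    nlinarith, fun t1 t2 T Q ht1 ht2 hT hQ S hS => ?_⟩
  have ht : 1 ≤ t1 * t2 := by nlinarith
  obtain ⟨K0, hK0d⟩ : ∃ K0 : ℝ, K0 = (t1 * t2) ^ 2 := ⟨_, rfl⟩
  have hK1 : 1 ≤ K0 := by rw [hK0d]; exact one_le_pow₀ ht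
  have hK0 : 0 < K0 := by linarith
  have hQ0 : 0 < Q := by linarith
  have hT0 : 0 < T := by linarith
  have hY : 1 ≤ K0 * T := by nlinarith
  obtain ⟨A0, hA0⟩ : ∃ A0 : ℝ, A0 = 10 ^ 40 * (Cx * K0 ^ 4) ^ 16 := ⟨_, rfl⟩
  have hK4 : 1 ≤ (Cx * K0 ^ 4) ^ 16 := one_le_pow₀ (by
    have : 1 ≤ K0 ^ 4 := one_le_pow₀ hK1
    nlinarith)
  have hA1 : 1 ≤ A0 := by rw [hA0]; nlinarith
  have hA00 : 0 < A0 := by linarith
  -- the sizes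
  have hx : ∀ x ∈ S, FF x = 0 ∧ (∀ j, |(x j : ℝ)| ≤ K0 * T) ∧
      (∃ j, K0 * T ≤ 2 * K0 ^ 2 * |(x j : ℝ)|) ∧ (∀ p : ℕ, p.Prime → ∃ j, ¬ (p : ℤ) ∣ x j) ∧
      ∃ n : ℕ, 0 < n ∧ (∀ i j k l, (n : ℤ) ∣ SS x i k * SS x j l - SS x i l * SS x j k) ∧
      ∀ i i' j j', |((SS x i j * SS x i' j' - SS x i j' * SS x i' j : ℤ) : ℝ)| ≤
        (n : ℝ) / (Q / A0) * (K0 * T) ^ 2 := by
    intro x hx
    obtain ⟨ok, T', b, G, l, k, hXD, hTT, hTT2, p, hp0, hp, hQp⟩ := hS x hx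
    have hLD := XD_ld hCx ht1 ht2 ok hXD
    obtain ⟨s1, s2⟩ := xs hLD hTT hTT2
    rw [← hK0d] at s1 s2 hLD
    have hn0 : (0 : ℝ) < (PP5N.mi2 G : ℝ) := lt_of_lt_of_le (by positivity) hQp
    refine ⟨ok.ff, s1, s2, ok.pr, PP5N.mi2 G, by exact_mod_cast hn0, ?_, ?_⟩
    · obtain ⟨B, hB⟩ := hXD.bas
      intro i j k' l'
      refine PP5M.content2_mn2 ok.ff ok.pr ok.dn B G (fun i k j => ?_) _ ?_ i j k' l'
      · rw [hB, hB]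
        exact hXD.pol i k j
      · intro i j k l
        exact PP5N.mi2_dvd G i j k l
    · intro i i' j j'
      have g1 := PP5M.mnS0_le hLD.zero (p := p) (fun i i' k k' => by
        have := hp i i' k k'
        have e : PP5M.mr G i i' k k' = mr G i i' k k' := rfl
        rw [e]
        calc _ ≤ _ := this
          _ = _ := by ring) i i' j j'
      have e : PP5M.mr (SS x) i i' j j' = SS x i j * SS x i' j' - SS x i j' * SS x i' j := rfl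
      rw [e] at g1
      refine g1.trans ?_
      have hT'0 := hXD.T0
      have g3 : T' ^ 2 ≤ (K0 * T) ^ 2 := pow_le_pow_left₀ hT'0.le (by nlinarith) 2
      have g4 : p ≤ (PP5N.mi2 G : ℝ) / Q := by
        rw [le_div_iff₀ hQ0]
        linarith
      calc 10 ^ 40 * (Cx * K0 ^ 4) ^ 16 * p * T' ^ 2
          ≤ 10 ^ 40 * (Cx * K0 ^ 4) ^ 16 * ((PP5N.mi2 G : ℝ) / Q) * (K0 * T) ^ 2 :=
            mul_le_mul (mul_le_mul_of_nonneg_left g4 (by positivity)) g3 (by positivity) (by positivity)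
        _ = _ := by rw [← hA0]; field_simp
  have hfin : (S.card : ℝ) ≤ (C1 + C2) * 2 ^ 8 * (K0 ^ (2 * 8) * K0 ^ (8 + ε) * A0 ^ 3) * T ^ (8 + ε) *
      (Q⁻¹ ^ 3 + T⁻¹ ^ 3) := by
    by_cases hQA : Q < A0
    · refine triv 8 (by linarith) hK1 hT hQ hQA ?_
      refine (h2 (K0 * T) hY S (fun x h => ⟨(hx x h).1, (hx x h).2.1⟩)).trans ?_
      exact mul_le_mul_of_nonneg_right (by linarith) (by positivity)
    · push Not at hQA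
      refine book (by linarith) hK1 hT hQ hA1 ?_
      refine (h1 (K0 * T) (2 * K0 ^ 2) (Q / A0) hY (by nlinarith) (by rwa [one_le_div hA00]) S hx).trans ?_
      refine mul_le_mul_of_nonneg_right (mul_le_mul_of_nonneg_right
        (mul_le_mul_of_nonneg_right (by linarith) (by positivity)) (by positivity)) (by positivity)
  refine hfin.trans (le_of_eq ?_)
  have e1 : K0 ^ (2 * 8) * K0 ^ (8 + ε) * A0 ^ 3 = 10 ^ 120 * Cx ^ 48 * (t1 * t2) ^ (2 * (216 + ε)) := by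
    rw [← Kpow ht, ← hK0d, hA0, show (216 + ε : ℝ) = (8 + ε) + 208 by ring, Real.rpow_add hK0 (8 + ε) 208]
    have : K0 ^ (208 : ℝ) = K0 ^ 208 := by rw [← Real.rpow_natCast K0 208]; norm_num
    rw [this]
    ring
  rw [e1]
  simp only
  ring

/-- (CW) -/
theorem cw (Cx : ℝ) (hCx : 1 ≤ Cx) : CW Cx := by
  have hCx16 : 1 ≤ Cx ^ 16 := one_le_pow₀ hCx
  refine ⟨128, 10 ^ 40 * Cx ^ 16, by norm_num, by nlinarith, fun t1 t2 T ht1 ht2 x b G l k ok hXD => ?_⟩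
  have ht : 1 ≤ t1 * t2 := by nlinarith
  have g1 := PP5M.kL_le (XD_ld hCx ht1 ht2 ok hXD)
  have e : (t1 * t2) ^ (128 : ℝ) = (t1 * t2) ^ 128 := by
    rw [← Real.rpow_natCast (t1 * t2) 128]; norm_num
  rw [e]
  refine g1.trans (le_of_eq ?_)
  ring

end Pool.Agent.PP5T
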