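import Pool.Agent.PP5K.Kh
import Pool.Agent.PP5K.Ki

/-!
# PP5 (D'): points of `F = 0` in a product of small sets of integers
-/

set_option autoImplicit false

namespace Pool.Agent.PP5T

open Pool.Agent.PP5L Pool.Agent.PP5K

private theorem prz {q : ℝ} {A B : Finset ℤ} (hA : (A.card : ℝ) ≤ q) (hB : (B.card : ℝ) ≤ q)
    (S : Finset (ℤ × ℤ)) (hS : ∀ s ∈ S, s.1 * s.2 = 0 ∧ s.1 ∈ A ∧ s.2 ∈ B) :
    (S.card : ℝ) ≤ 2 * q := by
  classical
  have hsub : S ⊆ (({0} : Finset ℤ) ×ˢ B) ∪ (A ×ˢ ({0} : Finset ℤ)) := by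
    rintro ⟨u, v⟩ hs
    obtain ⟨h0, h1, h2⟩ := hS _ hs
    simp only at h0 h1 h2
    rcases mul_eq_zero.1 h0 with h | h
    · exact Finset.mem_union_left _ (by simp [h, h2])
    · exact Finset.mem_union_right _ (by simp [h, h1])
  have h1 := (Finset.card_le_card hsub).trans (Finset.card_union_le _ _)
  rw [Finset.card_product, Finset.card_product, Finset.card_singleton] at h1
  have h2 : (S.card : ℝ) ≤ 1 * B.card + A.card * 1 := by exact_mod_cast h1
  linarith

/-- two products -/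
private theorem pr2 {ε : ℝ} (hε : 0 < ε) : ∃ C : ℝ, 1 ≤ C ∧ ∀ Y q : ℝ, 1 ≤ Y → 1 ≤ q →
    ∀ A B A' B' : Finset ℤ, (A.card : ℝ) ≤ q → (B.card : ℝ) ≤ q → (A'.card : ℝ) ≤ q →
    (B'.card : ℝ) ≤ q → ∀ m : ℤ, ∀ S : Finset ((ℤ × ℤ) × (ℤ × ℤ)),
    (∀ s ∈ S, s.1.1 * s.1.2 - s.2.1 * s.2.2 = m ∧ (s.1.1 ∈ A ∧ s.1.2 ∈ B ∧ s.2.1 ∈ A' ∧ s.2.2 ∈ B') ∧
      |(s.1.1 : ℝ)| ≤ Y ∧ |(s.1.2 : ℝ)| ≤ Y ∧ |(s.2.1 : ℝ)| ≤ Y ∧ |(s.2.2 : ℝ)| ≤ Y) →
    (S.card : ℝ) ≤ C * Y ^ ε * q ^ 2 := by
  classical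
  obtain ⟨C, hC, h⟩ := pairs_eps hε 1 one_pos
  refine ⟨3 * C + 4, by linarith, fun Y q hY hq A B A' B' hA hB hA' hB' m S hS => ?_⟩
  have hY0 : 0 < Y := by linarith
  have hYe : 1 ≤ Y ^ ε := Real.one_le_rpow hY hε.le
  set Sa := S.filter (fun s => s.1.1 * s.1.2 ≠ 0) with hSa
  set Sb := S.filter (fun s => ¬ s.1.1 * s.1.2 ≠ 0) with hSb
  have hsplit : (S.card : ℝ) = Sa.card + Sb.card := by
    rw [hSa, hSb]; exact_mod_cast (Finset.card_filter_add_card_filter_not _).symm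
  have prod_le : ∀ u v : ℤ, |(u : ℝ)| ≤ Y → |(v : ℝ)| ≤ Y → |((u * v : ℤ) : ℝ)| ≤ 1 * Y ^ 2 := by
    intro u v hu hv
    push_cast
    rw [abs_mul, one_mul, pow_two]
    exact mul_le_mul hu hv (abs_nonneg _) hY0.le
  have ha : (Sa.card : ℝ) ≤ C * Y ^ ε * q ^ 2 := by
    have h1 := card_le_fib Sa (fun s => s.2) (A' ×ˢ B') (fun s hs => by
      obtain ⟨_, ⟨_, _, h3, h4⟩, _⟩ := hS s (Finset.mem_filter.1 hs).1
      exact Finset.mem_product.2 ⟨h3, h4⟩) (C * Y ^ ε) (by
      intro t _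
      rcases (Sa.filter (fun s => s.2 = t)).eq_empty_or_nonempty with h0 | ⟨s0, hs0⟩
      · rw [h0]; simp; positivity
      have hs1 := Finset.mem_filter.1 hs0
      have hs2 := Finset.mem_filter.1 hs1.1
      obtain ⟨e0, _, b1, b2, b3, b4⟩ := hS s0 hs2.1
      have e1 : s0.1.1 * s0.1.2 = m + t.1 * t.2 := by rw [← hs1.2]; linarith
      have h2 := h Y hY (m + t.1 * t.2) (by rw [← e1]; exact hs2.2)
        (by rw [← e1]; exact prod_le _ _ b1 b2)
        ((Sa.filter (fun s => s.2 = t)).image (fun s => s.1)) (by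
          intro p hp
          obtain ⟨s, hs, rfl⟩ := Finset.mem_image.1 hp
          have hs3 := Finset.mem_filter.1 hs
          have := (hS s (Finset.mem_filter.1 hs3.1).1).1
          rw [← hs3.2]
          linarith)
      rw [Finset.card_image_of_injOn] at h2
      · exact h2
      · intro s hs s' hs' he
        have hs3 := Finset.mem_filter.1 hs
        have hs4 := Finset.mem_filter.1 hs'
        exact Prod.ext he (hs3.2.trans hs4.2.symm))
    have h2 : ((A' ×ˢ B').card : ℝ) ≤ q ^ 2 := by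
      rw [Finset.card_product]
      push_cast
      rw [pow_two]
      exact mul_le_mul hA' hB' (by positivity) (by linarith)
    exact h1.trans (mul_le_mul_of_nonneg_left h2 (by positivity))
  have hb : (Sb.card : ℝ) ≤ (2 * q) * (C * Y ^ ε + 2 * q) := by
    have h1 : Sb.card ≤ (Sb.image (fun s => s.1) ×ˢ Sb.image (fun s => s.2)).card :=
      Finset.card_le_card_of_injOn (fun s => s) (fun s hs => by
        simp only [Finset.coe_product, Set.mem_prod, Finset.mem_coe]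
        exact ⟨Finset.mem_image_of_mem (fun s : (ℤ × ℤ) × (ℤ × ℤ) => s.1) hs,
          Finset.mem_image_of_mem (fun s : (ℤ × ℤ) × (ℤ × ℤ) => s.2) hs⟩) (fun s _ s' _ he => he)
    rw [Finset.card_product] at h1
    have h2 : ((Sb.image (fun s => s.1)).card : ℝ) ≤ 2 * q := by
      apply prz hA hB
      intro p hp
      obtain ⟨s, hs, rfl⟩ := Finset.mem_image.1 hp
      have hs1 := Finset.mem_filter.1 hs
      obtain ⟨_, ⟨h3, h4, _, _⟩, _⟩ := hS s hs1.1
      exact ⟨not_not.1 hs1.2, h3, h4⟩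
    have h3 : ((Sb.image (fun s => s.2)).card : ℝ) ≤ C * Y ^ ε + 2 * q := by
      by_cases hm : m = 0
      · have := prz hA' hB' (Sb.image (fun s => s.2)) (by
          intro p hp
          obtain ⟨s, hs, rfl⟩ := Finset.mem_image.1 hp
          have hs1 := Finset.mem_filter.1 hs
          obtain ⟨e0, ⟨_, _, h3, h4⟩, _⟩ := hS s hs1.1
          have := not_not.1 hs1.2
          exact ⟨by linarith, h3, h4⟩)
        have h5 : 0 ≤ C * Y ^ ε := by positivity
        linarith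
      · rcases Sb.eq_empty_or_nonempty with h0 | ⟨s0, hs0⟩
        · rw [h0]; simp; positivity
        have hs1 := Finset.mem_filter.1 hs0
        obtain ⟨e0, _, b1, b2, b3, b4⟩ := hS s0 hs1.1
        have e1 := not_not.1 hs1.2
        have e2 : s0.2.1 * s0.2.2 = - m := by linarith
        have := h Y hY (-m) (neg_ne_zero.2 hm) (by rw [← e2]; exact prod_le _ _ b3 b4)
          (Sb.image (fun s => s.2)) (by
            intro p hp
            obtain ⟨s, hs, rfl⟩ := Finset.mem_image.1 hp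
            have hs1 := Finset.mem_filter.1 hs
            have e0 := (hS s hs1.1).1
            have := not_not.1 hs1.2
            linarith)
        linarith
    have h4 : (Sb.card : ℝ) ≤ (Sb.image (fun s => s.1)).card * (Sb.image (fun s => s.2)).card := by
      exact_mod_cast h1
    exact h4.trans (mul_le_mul h2 h3 (by positivity) (by positivity))
  have hq2 : q ≤ q ^ 2 := by nlinarith
  have hCY : 1 ≤ C * Y ^ ε := by nlinarith
  have h5 : (2 * q) * (C * Y ^ ε + 2 * q) ≤ (2 * C + 4) * Y ^ ε * q ^ 2 := by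
    have h6 : q * (C * Y ^ ε) ≤ q ^ 2 * (C * Y ^ ε) := mul_le_mul_of_nonneg_right hq2 (by linarith)
    have h7 : q ^ 2 * 1 ≤ q ^ 2 * Y ^ ε := mul_le_mul_of_nonneg_left hYe (by positivity)
    nlinarith
  rw [hsplit]
  nlinarith

/-- points of `F = 0` in a product of sets of at most `q` integers -/
theorem bxc {ε : ℝ} (hε : 0 < ε) : ∃ C : ℝ, 1 ≤ C ∧ ∀ Y q : ℝ, 1 ≤ Y → 1 ≤ q →
    ∀ A : Fin 10 → Finset ℤ, (∀ j, ((A j).card : ℝ) ≤ q) → ∀ S : Finset (Fin 10 → ℤ),
    (∀ x ∈ S, FF x = 0 ∧ (∀ j, |(x j : ℝ)| ≤ Y) ∧ ∀ j, x j ∈ A j) →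
    (S.card : ℝ) ≤ C * Y ^ ε * q ^ 8 := by
  classical
  obtain ⟨C, hC, h⟩ := pr2 hε
  refine ⟨C, hC, fun Y q hY hq A hA S hS => ?_⟩
  have hY0 : 0 < Y := by linarith
  set u : Fin 6 → Fin 10 := ![4, 5, 6, 7, 8, 9] with hu
  have h1 := card_le_fib S (fun x => fun i : Fin 6 => x (u i)) (Fintype.piFinset fun i => A (u i))
    (fun x hx => Fintype.mem_piFinset.2 fun i => (hS x hx).2.2 (u i)) (C * Y ^ ε * q ^ 2) (by
      intro t _
      have h2 := h Y q hY hq (A 0) (A 2) (A 1) (A 3) (hA 0) (hA 2) (hA 1) (hA 3)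
        (t 0 * t 1 + t 2 * t 5 - t 3 * t 4)
        ((S.filter (fun x => (fun i : Fin 6 => x (u i)) = t)).image
          (fun x => ((x 0, x 2), (x 1, x 3)))) (by
          intro p hp
          obtain ⟨x, hx, rfl⟩ := Finset.mem_image.1 hp
          have hx1 := Finset.mem_filter.1 hx
          obtain ⟨hF, hb, hc⟩ := hS x hx1.1
          refine ⟨?_, ⟨hc 0, hc 2, hc 1, hc 3⟩, hb 0, hb 2, hb 1, hb 3⟩
          rw [← hx1.2]
          simp only [FF] at hF
          simp only [hu]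
          show x 0 * x 2 - x 1 * x 3 = x 4 * x 5 + x 6 * x 9 - x 7 * x 8
          linarith)
      rw [Finset.card_image_of_injOn] at h2
      · exact h2
      · intro x hx y hy he
        have hx1 := (Finset.mem_filter.1 hx).2
        have hy1 := (Finset.mem_filter.1 hy).2
        have h3 : ∀ i : Fin 6, x (u i) = y (u i) := fun i => congrFun (hx1.trans hy1.symm) i
        simp only [Prod.mk.injEq] at he
        obtain ⟨⟨e0, e2⟩, e1, e3⟩ := he
        funext j
        fin_cases j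
        · exact e0
        · exact e1
        · exact e2
        · exact e3
        · exact h3 0
        · exact h3 1
        · exact h3 2
        · exact h3 3
        · exact h3 4
        · exact h3 5)
  have h2 : ((Fintype.piFinset fun i => A (u i)).card : ℝ) ≤ q ^ 6 := by
    rw [Fintype.card_piFinset]
    push_cast
    calc ∏ i : Fin 6, ((A (u i)).card : ℝ) ≤ ∏ _i : Fin 6, q :=
          Finset.prod_le_prod (fun _ _ => by positivity) fun i _ => hA _
      _ = q ^ 6 := by simp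
  calc (S.card : ℝ) ≤ C * Y ^ ε * q ^ 2 * ((Fintype.piFinset fun i => A (u i)).card : ℝ) := h1
    _ ≤ C * Y ^ ε * q ^ 2 * q ^ 6 := mul_le_mul_of_nonneg_left h2 (by positivity)
    _ = C * Y ^ ε * q ^ 8 := by ring

end Pool.Agent.PP5T
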