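import Pool.Agent.PP5T.Bxc

/-!
# PP5 (D'), (N2): few `x` are rank one points for a modulus `n ≥ N0`
-/

set_option autoImplicit false

namespace Pool.Agent.PP5T

open Pool.Agent.PP5L Pool.Agent.PP5K

/-- integers in an interval and a class -/
private theorem cls {Y : ℝ} {n : ℕ} (hn : 0 < n) (hY : (n : ℝ) ≤ Y) (r : ℤ) (T : Finset ℤ)
    (hT : ∀ z ∈ T, z % (n : ℤ) = r ∧ |(z : ℝ)| ≤ Y) : (T.card : ℝ) ≤ 65 * (Y / n) := by
  classical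
  have hn0 : (0 : ℝ) < n := by exact_mod_cast hn
  have h1 : 1 ≤ Y / n := (one_le_div hn0).2 hY
  rcases T.eq_empty_or_nonempty with h0 | ⟨z0, hz0⟩
  · rw [h0]; simp; positivity
  have h2 := mult_card (Z := 2 * Y) (by linarith) n hn (T.image (fun z => z - z0)) (by
    intro w hw
    obtain ⟨z, hz, rfl⟩ := Finset.mem_image.1 hw
    have e1 := (hT z hz).1
    have e2 := (hT z0 hz0).1
    constructor
    · exact Dvd.dvd.mul_left (Int.ModEq.dvd (e2.trans e1.symm : z0 ≡ z [ZMOD (n : ℤ)])) _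
    · push_cast
      have b1 := abs_le.1 (hT z hz).2
      have b2 := abs_le.1 (hT z0 hz0).2
      exact abs_le.2 ⟨by linarith, by linarith⟩)
  rw [Finset.card_image_of_injective _ (sub_left_injective)] at h2
  have e : 32 * (2 * Y) / n = 64 * (Y / n) := by ring
  rw [e] at h2
  linarith

private theorem tel (a : ℕ) (ha : 0 < a) : ∀ b : ℕ, a ≤ b →
    ∑ n ∈ Finset.Ico a b, (1 : ℝ) / (n : ℝ) ^ 4 ≤ 3 * (1 / (a : ℝ) ^ 3 - 1 / (b : ℝ) ^ 3) := by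
  intro b hb
  induction b, hb using Nat.le_induction with
  | base => simp
  | succ m hm ih =>
    rw [Finset.sum_Ico_succ_top hm]
    have hm0 : (1 : ℝ) ≤ m := by exact_mod_cast (by omega : 1 ≤ m)
    have key : (1 : ℝ) / (m : ℝ) ^ 4 ≤ 3 * (1 / (m : ℝ) ^ 3 - 1 / ((m : ℝ) + 1) ^ 3) := by
      have hp : (0 : ℝ) < m := by linarith
      rw [div_sub_div _ _ (by positivity) (by positivity), mul_div_assoc', div_le_div_iff₀ (by positivity) (by positivity)]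
      have e : 3 * (1 * ((m : ℝ) + 1) ^ 3 - (m : ℝ) ^ 3 * 1) * (m : ℝ) ^ 4 -
        1 * ((m : ℝ) ^ 3 * ((m : ℝ) + 1) ^ 3) = (m : ℝ) ^ 3 * (8 * (m : ℝ) ^ 3 + 6 * (m : ℝ) ^ 2 - 1) := by ring
      have h3 : 0 ≤ (m : ℝ) ^ 3 * (8 * (m : ℝ) ^ 3 + 6 * (m : ℝ) ^ 2 - 1) := by
        apply mul_nonneg (by positivity)
        nlinarith [pow_pos hp 3, pow_pos hp 2]
      linarith
    push_cast
    linarith

/-- one modulus -/
theorem rk_card {ε : ℝ} (hε : 0 < ε) : ∃ C : ℝ, 1 ≤ C ∧ ∀ Y : ℝ, 1 ≤ Y → ∀ n : ℕ, 0 < n → (n : ℝ) ≤ Y →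
    ∀ S : Finset (Fin 10 → ℤ), (∀ x ∈ S, (∀ j, |(x j : ℝ)| ≤ Y) ∧ FF x = 0 ∧ RK n x) →
    (S.card : ℝ) ≤ C * Y ^ (8 + ε) * (1 / (n : ℝ) ^ 4) := by
  classical
  obtain ⟨C, hC, h⟩ := bxc (half_pos hε)
  obtain ⟨c, hc, hdiv⟩ := Pool.Agent.FTA.divisor_bound (ε := ε / 44) (by positivity)
  refine ⟨max 1 (c ^ 22 * (C * 65 ^ 8)), le_max_left _ _, fun Y hY n hn hnY S hS => ?_⟩
  have hn0 : (0 : ℝ) < n := by exact_mod_cast hn
  have hnz : (0 : ℤ) < n := by exact_mod_cast hn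
  have hY0 : 0 < Y := by linarith
  have hq : 1 ≤ 65 * (Y / n) := by
    have := (one_le_div hn0).2 hnY
    linarith
  have h1 := card_le_fib S (fun x => fun j => x j % (n : ℤ)) (S.image fun x => fun j => x j % (n : ℤ))
    (fun x hx => Finset.mem_image_of_mem _ hx) (C * Y ^ (ε / 2) * (65 * (Y / n)) ^ 8) (by
      intro t _
      refine h Y (65 * (Y / n)) hY hq
        (fun j => (S.filter fun x => (fun j => x j % (n : ℤ)) = t).image fun x => x j) ?_ _ ?_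
      · intro j
        refine cls hn hnY (t j) _ ?_
        intro z hz
        obtain ⟨x, hx, rfl⟩ := Finset.mem_image.1 hz
        have hx1 := Finset.mem_filter.1 hx
        exact ⟨congrFun hx1.2 j, (hS x hx1.1).1 j⟩
      · intro x hx
        have hx1 := Finset.mem_filter.1 hx
        obtain ⟨hb, hF, _⟩ := hS x hx1.1
        exact ⟨hF, hb, fun j => Finset.mem_image_of_mem (fun x : Fin 10 → ℤ => x j) hx⟩)
  have h2 := class_card_nat n hn (S.image fun x => fun j => x j % (n : ℤ)) (by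
    intro z hz
    obtain ⟨x, hx, rfl⟩ := Finset.mem_image.1 hz
    refine ⟨fun j => ⟨Int.emod_nonneg _ hnz.ne', Int.emod_lt_of_pos _ hnz⟩, ?_⟩
    exact RK_congr (x := x) (fun j => (Int.mod_modEq _ _).symm) (hS x hx).2.2)
  have h3 := hdiv n hn.ne'
  have h4 : ((n.divisors.card : ℝ)) ^ 22 ≤ c ^ 22 * Y ^ (ε / 2) := by
    calc ((n.divisors.card : ℝ)) ^ 22 ≤ (c * (n : ℝ) ^ (ε / 44)) ^ 22 :=
          pow_le_pow_left₀ (by positivity) h3 22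
      _ = c ^ 22 * (n : ℝ) ^ (ε / 2) := by
          rw [mul_pow, ← Real.rpow_natCast ((n : ℝ) ^ (ε / 44)) 22, ← Real.rpow_mul hn0.le]
          congr 2
          push_cast
          ring
      _ ≤ c ^ 22 * Y ^ (ε / 2) :=
          mul_le_mul_of_nonneg_left (Real.rpow_le_rpow hn0.le hnY (by positivity)) (by positivity)
  have h5 : ((S.image fun x => fun j => x j % (n : ℤ)).card : ℝ) ≤ c ^ 22 * Y ^ (ε / 2) * (n : ℝ) ^ 4 := by
    have h6 : ((S.image fun x => fun j => x j % (n : ℤ)).card : ℝ) ≤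
        (n.divisors.card : ℝ) ^ 22 * (n : ℝ) ^ 4 := by exact_mod_cast h2
    exact h6.trans (mul_le_mul_of_nonneg_right h4 (by positivity))
  have h6 : Y ^ (ε / 2) * Y ^ (ε / 2) * Y ^ 8 = Y ^ (8 + ε) := by
    rw [← Real.rpow_natCast Y 8, ← Real.rpow_add hY0, ← Real.rpow_add hY0]
    congr 1
    push_cast
    ring
  calc (S.card : ℝ) ≤ C * Y ^ (ε / 2) * (65 * (Y / n)) ^ 8 *
        ((S.image fun x => fun j => x j % (n : ℤ)).card : ℝ) := h1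
    _ ≤ C * Y ^ (ε / 2) * (65 * (Y / n)) ^ 8 * (c ^ 22 * Y ^ (ε / 2) * (n : ℝ) ^ 4) :=
        mul_le_mul_of_nonneg_left h5 (by positivity)
    _ = c ^ 22 * (C * 65 ^ 8) * (Y ^ (ε / 2) * Y ^ (ε / 2) * Y ^ 8) * (1 / (n : ℝ) ^ 4) := by
        field_simp
    _ = c ^ 22 * (C * 65 ^ 8) * Y ^ (8 + ε) * (1 / (n : ℝ) ^ 4) := by rw [h6]
    _ ≤ _ := by
        apply mul_le_mul_of_nonneg_right _ (by positivity)
        exact mul_le_mul_of_nonneg_right (le_max_right _ _) (by positivity)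

/-- (N2) few `x` are rank one points for a modulus `n ≥ N0` -/
theorem kap_card {ε : ℝ} (hε : 0 < ε) : ∃ C : ℝ, 1 ≤ C ∧ ∀ Y : ℝ, 1 ≤ Y → ∀ N0 : ℝ, 1 ≤ N0 →
    ∀ S : Finset (Fin 10 → ℤ), (∀ x ∈ S, (∀ j, |(x j : ℝ)| ≤ Y) ∧ FF x = 0 ∧
      ∃ n : ℕ, N0 ≤ n ∧ RK n x) → (S.card : ℝ) ≤ C * Y ^ (8 + ε) * (1 / N0 ^ 3 + 1 / Y) := by
  classical
  obtain ⟨C, hC, h⟩ := rk_card hε
  obtain ⟨C', hC', h'⟩ := tail_card hε
  refine ⟨3 * C + 2 * C', by linarith, fun Y hY N0 hN0 S hS => ?_⟩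
  have hY0 : 0 < Y := by linarith
  have hN00 : 0 < N0 := by linarith
  set Sa := S.filter (fun x => ∃ n : ℕ, N0 ≤ n ∧ (n : ℝ) ≤ Y ∧ RK n x) with hSa
  set Sb := S.filter (fun x => ¬ ∃ n : ℕ, N0 ≤ n ∧ (n : ℝ) ≤ Y ∧ RK n x) with hSb
  have hsplit : (S.card : ℝ) = Sa.card + Sb.card := by
    rw [hSa, hSb]; exact_mod_cast (Finset.card_filter_add_card_filter_not _).symm
  set M := C * Y ^ (8 + ε) with hM
  have hM0 : 0 ≤ M := by positivity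
  have ha : (Sa.card : ℝ) ≤ 3 * M * (1 / N0 ^ 3) := by
    have hsub : Sa ⊆ (Finset.Ico ⌈N0⌉₊ (max ⌈N0⌉₊ (⌊Y⌋₊ + 1))).biUnion
        (fun n => S.filter fun x => (n : ℝ) ≤ Y ∧ RK n x) := by
      intro x hx
      obtain ⟨hx1, n, hn1, hn2, hn3⟩ := Finset.mem_filter.1 hx
      refine Finset.mem_biUnion.2 ⟨n, Finset.mem_Ico.2 ⟨Nat.ceil_le.2 hn1, ?_⟩,
        Finset.mem_filter.2 ⟨hx1, hn2, hn3⟩⟩
      have := Nat.le_floor hn2
      exact lt_of_lt_of_le (by omega) (le_max_right _ _)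
    have hc0 : 0 < ⌈N0⌉₊ := Nat.ceil_pos.2 hN00
    have h1 : (Sa.card : ℝ) ≤ ∑ n ∈ Finset.Ico ⌈N0⌉₊ (max ⌈N0⌉₊ (⌊Y⌋₊ + 1)),
        ((S.filter fun x => (n : ℝ) ≤ Y ∧ RK n x).card : ℝ) := by
      exact_mod_cast (Finset.card_le_card hsub).trans Finset.card_biUnion_le
    have h2 : ∀ n ∈ Finset.Ico ⌈N0⌉₊ (max ⌈N0⌉₊ (⌊Y⌋₊ + 1)),
        ((S.filter fun x => (n : ℝ) ≤ Y ∧ RK n x).card : ℝ) ≤ M * (1 / (n : ℝ) ^ 4) := by
      intro n hn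
      have hn0 : 0 < n := lt_of_lt_of_le hc0 (Finset.mem_Ico.1 hn).1
      by_cases hnY : (n : ℝ) ≤ Y
      · refine h Y hY n hn0 hnY _ ?_
        intro x hx
        have hx1 := Finset.mem_filter.1 hx
        exact ⟨(hS x hx1.1).1, (hS x hx1.1).2.1, hx1.2.2⟩
      · rw [Finset.filter_false_of_mem (fun x _ hx => hnY hx.1)]
        simp
        positivity
    have h3 := h1.trans (Finset.sum_le_sum h2)
    rw [← Finset.mul_sum] at h3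
    have h4 := tel ⌈N0⌉₊ hc0 (max ⌈N0⌉₊ (⌊Y⌋₊ + 1)) (le_max_left _ _)
    have h5 : (1 : ℝ) / (⌈N0⌉₊ : ℝ) ^ 3 ≤ 1 / N0 ^ 3 :=
      one_div_le_one_div_of_le (by positivity) (pow_le_pow_left₀ hN00.le (Nat.le_ceil N0) 3)
    have h6 : (0 : ℝ) ≤ 1 / ((max ⌈N0⌉₊ (⌊Y⌋₊ + 1) : ℕ) : ℝ) ^ 3 := by positivity
    calc (Sa.card : ℝ) ≤ M * ∑ n ∈ Finset.Ico ⌈N0⌉₊ (max ⌈N0⌉₊ (⌊Y⌋₊ + 1)), 1 / (n : ℝ) ^ 4 := h3
      _ ≤ M * (3 * (1 / N0 ^ 3)) := mul_le_mul_of_nonneg_left (by linarith) hM0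
      _ = _ := by ring
  have hb : (Sb.card : ℝ) ≤ C' * Y ^ (8 + ε) * (1 / Y + 1 / Y ^ 2) := by
    refine h' Y hY Y hY Sb ?_
    intro x hx
    obtain ⟨hx1, hx2⟩ := Finset.mem_filter.1 hx
    obtain ⟨b, hF, n, hn, hk⟩ := hS x hx1
    refine ⟨b, hF, n, ?_, hk⟩
    by_contra hlt
    exact hx2 ⟨n, hn, (not_le.1 hlt).le, hk⟩
  have h7 : 1 / Y ^ 2 ≤ 1 / Y := one_div_le_one_div_of_le hY0 (by nlinarith)
  have h8 : C' * Y ^ (8 + ε) * (1 / Y + 1 / Y ^ 2) ≤ C' * Y ^ (8 + ε) * (2 * (1 / Y)) :=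
    mul_le_mul_of_nonneg_left (by linarith) (by positivity)
  have h9 : 0 ≤ Y ^ (8 + ε) * (1 / N0 ^ 3) := by positivity
  have h10 : 0 ≤ Y ^ (8 + ε) * (1 / Y) := by positivity
  rw [hsplit]
  have e1 : 3 * M * (1 / N0 ^ 3) = 3 * C * (Y ^ (8 + ε) * (1 / N0 ^ 3)) := by rw [hM]; ring
  have e2 : C' * Y ^ (8 + ε) * (2 * (1 / Y)) = 2 * C' * (Y ^ (8 + ε) * (1 / Y)) := by ring
  have e3 : (3 * C + 2 * C') * Y ^ (8 + ε) * (1 / N0 ^ 3 + 1 / Y) =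
    3 * C * (Y ^ (8 + ε) * (1 / N0 ^ 3)) + 2 * C' * (Y ^ (8 + ε) * (1 / Y)) +
      2 * C' * (Y ^ (8 + ε) * (1 / N0 ^ 3)) + 3 * C * (Y ^ (8 + ε) * (1 / Y)) := by ring
  have h11 : 0 ≤ 2 * C' * (Y ^ (8 + ε) * (1 / N0 ^ 3)) := mul_nonneg (by linarith) h9
  have h12 : 0 ≤ 3 * C * (Y ^ (8 + ε) * (1 / Y)) := mul_nonneg (by linarith) h10
  rw [e3]
  linarith

end Pool.Agent.PP5T
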