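import Pool.Agent.PP5T.Rbb
import Pool.Agent.PP5T.Kpc

/-!
# PP5 (D'), (N5): a point with small minors has a large diagonal entry
-/

set_option autoImplicit false

namespace Pool.Agent.PP5T

open Matrix Pool.Agent.PP5L Pool.Agent.PP5K

/-- all `4 x 4` minors of the four vectors attached to `x` are at most `B` -/
def Mn (x : Fin 10 → ℤ) (B : ℝ) : Prop :=
  ∀ c : Fin 4 → Fin 16, |(((Matrix.of fun i a => HP x (rho i) (c a)).det : ℤ) : ℝ)| ≤ B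

theorem Mn.fl {x : Fin 10 → ℤ} {B : ℝ} (h : Mn x B) (c : Fin 4 → Fin 16) :
    |(Matrix.of fun i a => HP x (rho i) (c a)).det| ≤ ⌊B⌋ := by
  apply Int.le_floor.2
  rw [Int.cast_abs]
  exact h c

private theorem sc {T P : ℝ} (hT : 0 < T) {E : ℤ} {e : ℝ} {b : ℤ} {k : ℤ} (hk : 0 ≤ k) (h : |E| ≤ k * b)
    (hb : (b : ℝ) ≤ P * T ^ 4) (he : (E : ℝ) = T ^ 4 * e) : |e| ≤ k * P := by
  have h1 : |(E : ℝ)| ≤ k * b := by
    rw [← Int.cast_abs]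
    exact_mod_cast h
  have hk' : (0 : ℝ) ≤ k := by exact_mod_cast hk
  have h2 : T ^ 4 * |e| ≤ T ^ 4 * (k * P) := by
    have h3 : |(E : ℝ)| = T ^ 4 * |e| := by rw [he, abs_mul, abs_of_pos (by positivity)]
    have h4 := mul_le_mul_of_nonneg_left hb hk'
    rw [← h3]
    linarith
  exact le_of_mul_le_mul_left h2 (by positivity)

theorem dgb {x : Fin 10 → ℤ} (hF : FF x = 0) {T Q P : ℝ} (hT : 0 < T) (hQ : 1 ≤ Q)
    (hP : 80 * Q ^ 4 * P ≤ 1) (hx : ∀ j, |(x j : ℝ)| ≤ T) (hj : ∃ j, T ≤ Q * |(x j : ℝ)|)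
    (hM : Mn x (P * T ^ 4)) : ∃ i, T ≤ 40 * Q ^ 4 * |(x (dg i) : ℝ)| := by
  by_contra hcon
  push Not at hcon
  obtain ⟨u, hu⟩ : ∃ u : Fin 10 → ℝ, ∀ j, (x j : ℝ) = T * u j :=
    ⟨fun j => x j / T, fun j => by field_simp⟩
  have hQ4 : 1 ≤ Q ^ 4 := one_le_pow₀ hQ
  have hu1 : ∀ j, |u j| ≤ 1 := by
    intro j
    have := hx j
    rw [hu, abs_mul, abs_of_pos hT] at this
    exact le_of_mul_le_mul_left (by linarith) hT
  have hud : ∀ i, 40 * Q ^ 4 * |u (dg i)| ≤ 1 := by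
    intro i
    have := hcon i
    rw [hu, abs_mul, abs_of_pos hT] at this
    have h1 : T * (40 * Q ^ 4 * |u (dg i)|) ≤ T * 1 := by linarith
    exact le_of_mul_le_mul_left h1 hT
  have hfl : ((⌊P * T ^ 4⌋ : ℤ) : ℝ) ≤ P * T ^ 4 := Int.floor_le _
  have e6 : |u 6 ^ 2 * (u 0 * u 1 - u 6 * u 6)| ≤ 20 * P := by
    have := sc hT (k := 20) (by norm_num) (rd_6 hF hM.fl) hfl (e := u 6 ^ 2 * (u 0 * u 1 - u 6 * u 6)) (by
      push_cast; simp only [hu]; ring)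
    exact_mod_cast this
  have e7 : |u 7 ^ 2 * (u 1 * u 2 - u 7 * u 7)| ≤ 20 * P := by
    have := sc hT (k := 20) (by norm_num) (rd_7 hF hM.fl) hfl (e := u 7 ^ 2 * (u 1 * u 2 - u 7 * u 7)) (by
      push_cast; simp only [hu]; ring)
    exact_mod_cast this
  have e8 : |u 8 ^ 2 * (u 0 * u 3 - u 8 * u 8)| ≤ 20 * P := by
    have := sc hT (k := 20) (by norm_num) (rd_8 hF hM.fl) hfl (e := u 8 ^ 2 * (u 0 * u 3 - u 8 * u 8)) (by
      push_cast; simp only [hu]; ring)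
    exact_mod_cast this
  have e9 : |u 9 ^ 2 * (u 2 * u 3 - u 9 * u 9)| ≤ 20 * P := by
    have := sc hT (k := 20) (by norm_num) (rd_9 hF hM.fl) hfl (e := u 9 ^ 2 * (u 2 * u 3 - u 9 * u 9)) (by
      push_cast; simp only [hu]; ring)
    exact_mod_cast this
  have ea : |u 0 * u 1 * u 2 * u 3 - u 0 * u 2 * u 4 * u 4 - u 0 * u 4 * u 7 * u 9 - u 1 * u 3 * u 4 * u 4 - u 1 * u 4 * u 8 * u 9 - u 2 * u 4 * u 6 * u 8 - u 3 * u 4 * u 6 * u 7 + u 4 * u 4 * u 4 * u 4 - u 6 * u 7 * u 8 * u 9| ≤ 20 * P := by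
    have := sc hT (k := 20) (by norm_num) (rl_a hM.fl) hfl (e := u 0 * u 1 * u 2 * u 3 - u 0 * u 2 * u 4 * u 4 - u 0 * u 4 * u 7 * u 9 - u 1 * u 3 * u 4 * u 4 - u 1 * u 4 * u 8 * u 9 - u 2 * u 4 * u 6 * u 8 - u 3 * u 4 * u 6 * u 7 + u 4 * u 4 * u 4 * u 4 - u 6 * u 7 * u 8 * u 9) (by
      push_cast; simp only [hu]; ring)
    exact_mod_cast this
  have eb : |u 0 * u 1 * u 2 * u 3 - u 0 * u 2 * u 5 * u 5 + u 0 * u 5 * u 7 * u 9 - u 1 * u 3 * u 5 * u 5 - u 1 * u 5 * u 8 * u 9 + u 2 * u 5 * u 6 * u 8 - u 3 * u 5 * u 6 * u 7 + u 5 * u 5 * u 5 * u 5 - u 6 * u 7 * u 8 * u 9| ≤ 20 * P := by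
    have := sc hT (k := 20) (by norm_num) (rl_b hM.fl) hfl (e := u 0 * u 1 * u 2 * u 3 - u 0 * u 2 * u 5 * u 5 + u 0 * u 5 * u 7 * u 9 - u 1 * u 3 * u 5 * u 5 - u 1 * u 5 * u 8 * u 9 + u 2 * u 5 * u 6 * u 8 - u 3 * u 5 * u 6 * u 7 + u 5 * u 5 * u 5 * u 5 - u 6 * u 7 * u 8 * u 9) (by
      push_cast; simp only [hu]; ring)
    exact_mod_cast this
  obtain ⟨δ, hδ⟩ : ∃ δ : ℝ, δ = 1 / (40 * Q ^ 4) := ⟨_, rfl⟩
  have hδ0 : 0 < δ := by rw [hδ]; positivity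
  have hδQ : δ * (40 * Q ^ 4) = 1 := by rw [hδ]; field_simp
  have hδ1 : δ ≤ 1 := by nlinarith
  have hd : ∀ i, |u (dg i)| ≤ δ := by
    intro i
    rw [hδ, le_div_iff₀ (by positivity)]
    have := hud i
    linarith
  have d0 : |u 0| ≤ δ := hd 0
  have d2 : |u 2| ≤ δ := hd 1
  have d1 : |u 1| ≤ δ := hd 2
  have d3 : |u 3| ≤ δ := hd 3
  -- fourth powers of the off diagonal entries
  have q4 : ∀ a c d : ℝ, |a| ≤ δ → |c| ≤ δ → |d| ≤ 1 → |d ^ 2 * (a * c - d * d)| ≤ 20 * P →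
      d ^ 4 ≤ δ + 20 * P := by
    intro a c d ha hc hd1 h
    have h1 := (abs_le.1 h).1
    have h2 : |a * c| ≤ δ * δ := by
      rw [abs_mul]; exact mul_le_mul ha hc (abs_nonneg _) hδ0.le
    have h3 : d ^ 2 ≤ 1 := by
      rw [← sq_abs]; nlinarith [abs_nonneg d]
    have h4 : d ^ 2 * (a * c) ≤ δ := by
      have h5 : d ^ 2 * (a * c) ≤ d ^ 2 * (δ * δ) :=
        mul_le_mul_of_nonneg_left ((le_abs_self _).trans h2) (by positivity)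
      have h6 : d ^ 2 * (δ * δ) ≤ 1 * (δ * δ) := mul_le_mul_of_nonneg_right h3 (by positivity)
      nlinarith
    linarith
  have f6 := q4 _ _ _ d0 d1 (hu1 6) e6
  have f7 := q4 _ _ _ d1 d2 (hu1 7) e7
  have f8 := q4 _ _ _ d0 d3 (hu1 8) e8
  have f9 := q4 _ _ _ d2 d3 (hu1 9) e9
  have hprod : |u 6 * u 7 * u 8 * u 9| ≤ δ + 20 * P := by
    have h1 : |u 6 * u 7 * u 8 * u 9| ≤ (u 6 ^ 4 + u 7 ^ 4 + u 8 ^ 4 + u 9 ^ 4) / 4 := by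
      rw [abs_le]
      constructor
      · linarith [sq_nonneg (u 6 * u 7 + u 8 * u 9), sq_nonneg (u 6 ^ 2 - u 7 ^ 2),
          sq_nonneg (u 8 ^ 2 - u 9 ^ 2)]
      · linarith [sq_nonneg (u 6 * u 7 - u 8 * u 9), sq_nonneg (u 6 ^ 2 - u 7 ^ 2),
          sq_nonneg (u 8 ^ 2 - u 9 ^ 2)]
    linarith
  have m3 : ∀ a c d e : ℝ, |a| ≤ δ → |c| ≤ 1 → |d| ≤ 1 → |e| ≤ 1 → |a * c * d * e| ≤ δ := by
    intro a c d e h1 h2 h3 h4
    rw [abs_mul, abs_mul, abs_mul]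
    calc |a| * |c| * |d| * |e| ≤ δ * 1 * 1 * 1 := by gcongr
      _ = δ := by ring
  have f4 : u 4 ^ 4 ≤ 8 * δ + 40 * P := by
    have g1 := abs_le.1 (m3 _ _ _ _ d0 (hu1 1) (hu1 2) (hu1 3))
    have g2 := abs_le.1 (m3 _ _ _ _ d0 (hu1 2) (hu1 4) (hu1 4))
    have g3 := abs_le.1 (m3 _ _ _ _ d0 (hu1 4) (hu1 7) (hu1 9))
    have g4 := abs_le.1 (m3 _ _ _ _ d1 (hu1 3) (hu1 4) (hu1 4))
    have g5 := abs_le.1 (m3 _ _ _ _ d1 (hu1 4) (hu1 8) (hu1 9))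
    have g6 := abs_le.1 (m3 _ _ _ _ d2 (hu1 4) (hu1 6) (hu1 8))
    have g7 := abs_le.1 (m3 _ _ _ _ d3 (hu1 4) (hu1 6) (hu1 7))
    have g8 := abs_le.1 hprod
    have g9 := abs_le.1 ea
    have e : u 4 ^ 4 = u 4 * u 4 * u 4 * u 4 := by ring
    rw [e]
    linarith [g1.1, g1.2, g2.2, g3.2, g4.2, g5.2, g6.2, g7.2, g8.2, g9.2]
  have f5 : u 5 ^ 4 ≤ 8 * δ + 40 * P := by
    have g1 := abs_le.1 (m3 _ _ _ _ d0 (hu1 1) (hu1 2) (hu1 3))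
    have g2 := abs_le.1 (m3 _ _ _ _ d0 (hu1 2) (hu1 5) (hu1 5))
    have g3 := abs_le.1 (m3 _ _ _ _ d0 (hu1 5) (hu1 7) (hu1 9))
    have g4 := abs_le.1 (m3 _ _ _ _ d1 (hu1 3) (hu1 5) (hu1 5))
    have g5 := abs_le.1 (m3 _ _ _ _ d1 (hu1 5) (hu1 8) (hu1 9))
    have g6 := abs_le.1 (m3 _ _ _ _ d2 (hu1 5) (hu1 6) (hu1 8))
    have g7 := abs_le.1 (m3 _ _ _ _ d3 (hu1 5) (hu1 6) (hu1 7))
    have g8 := abs_le.1 hprod
    have g9 := abs_le.1 eb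
    have e : u 5 ^ 4 = u 5 * u 5 * u 5 * u 5 := by ring
    rw [e]
    linarith [g1.1, g1.2, g2.2, g3.1, g3.2, g4.2, g5.2, g6.1, g6.2, g7.2, g8.2, g9.2]
  have hP0 : 0 ≤ P := by
    have h1 := (abs_nonneg _).trans e6
    linarith
  -- all the entries are smaller than 1 / Q
  have hQP : Q ^ 4 * (8 * δ + 40 * P) ≤ 7 / 10 := by linarith
  have hall : ∀ j, Q ^ 4 * u j ^ 4 ≤ 7 / 10 := by
    have hs : ∀ j, u j ^ 4 ≤ 8 * δ + 40 * P → Q ^ 4 * u j ^ 4 ≤ 7 / 10 := fun j h =>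
      (mul_le_mul_of_nonneg_left h (by positivity)).trans hQP
    have hs' : ∀ j, |u j| ≤ δ → Q ^ 4 * u j ^ 4 ≤ 7 / 10 := by
      intro j h
      apply hs
      have h1 : u j ^ 4 = |u j| ^ 4 := by
        rw [← abs_pow, abs_of_nonneg (by positivity)]
      have h2 : |u j| ^ 4 ≤ δ ^ 4 := pow_le_pow_left₀ (abs_nonneg _) h 4
      have h3 : δ ^ 4 ≤ δ := by
        calc δ ^ 4 = δ * δ ^ 3 := by ring
          _ ≤ δ * 1 := mul_le_mul_of_nonneg_left (pow_le_one₀ hδ0.le hδ1) hδ0.le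
          _ = δ := mul_one δ
      rw [h1]
      linarith
    intro j
    fin_cases j
    · exact hs' 0 d0
    · exact hs' 1 d1
    · exact hs' 2 d2
    · exact hs' 3 d3
    · exact hs 4 f4
    · exact hs 5 f5
    · exact hs 6 (by linarith)
    · exact hs 7 (by linarith)
    · exact hs 8 (by linarith)
    · exact hs 9 (by linarith)
  obtain ⟨j, hj⟩ := hj
  rw [hu, abs_mul, abs_of_pos hT] at hj
  have h1 : 1 ≤ Q * |u j| := by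
    have h2 : T * 1 ≤ T * (Q * |u j|) := by linarith
    exact le_of_mul_le_mul_left h2 hT
  have h3 : 1 ≤ (Q * |u j|) ^ 4 := one_le_pow₀ h1
  have h4 : (Q * |u j|) ^ 4 = Q ^ 4 * u j ^ 4 := by
    rw [mul_pow, ← abs_pow, abs_of_nonneg (by positivity)]
  have := hall j
  linarith

end Pool.Agent.PP5T
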