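import Pool.Agent.PP5T.Kpc

/-!
# PP5 (D'), (N5), (N5'): points whose matrix is close to rank one, in residue classes
-/

set_option autoImplicit false

namespace Pool.Agent.PP5T

open Pool.Agent.PP5L Pool.Agent.PP5K

/-- a symmetric `4 x 4` array of linear forms that determines `x` -/
structure Mf (M : (Fin 10 → ℤ) → Fin 4 → Fin 4 → ℤ) : Prop where
  sym : ∀ x i j, M x i j = M x j i
  up : ∀ x (Y : ℝ), (∀ j, |(x j : ℝ)| ≤ Y) → ∀ i j, |(M x i j : ℝ)| ≤ 2 * Y
  dist : ∀ x y (D : ℝ), (∀ i j, |(M x i j : ℝ) - M y i j| ≤ D) → ∀ l, |(x l : ℝ) - y l| ≤ D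

/-- the other entries are determined up to `8 K h` -/
theorem Mf.close {M : (Fin 10 → ℤ) → Fin 4 → Fin 4 → ℤ} (hM : Mf M) {Y K W h : ℝ} (hY : 1 ≤ Y)
    (hK : 1 ≤ K) (hh : W * Y ≤ h) (h0 : 0 < h) {i : Fin 4} {x y : Fin 10 → ℤ}
    (hx : ∀ j, |(x j : ℝ)| ≤ Y) (hy : ∀ j, |(y j : ℝ)| ≤ Y) (hxi : Y ≤ K * |(M x i i : ℝ)|)
    (hxm : ∀ j k, |(M x i i : ℝ) * M x j k - M x i j * M x i k| ≤ W * Y ^ 2)
    (hym : ∀ j k, |(M y i i : ℝ) * M y j k - M y i j * M y i k| ≤ W * Y ^ 2)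
    (hc : ∀ j, |(M x i j : ℝ) - M y i j| ≤ h) (l : Fin 10) : |(x l : ℝ) - y l| ≤ 8 * K * h := by
  have hY0 : 0 < Y := by linarith
  apply hM.dist
  intro j k
  have m1 := hM.up x Y hx
  have m2 := hM.up y Y hy
  have e : (M x i i : ℝ) * ((M x j k : ℝ) - M y j k) =
      ((M x i i : ℝ) * M x j k - M x i j * M x i k) - ((M y i i : ℝ) * M y j k - M y i j * M y i k) +
      (M x i j * ((M x i k : ℝ) - M y i k) + ((M x i j : ℝ) - M y i j) * M y i k) -
      ((M x i i : ℝ) - M y i i) * M y j k := by ring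
  have b1 : |(M x i j : ℝ) * ((M x i k : ℝ) - M y i k)| ≤ 2 * Y * h := by
    rw [abs_mul]; exact mul_le_mul (m1 i j) (hc k) (abs_nonneg _) (by linarith)
  have b2 : |((M x i j : ℝ) - M y i j) * M y i k| ≤ h * (2 * Y) := by
    rw [abs_mul]; exact mul_le_mul (hc j) (m2 i k) (abs_nonneg _) h0.le
  have b3 : |((M x i i : ℝ) - M y i i) * M y j k| ≤ h * (2 * Y) := by
    rw [abs_mul]; exact mul_le_mul (hc i) (m2 j k) (abs_nonneg _) h0.le
  have hWY : W * Y ^ 2 ≤ h * Y := by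
    calc W * Y ^ 2 = (W * Y) * Y := by ring
      _ ≤ h * Y := mul_le_mul_of_nonneg_right hh hY0.le
  have b4 : |(M x i i : ℝ) * ((M x j k : ℝ) - M y j k)| ≤ 8 * (Y * h) := by
    rw [e]
    have c1 := abs_le.1 (hxm j k)
    have c2 := abs_le.1 (hym j k)
    have c3 := abs_le.1 b1
    have c4 := abs_le.1 b2
    have c5 := abs_le.1 b3
    rw [abs_le]
    constructor <;> nlinarith [c1.1, c1.2, c2.1, c2.2, c3.1, c3.2, c4.1, c4.2, c5.1, c5.2]
  rw [abs_mul] at b4
  have b5 : Y * |(M x j k : ℝ) - M y j k| ≤ Y * (8 * K * h) := by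
    calc Y * |(M x j k : ℝ) - M y j k| ≤ K * |(M x i i : ℝ)| * |(M x j k : ℝ) - M y j k| :=
          mul_le_mul_of_nonneg_right hxi (abs_nonneg _)
      _ = K * (|(M x i i : ℝ)| * |(M x j k : ℝ) - M y j k|) := by ring
      _ ≤ K * (8 * (Y * h)) := mul_le_mul_of_nonneg_left b4 (by linarith)
      _ = Y * (8 * K * h) := by ring
  exact le_of_mul_le_mul_left b5 hY0

/-- the count -/
theorem gen_count {M : (Fin 10 → ℤ) → Fin 4 → Fin 4 → ℤ} (hM : Mf M) {ε : ℝ} (hε : 0 < ε) :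
    ∃ C : ℝ, 1 ≤ C ∧ ∀ Y K W : ℝ, 1 ≤ Y → 1 ≤ K → 0 ≤ W → W ≤ 1 → ∀ n : ℕ, 0 < n → (n : ℝ) ≤ Y →
    ∀ (Nc : ℝ) (i : Fin 4) (S : Finset (Fin 10 → ℤ)),
    (∀ x ∈ S, FF x = 0 ∧ (∀ j, |(x j : ℝ)| ≤ Y) ∧ Y ≤ K * |(M x i i : ℝ)| ∧
      ∀ j k, |(M x i i : ℝ) * M x j k - M x i j * M x i k| ≤ W * Y ^ 2) →
    ((S.image fun x j => x j % (n : ℤ)).card : ℝ) ≤ Nc →
    (S.card : ℝ) ≤ C * K ^ 8 * Y ^ (4 + ε) * (W * Y + n) ^ 4 * Nc / (n : ℝ) ^ 8 := by
  classical
  obtain ⟨C, hC, hbx⟩ := bxc hε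
  refine ⟨C * 257 ^ 8 * 12 ^ 4, by nlinarith, fun Y K W hY hK hW hW1 n hn hnY Nc i S hS hNc => ?_⟩
  have hY0 : 0 < Y := by linarith
  have hn0 : (0 : ℝ) < n := by exact_mod_cast hn
  have hn1 : (1 : ℝ) ≤ n := by exact_mod_cast hn
  obtain ⟨h, hh⟩ : ∃ h : ℝ, h = W * Y + n := ⟨_, rfl⟩
  have hWY0 : 0 ≤ W * Y := by positivity
  have hnh : (n : ℝ) ≤ h := by rw [hh]; linarith
  have hh0 : 0 < h := by linarith
  have hh2 : h ≤ 2 * Y := by rw [hh]; nlinarith
  have hWh : W * Y ≤ h := by rw [hh]; linarith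
  have h2Y : 1 ≤ 2 * Y / h := (one_le_div hh0).2 hh2
  have hNc0 : 0 ≤ Nc := le_trans (by positivity) hNc
  set Tj : Fin 4 → Finset ℤ := fun j => S.image fun x => ⌊(M x i j : ℝ) / h⌋ with hTj
  have hTc : ∀ j, ((Tj j).card : ℝ) ≤ 12 * (Y / h) := by
    intro j
    have h1 := card_box (Y := 4 * Y / h) (by
      have : 4 * Y / h = 2 * (2 * Y / h) := by ring
      rw [this]; linarith) (Tj j) (by
      intro z hz
      obtain ⟨x, hx, rfl⟩ := Finset.mem_image.1 hz
      have m1 := hM.up x Y (hS x hx).2.1 i j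
      have m2 : |(M x i j : ℝ) / h| ≤ 2 * Y / h := by
        rw [abs_div, abs_of_pos hh0]
        gcongr
      have f1 := Int.floor_le ((M x i j : ℝ) / h)
      have f2 := Int.lt_floor_add_one ((M x i j : ℝ) / h)
      have m3 := abs_le.1 m2
      have e4 : 4 * Y / h = 2 * Y / h + 2 * Y / h := by ring
      rw [e4, abs_le]
      constructor <;> linarith)
    calc ((Tj j).card : ℝ) ≤ 3 * (4 * Y / h) := h1
      _ = 12 * (Y / h) := by ring
  have h1 := card_le_fib S
    (fun x => ((fun j : Fin 4 => ⌊(M x i j : ℝ) / h⌋), (fun j => x j % (n : ℤ))))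
    ((Fintype.piFinset Tj) ×ˢ (S.image fun x j => x j % (n : ℤ)))
    (fun x hx => Finset.mem_product.2 ⟨Fintype.mem_piFinset.2 fun j =>
      Finset.mem_image_of_mem (fun x : Fin 10 → ℤ => ⌊(M x i j : ℝ) / h⌋) hx,
      Finset.mem_image_of_mem _ hx⟩)
    (C * Y ^ ε * (257 * K * (h / n)) ^ 8) (by
      intro t _
      rcases (S.filter fun x => ((fun j : Fin 4 => ⌊(M x i j : ℝ) / h⌋),
        (fun j => x j % (n : ℤ))) = t).eq_empty_or_nonempty with h0 | ⟨y, hy⟩
      · rw [h0]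
        simp only [Finset.card_empty, Nat.cast_zero]
        positivity
      have hy1 := Finset.mem_filter.1 hy
      obtain ⟨yF, yb, yi, ym⟩ := hS y hy1.1
      have hq : 1 ≤ 257 * K * (h / n) := by
        have : 1 ≤ h / n := (one_le_div hn0).2 hnh
        nlinarith
      refine hbx Y (257 * K * (h / n)) hY hq
        (fun l => (S.filter fun x => ((fun j : Fin 4 => ⌊(M x i j : ℝ) / h⌋),
        (fun j => x j % (n : ℤ))) = t).image fun x => x l) ?_ _ ?_
      · intro l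
        have h3 := mult_card (Z := 8 * K * h) (by positivity) n hn
          (((S.filter fun x => ((fun j : Fin 4 => ⌊(M x i j : ℝ) / h⌋),
            (fun j => x j % (n : ℤ))) = t).image fun x => x l).image fun z => z - y l) (by
          intro w hw
          obtain ⟨z, hz, rfl⟩ := Finset.mem_image.1 hw
          obtain ⟨x, hx, rfl⟩ := Finset.mem_image.1 hz
          have hx1 := Finset.mem_filter.1 hx
          obtain ⟨xF, xb, xi, xm⟩ := hS x hx1.1
          have hxy := hx1.2.trans hy1.2.symm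
          simp only [Prod.mk.injEq] at hxy
          constructor
          · apply Dvd.dvd.mul_left
            exact Int.ModEq.dvd (congrFun hxy.2 l).symm
          · push_cast
            refine hM.close hY hK hWh hh0 xb yb xi xm ym ?_ l
            intro j
            have e1 := congrFun hxy.1 j
            have f1 := Int.floor_le ((M x i j : ℝ) / h)
            have f2 := Int.lt_floor_add_one ((M x i j : ℝ) / h)
            have f3 := Int.floor_le ((M y i j : ℝ) / h)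
            have f4 := Int.lt_floor_add_one ((M y i j : ℝ) / h)
            rw [e1] at f1 f2
            have g1 : |(M x i j : ℝ) / h - (M y i j : ℝ) / h| ≤ 1 := by
              rw [abs_le]; constructor <;> linarith
            rw [← sub_div, abs_div, abs_of_pos hh0, div_le_one hh0] at g1
            exact g1)
        rw [Finset.card_image_of_injective _ (sub_left_injective)] at h3
        have e2 : 32 * (8 * K * h) / n = 256 * K * (h / n) := by ring
        rw [e2] at h3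
        have : 1 ≤ K * (h / n) := by
          have h4 : 1 ≤ h / n := (one_le_div hn0).2 hnh
          nlinarith
        linarith
      · intro x hx
        have hx1 := Finset.mem_filter.1 hx
        obtain ⟨xF, xb, _⟩ := hS x hx1.1
        exact ⟨xF, xb, fun l => Finset.mem_image_of_mem (fun x : Fin 10 → ℤ => x l) hx⟩)
  have h2 : (((Fintype.piFinset Tj) ×ˢ (S.image fun x j => x j % (n : ℤ))).card : ℝ) ≤
      (12 * (Y / h)) ^ 4 * Nc := by
    rw [Finset.card_product, Fintype.card_piFinset]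
    push_cast
    refine mul_le_mul ?_ hNc (by positivity) (by positivity)
    calc ∏ j : Fin 4, ((Tj j).card : ℝ) ≤ ∏ _j : Fin 4, 12 * (Y / h) :=
          Finset.prod_le_prod (fun _ _ => by positivity) fun j _ => hTc j
      _ = (12 * (Y / h)) ^ 4 := by simp
  have e5 : Y ^ (4 + ε) = Y ^ ε * Y ^ 4 := by
    rw [← Real.rpow_natCast Y 4, ← Real.rpow_add hY0]
    congr 1
    push_cast
    ring
  calc (S.card : ℝ) ≤ C * Y ^ ε * (257 * K * (h / n)) ^ 8 *
        (((Fintype.piFinset Tj) ×ˢ (S.image fun x j => x j % (n : ℤ))).card : ℝ) := h1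
    _ ≤ C * Y ^ ε * (257 * K * (h / n)) ^ 8 * ((12 * (Y / h)) ^ 4 * Nc) :=
        mul_le_mul_of_nonneg_left h2 (by positivity)
    _ = C * 257 ^ 8 * 12 ^ 4 * K ^ 8 * (Y ^ ε * Y ^ 4) * h ^ 4 * Nc / (n : ℝ) ^ 8 := by
        field_simp
    _ = _ := by rw [e5, hh]

end Pool.Agent.PP5T
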