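import Pool.Agent.PP5T.Ssa

/-!
# PP5 (D'), (N2'): few `x` have `2 x 2` minors of `S(x)` all divisible by some `n ≥ N0`
-/

set_option autoImplicit false

namespace Pool.Agent.PP5T

open Pool.Agent.PP5L Pool.Agent.PP5K

/-- integers in an interval and a class -/
private theorem cls {Y : ℝ} {n : ℕ} (hn : 0 < n) (hY : (n : ℝ) ≤ Y) (r : ℤ) (T : Finset ℤ)
    (hT : ∀ z ∈ T, z % (n : ℤ) = r ∧ |(z : ℝ)| ≤ Y) : (T.card : ℝ) ≤ 65 * (Y / n) := by
  classical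
  have hn0 : (0 : ℝ) < n := by exact_mod_cast hn
  have h1 : 1 ≤ Y / n := (one_le_div hn0).2 hY
  rcases T.eq_empty_or_nonempty with h0 | ⟨z0, hz0⟩
  · rw [h0]; simp; positivity
  have h2 := mult_card (Z := 2 * Y) (by linarith) n hn (T.image (fun z => z - z0)) (by
    intro w hw
    obtain ⟨z, hz, rfl⟩ := Finset.mem_image.1 hw
    have e1 := (hT z hz).1
    have e2 := (hT z0 hz0).1
    constructor
    · exact Dvd.dvd.mul_left (Int.ModEq.dvd (e2.trans e1.symm : z0 ≡ z [ZMOD (n : ℤ)])) _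
    · push_cast
      have b1 := abs_le.1 (hT z hz).2
      have b2 := abs_le.1 (hT z0 hz0).2
      exact abs_le.2 ⟨by linarith, by linarith⟩)
  rw [Finset.card_image_of_injective _ (sub_left_injective)] at h2
  have e : 32 * (2 * Y) / n = 64 * (Y / n) := by ring
  rw [e] at h2
  linarith

private theorem tel (a : ℕ) (ha : 0 < a) : ∀ b : ℕ, a ≤ b →
    ∑ n ∈ Finset.Ico a b, (1 : ℝ) / (n : ℝ) ^ 4 ≤ 3 * (1 / (a : ℝ) ^ 3 - 1 / (b : ℝ) ^ 3) := by
  intro b hb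
  induction b, hb using Nat.le_induction with
  | base => simp
  | succ m hm ih =>
    rw [Finset.sum_Ico_succ_top hm]
    have hm0 : (1 : ℝ) ≤ m := by exact_mod_cast (by omega : 1 ≤ m)
    have key : (1 : ℝ) / (m : ℝ) ^ 4 ≤ 3 * (1 / (m : ℝ) ^ 3 - 1 / ((m : ℝ) + 1) ^ 3) := by
      have hp : (0 : ℝ) < m := by linarith
      rw [div_sub_div _ _ (by positivity) (by positivity), mul_div_assoc', div_le_div_iff₀ (by positivity) (by positivity)]
      have e : 3 * (1 * ((m : ℝ) + 1) ^ 3 - (m : ℝ) ^ 3 * 1) * (m : ℝ) ^ 4 -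
        1 * ((m : ℝ) ^ 3 * ((m : ℝ) + 1) ^ 3) = (m : ℝ) ^ 3 * (8 * (m : ℝ) ^ 3 + 6 * (m : ℝ) ^ 2 - 1) := by ring
      have h3 : 0 ≤ (m : ℝ) ^ 3 * (8 * (m : ℝ) ^ 3 + 6 * (m : ℝ) ^ 2 - 1) := by
        apply mul_nonneg (by positivity)
        nlinarith [pow_pos hp 3, pow_pos hp 2]
      linarith
    push_cast
    linarith

/-- one modulus -/
theorem sk_card {ε : ℝ} (hε : 0 < ε) : ∃ C : ℝ, 1 ≤ C ∧ ∀ Y : ℝ, 1 ≤ Y → ∀ n : ℕ, 0 < n → (n : ℝ) ≤ Y →
    ∀ S : Finset (Fin 10 → ℤ), (∀ x ∈ S, (∀ j, |(x j : ℝ)| ≤ Y) ∧ FF x = 0 ∧ SK n x) →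
    (S.card : ℝ) ≤ C * Y ^ (8 + ε) * (1 / (n : ℝ) ^ 4) := by
  classical
  obtain ⟨C, hC, h⟩ := bxc (half_pos hε)
  obtain ⟨c, hc, hdiv⟩ := Pool.Agent.FTA.divisor_bound (ε := ε / 44) (by positivity)
  refine ⟨max 1 (c ^ 22 * (C * 65 ^ 8)), le_max_left _ _, fun Y hY n hn hnY S hS => ?_⟩
  have hn0 : (0 : ℝ) < n := by exact_mod_cast hn
  have hnz : (0 : ℤ) < n := by exact_mod_cast hn
  have hY0 : 0 < Y := by linarith
  have hq : 1 ≤ 65 * (Y / n) := by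
    have := (one_le_div hn0).2 hnY
    linarith
  have h1 := card_le_fib S (fun x => fun j => x j % (n : ℤ)) (S.image fun x => fun j => x j % (n : ℤ))
    (fun x hx => Finset.mem_image_of_mem _ hx) (C * Y ^ (ε / 2) * (65 * (Y / n)) ^ 8) (by
      intro t _
      refine h Y (65 * (Y / n)) hY hq
        (fun j => (S.filter fun x => (fun j => x j % (n : ℤ)) = t).image fun x => x j) ?_ _ ?_
      · intro j
        refine cls hn hnY (t j) _ ?_
        intro z hz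
        obtain ⟨x, hx, rfl⟩ := Finset.mem_image.1 hz
        have hx1 := Finset.mem_filter.1 hx
        exact ⟨congrFun hx1.2 j, (hS x hx1.1).1 j⟩
      · intro x hx
        have hx1 := Finset.mem_filter.1 hx
        obtain ⟨hb, hF, _⟩ := hS x hx1.1
        exact ⟨hF, hb, fun j => Finset.mem_image_of_mem (fun x : Fin 10 → ℤ => x j) hx⟩)
  have h2 := scl_nat n hn (S.image fun x => fun j => x j % (n : ℤ)) (by
    intro z hz
    obtain ⟨x, hx, rfl⟩ := Finset.mem_image.1 hz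
    refine ⟨fun j => ⟨Int.emod_nonneg _ hnz.ne', Int.emod_lt_of_pos _ hnz⟩, ?_⟩
    exact SK_congr (x := x) (fun j => (Int.mod_modEq _ _).symm) (hS x hx).2.2)
  have h3 := hdiv n hn.ne'
  have h4 : ((n.divisors.card : ℝ)) ^ 22 ≤ c ^ 22 * Y ^ (ε / 2) := by
    calc ((n.divisors.card : ℝ)) ^ 22 ≤ (c * (n : ℝ) ^ (ε / 44)) ^ 22 :=
          pow_le_pow_left₀ (by positivity) h3 22
      _ = c ^ 22 * (n : ℝ) ^ (ε / 2) := by
          rw [mul_pow, ← Real.rpow_natCast ((n : ℝ) ^ (ε / 44)) 22, ← Real.rpow_mul hn0.le]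
          congr 2
          push_cast
          ring
      _ ≤ c ^ 22 * Y ^ (ε / 2) :=
          mul_le_mul_of_nonneg_left (Real.rpow_le_rpow hn0.le hnY (by positivity)) (by positivity)
  have h5 : ((S.image fun x => fun j => x j % (n : ℤ)).card : ℝ) ≤ c ^ 22 * Y ^ (ε / 2) * (n : ℝ) ^ 4 := by
    have h6 : ((S.image fun x => fun j => x j % (n : ℤ)).card : ℝ) ≤
        (n.divisors.card : ℝ) ^ 22 * (n : ℝ) ^ 4 := by exact_mod_cast h2
    exact h6.trans (mul_le_mul_of_nonneg_right h4 (by positivity))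
  have h6 : Y ^ (ε / 2) * Y ^ (ε / 2) * Y ^ 8 = Y ^ (8 + ε) := by
    rw [← Real.rpow_natCast Y 8, ← Real.rpow_add hY0, ← Real.rpow_add hY0]
    congr 1
    push_cast
    ring
  calc (S.card : ℝ) ≤ C * Y ^ (ε / 2) * (65 * (Y / n)) ^ 8 *
        ((S.image fun x => fun j => x j % (n : ℤ)).card : ℝ) := h1
    _ ≤ C * Y ^ (ε / 2) * (65 * (Y / n)) ^ 8 * (c ^ 22 * Y ^ (ε / 2) * (n : ℝ) ^ 4) :=
        mul_le_mul_of_nonneg_left h5 (by positivity)
    _ = c ^ 22 * (C * 65 ^ 8) * (Y ^ (ε / 2) * Y ^ (ε / 2) * Y ^ 8) * (1 / (n : ℝ) ^ 4) := by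
        field_simp
    _ = c ^ 22 * (C * 65 ^ 8) * Y ^ (8 + ε) * (1 / (n : ℝ) ^ 4) := by rw [h6]
    _ ≤ _ := by
        apply mul_le_mul_of_nonneg_right _ (by positivity)
        exact mul_le_mul_of_nonneg_right (le_max_right _ _) (by positivity)


/-- sum over the moduli `N1 ≤ n ≤ Y` -/
theorem sk_sum {ε : ℝ} (hε : 0 < ε) : ∃ C : ℝ, 1 ≤ C ∧ ∀ Y : ℝ, 1 ≤ Y → ∀ N1 : ℝ, 1 ≤ N1 →
    ∀ S : Finset (Fin 10 → ℤ), (∀ x ∈ S, (∀ j, |(x j : ℝ)| ≤ Y) ∧ FF x = 0 ∧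
      ∃ n : ℕ, N1 ≤ n ∧ (n : ℝ) ≤ Y ∧ SK n x) → (S.card : ℝ) ≤ C * Y ^ (8 + ε) * (1 / N1 ^ 3) := by
  classical
  obtain ⟨C, hC, h⟩ := sk_card hε
  refine ⟨3 * C, by linarith, fun Y hY N0 hN0 S hS => ?_⟩
  have hY0 : 0 < Y := by linarith
  have hN00 : 0 < N0 := by linarith
  set M := C * Y ^ (8 + ε) with hM
  have hM0 : 0 ≤ M := by positivity
  have hsub : S ⊆ (Finset.Ico ⌈N0⌉₊ (max ⌈N0⌉₊ (⌊Y⌋₊ + 1))).biUnion
      (fun n => S.filter fun x => (n : ℝ) ≤ Y ∧ SK n x) := by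
    intro x hx
    obtain ⟨_, _, n, hn1, hn2, hn3⟩ := hS x hx
    refine Finset.mem_biUnion.2 ⟨n, Finset.mem_Ico.2 ⟨Nat.ceil_le.2 hn1, ?_⟩,
      Finset.mem_filter.2 ⟨hx, hn2, hn3⟩⟩
    have := Nat.le_floor hn2
    exact lt_of_lt_of_le (by omega) (le_max_right _ _)
  have hc0 : 0 < ⌈N0⌉₊ := Nat.ceil_pos.2 hN00
  have h1 : (S.card : ℝ) ≤ ∑ n ∈ Finset.Ico ⌈N0⌉₊ (max ⌈N0⌉₊ (⌊Y⌋₊ + 1)),
      ((S.filter fun x => (n : ℝ) ≤ Y ∧ SK n x).card : ℝ) := by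
    exact_mod_cast (Finset.card_le_card hsub).trans Finset.card_biUnion_le
  have h2 : ∀ n ∈ Finset.Ico ⌈N0⌉₊ (max ⌈N0⌉₊ (⌊Y⌋₊ + 1)),
      ((S.filter fun x => (n : ℝ) ≤ Y ∧ SK n x).card : ℝ) ≤ M * (1 / (n : ℝ) ^ 4) := by
    intro n hn
    have hn0 : 0 < n := lt_of_lt_of_le hc0 (Finset.mem_Ico.1 hn).1
    by_cases hnY : (n : ℝ) ≤ Y
    · refine h Y hY n hn0 hnY _ ?_
      intro x hx
      have hx1 := Finset.mem_filter.1 hx
      exact ⟨(hS x hx1.1).1, (hS x hx1.1).2.1, hx1.2.2⟩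
    · rw [Finset.filter_false_of_mem (fun x _ hx => hnY hx.1)]
      simp
      positivity
  have h3 := h1.trans (Finset.sum_le_sum h2)
  rw [← Finset.mul_sum] at h3
  have h4 := tel ⌈N0⌉₊ hc0 (max ⌈N0⌉₊ (⌊Y⌋₊ + 1)) (le_max_left _ _)
  have h5 : (1 : ℝ) / (⌈N0⌉₊ : ℝ) ^ 3 ≤ 1 / N0 ^ 3 :=
    one_div_le_one_div_of_le (by positivity) (pow_le_pow_left₀ hN00.le (Nat.le_ceil N0) 3)
  have h6 : (0 : ℝ) ≤ 1 / ((max ⌈N0⌉₊ (⌊Y⌋₊ + 1) : ℕ) : ℝ) ^ 3 := by positivity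
  calc (S.card : ℝ) ≤ M * ∑ n ∈ Finset.Ico ⌈N0⌉₊ (max ⌈N0⌉₊ (⌊Y⌋₊ + 1)), 1 / (n : ℝ) ^ 4 := h3
    _ ≤ M * (3 * (1 / N0 ^ 3)) := mul_le_mul_of_nonneg_left (by linarith) hM0
    _ = _ := by rw [hM]; ring

/-- odd primes -/
theorem unit_odd {x : Fin 10 → ℤ} (hp : ∀ p : ℕ, p.Prime → ∃ j, ¬ (p : ℤ) ∣ x j) {p : ℕ} (pp : p.Prime)
    (h2 : p ≠ 2) (hm : ∀ i j k l, (p : ℤ) ∣ SS x i k * SS x j l - SS x i l * SS x j k) :
    ∃ i, ¬ (p : ℤ) ∣ x (dg i) := by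
  by_contra hc
  push Not at hc
  have hpr : Prime (p : ℤ) := Nat.prime_iff_prime_int.1 pp
  have h0 : (p : ℤ) ∣ x 0 := hc 0
  have h2' : (p : ℤ) ∣ x 2 := hc 1
  have h1 : (p : ℤ) ∣ x 1 := hc 2
  have h3 : (p : ℤ) ∣ x 3 := hc 3
  have key : ∀ i j, (p : ℤ) ∣ SS x i j * SS x j i := by
    intro i j
    have h4 : (p : ℤ) ∣ SS x i i * SS x j j := by
      rw [SS_diag]
      exact Dvd.dvd.mul_right (Dvd.dvd.mul_left (Dvd.dvd.mul_left (hc i) _) _) _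
    have h5 := dvd_sub h4 (hm i j i j)
    have e : SS x i i * SS x j j - (SS x i i * SS x j j - SS x i j * SS x j i) = SS x i j * SS x j i := by ring
    rwa [e] at h5
  have k6 := key 0 2
  have k8 := key 0 3
  have k7 := key 1 2
  have k9 := key 1 3
  have ka := key 0 1
  have kb := key 2 3
  simp only [SS, Matrix.of_apply, Matrix.cons_val', Fin.isValue, Matrix.cons_val_zero, Matrix.cons_val_one,
    Matrix.cons_val] at k6 k7 k8 k9 ka kb
  have sq : ∀ {a b : ℤ}, (p : ℤ) ∣ a * b → (a = b) → (p : ℤ) ∣ a := by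
    intro a b hab e
    rw [← e] at hab
    rcases hpr.dvd_or_dvd hab with h | h <;> exact h
  have h6 := sq k6 rfl
  have h7 := (dvd_neg).1 (sq k7 rfl)
  have h8 := (dvd_neg).1 (sq k8 rfl)
  have h9 := sq k9 rfl
  have ha := (dvd_neg).1 (sq ka rfl)
  have hb := sq kb rfl
  have two : ∀ {a : ℤ}, (p : ℤ) ∣ 2 * a → (p : ℤ) ∣ a := by
    intro a h
    rcases hpr.dvd_or_dvd h with h' | h'
    · exfalso
      have h3 : p ∣ 2 := by exact_mod_cast h'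
      exact h2 ((Nat.prime_dvd_prime_iff_eq pp Nat.prime_two).1 h3)
    · exact h'
  have h4 : (p : ℤ) ∣ x 4 := two (by
    have := dvd_add ha hb
    have e : x 4 + x 5 + (x 4 - x 5) = 2 * x 4 := by ring
    rwa [e] at this)
  have h5 : (p : ℤ) ∣ x 5 := two (by
    have := dvd_sub ha hb
    have e : x 4 + x 5 - (x 4 - x 5) = 2 * x 5 := by ring
    rwa [e] at this)
  obtain ⟨j, hj⟩ := hp p pp
  apply hj
  fin_cases j
  · exact h0
  · exact h1
  · exact h2'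
  · exact h3
  · exact h4
  · exact h5
  · exact h6
  · exact h7
  · exact h8
  · exact h9

/-- the prime two -/
theorem unit_two {x : Fin 10 → ℤ} (hp : ∀ p : ℕ, p.Prime → ∃ j, ¬ (p : ℤ) ∣ x j)
    (hm : ∀ i j k l, (8 : ℤ) ∣ SS x i k * SS x j l - SS x i l * SS x j k) :
    ∃ i, ¬ ((2 : ℕ) : ℤ) ∣ x (dg i) := by
  by_contra hc
  push Not at hc
  have h0 : (2 : ℤ) ∣ x 0 := hc 0
  have h2' : (2 : ℤ) ∣ x 2 := hc 1
  have h1 : (2 : ℤ) ∣ x 1 := hc 2
  have h3 : (2 : ℤ) ∣ x 3 := hc 3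
  have key : ∀ i j, (8 : ℤ) ∣ SS x i j * SS x j i := by
    intro i j
    have h4 : (8 : ℤ) ∣ SS x i i * SS x j j := by
      rw [SS_diag, SS_diag]
      obtain ⟨a, ha⟩ := hc i
      obtain ⟨b, hb⟩ := hc j
      rw [ha, hb]
      push_cast
      exact ⟨sgd i * sgd j * (a * b) * 2, by ring⟩
    have h5 := dvd_sub h4 (hm i j i j)
    have e : SS x i i * SS x j j - (SS x i i * SS x j j - SS x i j * SS x j i) = SS x i j * SS x j i := by ring
    rwa [e] at h5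
  have k6 := key 0 2
  have k8 := key 0 3
  have k7 := key 1 2
  have k9 := key 1 3
  have ka := key 0 1
  have kb := key 2 3
  simp only [SS, Matrix.of_apply, Matrix.cons_val', Fin.isValue, Matrix.cons_val_zero, Matrix.cons_val_one,
    Matrix.cons_val] at k6 k7 k8 k9 ka kb
  have sq : ∀ {a : ℤ}, (8 : ℤ) ∣ a * a → (4 : ℤ) ∣ a := by
    intro a h
    have h2 : (2 : ℤ) ∣ a := by
      have h3 : (2 : ℤ) ∣ a * a := dvd_trans (by norm_num) h
      rcases Int.prime_two.dvd_or_dvd h3 with h4 | h4 <;> exact h4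
    obtain ⟨b, rfl⟩ := h2
    obtain ⟨c, hc⟩ := h
    have h3 : (2 : ℤ) ∣ b * b := ⟨c, by linarith⟩
    have h4 : (2 : ℤ) ∣ b := by
      rcases Int.prime_two.dvd_or_dvd h3 with h4 | h4 <;> exact h4
    obtain ⟨d, rfl⟩ := h4
    exact ⟨d, by ring⟩
  have h6 := sq k6
  have h7 := (dvd_neg).1 (sq k7)
  have h8 := (dvd_neg).1 (sq k8)
  have h9 := sq k9
  have ha := (dvd_neg).1 (sq ka)
  have hb := sq kb
  obtain ⟨j, hj⟩ := hp 2 Nat.prime_two
  apply hj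
  push_cast
  fin_cases j
  · exact h0
  · exact h1
  · exact h2'
  · exact h3
  · show (2 : ℤ) ∣ x 4
    omega
  · show (2 : ℤ) ∣ x 5
    omega
  · exact dvd_trans (by norm_num) h6
  · exact dvd_trans (by norm_num) h7
  · exact dvd_trans (by norm_num) h8
  · exact dvd_trans (by norm_num) h9

/-- the modulus with units on the diagonal -/
theorem SK_of {x : Fin 10 → ℤ} (hp : ∀ p : ℕ, p.Prime → ∃ j, ¬ (p : ℤ) ∣ x j) {n : ℕ} (hn : n ≠ 0)
    (hm : ∀ i j k l, (n : ℤ) ∣ SS x i k * SS x j l - SS x i l * SS x j k) :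
    ∃ m : ℕ, m ∣ n ∧ n ≤ 4 * m ∧ SK m x := by
  have hsym : ∀ i j, SS x i j = SS x j i := by
    intro i j
    fin_cases i <;> fin_cases j <;> simp [SS]
  have hmin : ∀ i j k, (n : ℤ) ∣ SS x i i * SS x j k - SS x i j * SS x i k := by
    intro i j k
    have := hm i j i k
    rwa [hsym j i, mul_comm (SS x i k)] at this
  by_cases h8 : 8 ∣ n
  · refine ⟨n, dvd_rfl, by omega, ?_, hmin⟩
    intro p pp hpn
    by_cases h2 : p = 2
    · subst h2
      exact unit_two hp (fun i j k l => dvd_trans (by exact_mod_cast h8) (hm i j k l))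
    · exact unit_odd hp pp h2 (fun i j k l => hpn.trans (hm i j k l))
  · obtain ⟨k, m, hodd, hnm⟩ := Nat.exists_eq_two_pow_mul_odd hn
    have hk : k ≤ 2 := by
      by_contra hk
      push Not at hk
      apply h8
      rw [hnm]
      exact Dvd.dvd.mul_right (by
        have : 2 ^ 3 ∣ 2 ^ k := pow_dvd_pow 2 hk
        simpa using this) _
    have hmn : m ∣ n := ⟨2 ^ k, by rw [hnm]; ring⟩
    have hmn' : (m : ℤ) ∣ (n : ℤ) := by exact_mod_cast hmn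
    refine ⟨m, hmn, ?_, ?_, fun i j k => hmn'.trans (hmin i j k)⟩
    · rw [hnm]
      refine Nat.mul_le_mul_right _ ?_
      calc 2 ^ k ≤ 2 ^ 2 := Nat.pow_le_pow_right (by norm_num) hk
        _ = 4 := by norm_num
    · intro p pp hpm
      have h2 : p ≠ 2 := by
        rintro rfl
        have h3 : 2 ∣ m := by exact_mod_cast hpm
        exact (Nat.not_even_iff_odd.2 hodd) (even_iff_two_dvd.2 h3)
      exact unit_odd hp pp h2 (fun i j k l => (hpm.trans hmn').trans (hm i j k l))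

/-- divisors in a window, or a large prime factor -/
theorem win {Y : ℝ} (hY : 1 ≤ Y) {n : ℕ} (hn : Y < n) :
    (∃ d : ℕ, d ∣ n ∧ Y ^ (1 / 3 : ℝ) ≤ d ∧ (d : ℝ) ≤ Y) ∨ ∃ l : ℕ, l.Prime ∧ l ∣ n ∧ Y < l := by
  classical
  by_contra hc
  push Not at hc
  obtain ⟨h1, h2⟩ := hc
  have hY0 : 0 < Y := by linarith
  have hn0 : n ≠ 0 := by
    rintro rfl
    simp at hn
    linarith
  have hY3 : Y ^ (1 / 3 : ℝ) ≤ Y := by
    calc Y ^ (1 / 3 : ℝ) ≤ Y ^ (1 : ℝ) := Real.rpow_le_rpow_of_exponent_le hY (by norm_num)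
      _ = Y := Real.rpow_one Y
  have hY31 : 1 ≤ Y ^ (1 / 3 : ℝ) := Real.one_le_rpow hY (by norm_num)
  -- the least divisor above `Y ^ (1/3)`
  have hne : (n.divisors.filter (fun d : ℕ => Y ^ (1 / 3 : ℝ) ≤ d)).Nonempty :=
    ⟨n, Finset.mem_filter.2 ⟨Nat.mem_divisors.2 ⟨dvd_rfl, hn0⟩, by linarith⟩⟩
  obtain ⟨d, hd, hmin⟩ := Finset.exists_min_image _ (fun d : ℕ => d) hne
  obtain ⟨hd1, hd2⟩ := Finset.mem_filter.1 hd
  have hdn := Nat.dvd_of_mem_divisors hd1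
  have hdY := h1 d hdn hd2
  have hd1' : d ≠ 1 := by
    rintro rfl
    push_cast at hdY
    linarith
  obtain ⟨p, pp, hpd⟩ := Nat.exists_prime_and_dvd hd1'
  have hpY := h2 p pp (hpd.trans hdn)
  obtain ⟨e, he⟩ := hpd
  have he0 : e ≠ 0 := by
    rintro rfl
    rw [mul_zero] at he
    subst he
    simp at hdY
    linarith
  have hed : e ∣ n := (Dvd.intro_left p he.symm).trans hdn
  have helt : e < d := by
    rw [he]
    have := pp.two_le
    nlinarith [Nat.pos_of_ne_zero he0]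
  have he3 : (e : ℝ) < Y ^ (1 / 3 : ℝ) := by
    by_contra hce
    have : d ≤ e := hmin e (Finset.mem_filter.2 ⟨Nat.mem_divisors.2 ⟨hed, hn0⟩, not_lt.1 hce⟩)
    omega
  have hp3 : (p : ℝ) < Y ^ (1 / 3 : ℝ) := by
    by_contra hcp
    have := h1 p (Dvd.dvd.trans ⟨e, he⟩ hdn) (not_lt.1 hcp)
    linarith
  have h3 : (d : ℝ) = p * e := by rw [he]; push_cast; ring
  have h4 : (d : ℝ) ≤ Y ^ (1 / 3 : ℝ) * Y ^ (1 / 3 : ℝ) := by
    rw [h3]
    exact mul_le_mul hp3.le he3.le (Nat.cast_nonneg _) (by linarith)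
  have h5 : Y ^ (1 / 3 : ℝ) * Y ^ (1 / 3 : ℝ) ≤ Y := by
    rw [← Real.rpow_add hY0]
    calc Y ^ (1 / 3 + 1 / 3 : ℝ) ≤ Y ^ (1 : ℝ) := Real.rpow_le_rpow_of_exponent_le hY (by norm_num)
      _ = Y := Real.rpow_one Y
  linarith

/-- some minor does not vanish -/
theorem minor_ne {x : Fin 10 → ℤ} (hd : (SS x).det ≠ 0) :
    ∃ i j k, SS x i i * SS x j k - SS x i j * SS x i k ≠ 0 := by
  by_contra hc
  push Not at hc
  have hsym : ∀ i j, SS x i j = SS x j i := by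
    intro i j
    fin_cases i <;> fin_cases j <;> simp [SS]
  apply hd
  rw [← Matrix.exists_mulVec_eq_zero_iff]
  by_cases h : ∃ i, SS x i i ≠ 0
  · obtain ⟨i, hi⟩ := h
    obtain ⟨j, hj⟩ : ∃ j : Fin 4, j ≠ i := by
      by_cases h0 : i = 0
      · exact ⟨1, by rw [h0]; decide⟩
      · exact ⟨0, fun h1 => h0 h1.symm⟩
    refine ⟨Pi.single j (SS x i i) - Pi.single i (SS x i j), ?_, ?_⟩
    · intro h1
      have h2 := congrFun h1 j
      simp [hj] at h2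
      exact hi h2
    · rw [Matrix.mulVec_sub]
      funext k
      simp only [Pi.sub_apply, Matrix.mulVec_single, Pi.zero_apply, Pi.smul_apply, Matrix.col_apply,
        MulOpposite.smul_eq_mul_unop, MulOpposite.unop_op]
      have := hc i j k
      rw [hsym k j, hsym k i]
      linear_combination this
  · push Not at h
    refine ⟨Pi.single 0 1, by
      intro h1
      have := congrFun h1 0
      simp at this, ?_⟩
    funext k
    rw [Matrix.mulVec_single_one]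
    show SS x k 0 = 0
    have h1 := hc 0 k k
    rw [h 0, h k] at h1
    have h2 : SS x 0 k * SS x 0 k = 0 := by linear_combination -h1
    rw [hsym k 0]
    exact mul_self_eq_zero.1 h2

theorem SS_le {Y : ℝ} {x : Fin 10 → ℤ} (hx : ∀ j, |(x j : ℝ)| ≤ Y) (i j : Fin 4) :
    |((SS x i j : ℤ) : ℝ)| ≤ 2 * Y := by
  have hY : 0 ≤ Y := le_trans (abs_nonneg _) (hx 0)
  have b := fun j => abs_le.1 (hx j)
  have b0 := b 0
  have b1 := b 1
  have b2 := b 2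
  have b3 := b 3
  have b4 := b 4
  have b5 := b 5
  have b6 := b 6
  have b7 := b 7
  have b8 := b 8
  have b9 := b 9
  rw [abs_le]
  fin_cases i <;> fin_cases j <;>
    simp only [SS, Matrix.of_apply, Matrix.cons_val', Fin.isValue, Fin.zero_eta, Fin.mk_one, Fin.reduceFinMk,
      Matrix.cons_val_zero, Matrix.cons_val_one, Matrix.cons_val] <;> push_cast <;>
    constructor <;> linarith [b0.1, b0.2, b1.1, b1.2, b2.1, b2.2, b3.1, b3.2, b4.1, b4.2, b5.1, b5.2, b6.1,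
      b6.2, b7.1, b7.2, b8.1, b8.2, b9.1, b9.2]

/-- large primes -/
theorem prime_tail {Y : ℝ} (hY : 1 ≤ Y) (S : Finset (Fin 10 → ℤ))
    (hS : ∀ x ∈ S, (∀ j, |(x j : ℝ)| ≤ Y) ∧ (SS x).det ≠ 0 ∧ ∃ l : ℕ, l.Prime ∧ Y < l ∧ SK l x) :
    (S.card : ℝ) ≤ 9 * 4 * 5 ^ 4 * 9 ^ 10 * Y ^ 6 := by
  classical
  have hY0 : 0 < Y := by linarith
  set N : ℕ := ⌊8 * Y ^ 2⌋₊ with hN
  set A : ℕ → Fin 4 → Finset (Fin 10 → ℤ) := fun l i =>
    S.filter (fun x => l.Prime ∧ Y < l ∧ SK l x ∧ ¬ (l : ℤ) ∣ x (dg i)) with hA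
  have hsub : S ⊆ (Finset.range (N + 1)).biUnion (fun l => (Finset.univ : Finset (Fin 4)).biUnion (A l)) := by
    intro x hx
    obtain ⟨hb, hd, l, pl, hl, hk⟩ := hS x hx
    obtain ⟨i, hi⟩ := hk.1 l pl dvd_rfl
    refine Finset.mem_biUnion.2 ⟨l, ?_, Finset.mem_biUnion.2 ⟨i, Finset.mem_univ _,
      Finset.mem_filter.2 ⟨hx, pl, hl, hk, hi⟩⟩⟩
    rw [Finset.mem_range, Nat.lt_succ_iff]
    obtain ⟨a, j, k, hne⟩ := minor_ne hd
    have h1 := Int.le_of_dvd (abs_pos.2 hne) ((dvd_abs _ _).2 (hk.2 a j k))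
    apply Nat.le_floor
    have h2 : ((l : ℤ) : ℝ) ≤ ((|SS x a a * SS x j k - SS x a j * SS x a k| : ℤ) : ℝ) := by exact_mod_cast h1
    push_cast at h2
    have s1 := SS_le hb a a
    have s2 := SS_le hb j k
    have s3 := SS_le hb a j
    have s4 := SS_le hb a k
    calc (l : ℝ) ≤ |((SS x a a : ℤ) : ℝ) * ((SS x j k : ℤ) : ℝ) - ((SS x a j : ℤ) : ℝ) * ((SS x a k : ℤ) : ℝ)| := h2
      _ ≤ |((SS x a a : ℤ) : ℝ) * ((SS x j k : ℤ) : ℝ)| + |((SS x a j : ℤ) : ℝ) * ((SS x a k : ℤ) : ℝ)| :=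
          abs_sub _ _
      _ ≤ 2 * Y * (2 * Y) + 2 * Y * (2 * Y) := by
          rw [abs_mul, abs_mul]
          exact add_le_add (mul_le_mul s1 s2 (abs_nonneg _) (by linarith))
            (mul_le_mul s3 s4 (abs_nonneg _) (by linarith))
      _ = 8 * Y ^ 2 := by ring
  have hone : ∀ l i, ((A l i).card : ℝ) ≤ (5 * Y) ^ 4 * 9 ^ 10 := by
    intro l i
    rcases (A l i).eq_empty_or_nonempty with h0 | ⟨x0, hx0⟩
    · rw [h0]; simp; positivity
    obtain ⟨_, pl, hl, _⟩ := Finset.mem_filter.1 hx0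
    have hlz : (0 : ℤ) < l := by exact_mod_cast pl.pos
    set T := (Fintype.piFinset (fun _ : Fin 4 => Finset.Icc (-⌊2 * Y⌋) ⌊2 * Y⌋)) ×ˢ
      (Fintype.piFinset (fun _ : Fin 10 => Finset.Icc (-4 : ℤ) 4)) with hT
    have hfl : 0 ≤ ⌊2 * Y⌋ := Int.floor_nonneg.2 (by linarith)
    have hTc : (T.card : ℝ) ≤ (5 * Y) ^ 4 * 9 ^ 10 := by
      rw [hT, Finset.card_product, Fintype.card_piFinset, Fintype.card_piFinset]
      simp only [Int.card_Icc, Finset.prod_const, Finset.card_univ, Fintype.card_fin]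
      rw [Nat.cast_mul, Nat.cast_pow, Nat.cast_pow]
      have h1 : (((⌊2 * Y⌋ + 1 - -⌊2 * Y⌋).toNat : ℕ) : ℝ) ≤ 5 * Y := by
        have h2 : (((⌊2 * Y⌋ + 1 - -⌊2 * Y⌋).toNat : ℕ) : ℤ) = ⌊2 * Y⌋ + 1 - -⌊2 * Y⌋ :=
          Int.toNat_of_nonneg (by omega)
        have h3 : (((⌊2 * Y⌋ + 1 - -⌊2 * Y⌋).toNat : ℕ) : ℝ) = (⌊2 * Y⌋ : ℝ) + 1 + ⌊2 * Y⌋ := by
          have : (((⌊2 * Y⌋ + 1 - -⌊2 * Y⌋).toNat : ℕ) : ℝ) = (((⌊2 * Y⌋ + 1 - -⌊2 * Y⌋ : ℤ)) : ℝ) := by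
            exact_mod_cast congrArg (fun z : ℤ => (z : ℝ)) h2
          rw [this]; push_cast; ring
        rw [h3]
        have := Int.floor_le (2 * Y)
        linarith
      have h4 : ((((4 : ℤ) + 1 - -4).toNat : ℕ) : ℝ) = 9 := by
        have : ((4 : ℤ) + 1 - -4).toNat = 9 := rfl
        rw [this]; norm_num
      rw [h4]
      exact mul_le_mul_of_nonneg_right (pow_le_pow_left₀ (Nat.cast_nonneg _) h1 4) (by positivity)
    refine le_trans ?_ hTc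
    have hc : (A l i).card ≤ T.card := by
      apply Finset.card_le_card_of_injOn (fun x => ((fun j => SS x i j), (fun j => 4 * x j / (l : ℤ))))
      · intro x hx
        obtain ⟨hxS, _, _, _, _⟩ := Finset.mem_filter.1 (Finset.mem_coe.1 hx)
        have hb := (hS x hxS).1
        simp only [hT, Finset.coe_product, Set.mem_prod, Finset.mem_coe, Fintype.mem_piFinset, Finset.mem_Icc]
        refine ⟨fun j => ?_, fun j => ?_⟩
        · rw [← abs_le, Int.le_floor]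
          push_cast
          exact SS_le hb i j
        · have h1 := abs_le.1 (hb j)
          have h2 : -(l : ℤ) < x j := by
            have : (-(l : ℝ)) < (x j : ℝ) := by linarith [h1.1]
            exact_mod_cast this
          have h3 : x j < (l : ℤ) := by
            have : (x j : ℝ) < (l : ℝ) := by linarith [h1.2]
            exact_mod_cast this
          constructor
          · rw [Int.le_ediv_iff_mul_le hlz]
            nlinarith
          · have : 4 * x j / (l : ℤ) < 5 := by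
              rw [Int.ediv_lt_iff_lt_mul hlz]
              nlinarith
            omega
      · intro x hx y hy hxy
        obtain ⟨_, _, _, hkx, hix⟩ := Finset.mem_filter.1 (Finset.mem_coe.1 hx)
        obtain ⟨_, _, _, hky, _⟩ := Finset.mem_filter.1 (Finset.mem_coe.1 hy)
        simp only [Prod.mk.injEq] at hxy
        obtain ⟨e1, e2⟩ := hxy
        have h4 := same_row (w := 1) pl hix (fun j k => by rw [pow_one]; exact hkx.2 i j k)
          (fun j k => by rw [pow_one]; exact hky.2 i j k) (fun j => by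
            have h5 : SS x i j = SS y i j := congrFun e1 j
            rw [h5])
        rw [pow_one] at h4
        funext m
        have e3 : 4 * x m / (l : ℤ) = 4 * y m / (l : ℤ) := congrFun e2 m
        have e4 : (4 * x m) % (l : ℤ) = (4 * y m) % (l : ℤ) := (Int.modEq_iff_dvd.2 (by
          have := h4 m; rw [← dvd_neg] at this; simpa using this) : 4 * x m ≡ 4 * y m [ZMOD (l : ℤ)])
        have e5 := Int.mul_ediv_add_emod (4 * x m) (l : ℤ)
        have e6 := Int.mul_ediv_add_emod (4 * y m) (l : ℤ)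
        rw [e3, e4, e6] at e5
        omega
    exact_mod_cast hc
  have h1 : (S.card : ℝ) ≤ ∑ l ∈ Finset.range (N + 1), ∑ i : Fin 4, ((A l i).card : ℝ) := by
    have h2 : S.card ≤ ∑ l ∈ Finset.range (N + 1), ∑ i : Fin 4, (A l i).card :=
      (Finset.card_le_card hsub).trans (Finset.card_biUnion_le.trans
        (Finset.sum_le_sum (fun l _ => Finset.card_biUnion_le)))
    exact_mod_cast h2
  have h2 : (S.card : ℝ) ≤ ∑ _l ∈ Finset.range (N + 1), ∑ _i : Fin 4, ((5 * Y) ^ 4 * 9 ^ 10) :=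
    h1.trans (Finset.sum_le_sum (fun l _ => Finset.sum_le_sum (fun i _ => hone l i)))
  rw [Finset.sum_const, Finset.sum_const, Finset.card_range, Finset.card_univ, Fintype.card_fin] at h2
  simp only [nsmul_eq_mul] at h2
  push_cast at h2
  have h3 : (N : ℝ) ≤ 8 * Y ^ 2 := Nat.floor_le (by positivity)
  have h4 : (N : ℝ) + 1 ≤ 9 * Y ^ 2 := by nlinarith
  calc (S.card : ℝ) ≤ ((N : ℝ) + 1) * (4 * ((5 * Y) ^ 4 * 9 ^ 10)) := h2
    _ ≤ (9 * Y ^ 2) * (4 * ((5 * Y) ^ 4 * 9 ^ 10)) := mul_le_mul_of_nonneg_right h4 (by positivity)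
    _ = _ := by ring

/-- (N2') few `x` have the `2 x 2` minors of `S(x)` divisible by some `n ≥ N0` -/
theorem skp_card {ε : ℝ} (hε : 0 < ε) : ∃ C : ℝ, 1 ≤ C ∧ ∀ Y : ℝ, 1 ≤ Y → ∀ N0 : ℝ, 1 ≤ N0 →
    ∀ S : Finset (Fin 10 → ℤ), (∀ x ∈ S, (∀ j, |(x j : ℝ)| ≤ Y) ∧ FF x = 0 ∧
      (∀ p : ℕ, p.Prime → ∃ j, ¬ (p : ℤ) ∣ x j) ∧ (SS x).det ≠ 0 ∧
      ∃ n : ℕ, N0 ≤ n ∧ ∀ i j k l, (n : ℤ) ∣ SS x i k * SS x j l - SS x i l * SS x j k) →
    (S.card : ℝ) ≤ C * Y ^ (8 + ε) * (1 / N0 ^ 3 + 1 / Y) := by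
  classical
  obtain ⟨C, hC, h⟩ := sk_sum hε
  set K : ℝ := 9 * 4 * 5 ^ 4 * 9 ^ 10 with hK
  refine ⟨64 * C + C + K, by rw [hK]; linarith, fun Y hY N0 hN0 S hS => ?_⟩
  have hY0 : 0 < Y := by linarith
  have hN00 : 0 < N0 := by linarith
  have hK0 : 0 ≤ K := by rw [hK]; norm_num
  set N1 : ℝ := max 1 (N0 / 4) with hN1
  have hN11 : 1 ≤ N1 := le_max_left _ _
  set Sa := S.filter (fun x => ∃ n : ℕ, N1 ≤ n ∧ (n : ℝ) ≤ Y ∧ SK n x) with hSa
  set Sb := S.filter (fun x => ∃ n : ℕ, Y ^ (1 / 3 : ℝ) ≤ n ∧ (n : ℝ) ≤ Y ∧ SK n x) with hSb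
  set Sc := S.filter (fun x => ∃ l : ℕ, l.Prime ∧ Y < l ∧ SK l x) with hSc
  have hsub : S ⊆ (Sa ∪ Sb) ∪ Sc := by
    intro x hx
    obtain ⟨hb, hF, hp, hd, n, hn, hm⟩ := hS x hx
    have hn0 : n ≠ 0 := by
      rintro rfl
      push_cast at hn
      linarith
    obtain ⟨m, hmn, hnm, hk⟩ := SK_of hp hn0 hm
    have hm0 : m ≠ 0 := by
      rintro rfl
      simp at hnm
      exact hn0 hnm
    have hm1 : (1 : ℝ) ≤ m := by exact_mod_cast Nat.one_le_iff_ne_zero.2 hm0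
    have hmN : N1 ≤ m := by
      refine max_le hm1 ?_
      have : (n : ℝ) ≤ 4 * m := by exact_mod_cast hnm
      linarith
    by_cases hmY : (m : ℝ) ≤ Y
    · exact Finset.mem_union_left _ (Finset.mem_union_left _ (Finset.mem_filter.2 ⟨hx, m, hmN, hmY, hk⟩))
    · rcases win hY (not_le.1 hmY) with ⟨d, hdm, hd1, hd2⟩ | ⟨l, pl, hlm, hl⟩
      · exact Finset.mem_union_left _ (Finset.mem_union_right _ (Finset.mem_filter.2
          ⟨hx, d, hd1, hd2, SK_mono (by exact_mod_cast hdm) hk⟩))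
      · exact Finset.mem_union_right _ (Finset.mem_filter.2
          ⟨hx, l, pl, hl, SK_mono (by exact_mod_cast hlm) hk⟩)
  have ha := h Y hY N1 hN11 Sa (fun x hx => by
    obtain ⟨hx1, hx2⟩ := Finset.mem_filter.1 hx
    exact ⟨(hS x hx1).1, (hS x hx1).2.1, hx2⟩)
  have hb := h Y hY (Y ^ (1 / 3 : ℝ)) (Real.one_le_rpow hY (by norm_num)) Sb (fun x hx => by
    obtain ⟨hx1, hx2⟩ := Finset.mem_filter.1 hx
    exact ⟨(hS x hx1).1, (hS x hx1).2.1, hx2⟩)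
  have hc := prime_tail hY Sc (fun x hx => by
    obtain ⟨hx1, hx2⟩ := Finset.mem_filter.1 hx
    exact ⟨(hS x hx1).1, (hS x hx1).2.2.2.1, hx2⟩)
  have h1 : (S.card : ℝ) ≤ Sa.card + Sb.card + Sc.card := by
    have := (Finset.card_le_card hsub).trans ((Finset.card_union_le _ _).trans
      (Nat.add_le_add_right (Finset.card_union_le _ _) _))
    exact_mod_cast this
  have h2 : 1 / N1 ^ 3 ≤ 64 * (1 / N0 ^ 3) := by
    have h3 : N0 / 4 ≤ N1 := le_max_right _ _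
    have h4 : (N0 / 4) ^ 3 ≤ N1 ^ 3 := pow_le_pow_left₀ (by positivity) h3 3
    have h5 : 1 / N1 ^ 3 ≤ 1 / (N0 / 4) ^ 3 := one_div_le_one_div_of_le (by positivity) h4
    have h6 : 1 / (N0 / 4) ^ 3 = 64 * (1 / N0 ^ 3) := by field_simp; norm_num
    linarith
  have h3 : (Y ^ (1 / 3 : ℝ)) ^ 3 = Y := by
    rw [← Real.rpow_natCast, ← Real.rpow_mul hY0.le]
    norm_num
  rw [h3] at hb
  have h4 : Y ^ 6 ≤ Y ^ (8 + ε) * (1 / Y) := by
    have h5 : Y ^ (8 + ε) * (1 / Y) = Y ^ (7 + ε) := by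
      rw [one_div, ← Real.rpow_neg_one, ← Real.rpow_add hY0]
      congr 1; ring
    rw [h5, ← Real.rpow_natCast Y 6]
    exact Real.rpow_le_rpow_of_exponent_le hY (by push_cast; linarith)
  have hP : 0 ≤ Y ^ (8 + ε) * (1 / N0 ^ 3) := by positivity
  have hQ : 0 ≤ Y ^ (8 + ε) * (1 / Y) := by positivity
  have ha' : (Sa.card : ℝ) ≤ 64 * C * (Y ^ (8 + ε) * (1 / N0 ^ 3)) := by
    refine ha.trans ?_
    calc C * Y ^ (8 + ε) * (1 / N1 ^ 3) ≤ C * Y ^ (8 + ε) * (64 * (1 / N0 ^ 3)) :=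
          mul_le_mul_of_nonneg_left h2 (by positivity)
      _ = _ := by ring
  have hb' : (Sb.card : ℝ) ≤ C * (Y ^ (8 + ε) * (1 / Y)) := by
    refine hb.trans (le_of_eq (by ring))
  have hc' : (Sc.card : ℝ) ≤ K * (Y ^ (8 + ε) * (1 / Y)) :=
    hc.trans (mul_le_mul_of_nonneg_left h4 hK0)
  have e : (64 * C + C + K) * Y ^ (8 + ε) * (1 / N0 ^ 3 + 1 / Y) =
      64 * C * (Y ^ (8 + ε) * (1 / N0 ^ 3)) + C * (Y ^ (8 + ε) * (1 / Y)) + K * (Y ^ (8 + ε) * (1 / Y)) +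
      (C + K) * (Y ^ (8 + ε) * (1 / N0 ^ 3)) + 64 * C * (Y ^ (8 + ε) * (1 / Y)) := by ring
  have r1 : 0 ≤ (C + K) * (Y ^ (8 + ε) * (1 / N0 ^ 3)) := mul_nonneg (by linarith) hP
  have r2 : 0 ≤ 64 * C * (Y ^ (8 + ε) * (1 / Y)) := mul_nonneg (by linarith) hQ
  rw [e]
  linarith

end Pool.Agent.PP5T
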