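import Pool.Agent.PP5T.Rrc
import Pool.Agent.PP5T.Kpc
import Pool.Agent.PP5T.Spc

/-!
# PP5 (D'): joint counts for a modulus and a real size, moduli `n ≤ Y`
-/

set_option autoImplicit false

namespace Pool.Agent.PP5T

open Matrix Pool.Agent.PP5L Pool.Agent.PP5K

private theorem tel (a : ℕ) (ha : 0 < a) : ∀ b : ℕ, a ≤ b →
    ∑ n ∈ Finset.Ico a b, (1 : ℝ) / (n : ℝ) ^ 4 ≤ 3 * (1 / (a : ℝ) ^ 3 - 1 / (b : ℝ) ^ 3) := by
  intro b hb
  induction b, hb using Nat.le_induction with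
  | base => simp
  | succ m hm ih =>
    rw [Finset.sum_Ico_succ_top hm]
    have hm0 : (1 : ℝ) ≤ m := by exact_mod_cast (by omega : 1 ≤ m)
    have key : (1 : ℝ) / (m : ℝ) ^ 4 ≤ 3 * (1 / (m : ℝ) ^ 3 - 1 / ((m : ℝ) + 1) ^ 3) := by
      have hp : (0 : ℝ) < m := by linarith
      rw [div_sub_div _ _ (by positivity) (by positivity), mul_div_assoc', div_le_div_iff₀ (by positivity) (by positivity)]
      have e : 3 * (1 * ((m : ℝ) + 1) ^ 3 - (m : ℝ) ^ 3 * 1) * (m : ℝ) ^ 4 -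
        1 * ((m : ℝ) ^ 3 * ((m : ℝ) + 1) ^ 3) = (m : ℝ) ^ 3 * (8 * (m : ℝ) ^ 3 + 6 * (m : ℝ) ^ 2 - 1) := by ring
      have h3 : 0 ≤ (m : ℝ) ^ 3 * (8 * (m : ℝ) ^ 3 + 6 * (m : ℝ) ^ 2 - 1) := by
        apply mul_nonneg (by positivity)
        nlinarith [pow_pos hp 3, pow_pos hp 2]
      linarith
    push_cast
    linarith

/-- summation over the moduli `n ≤ Y`: small moduli with a real condition, large moduli without -/
theorem jsum {α : Type*} (S : Finset α) (P : ℕ → α → Prop) [∀ n, DecidablePred (P n)] {A Y Q : ℝ}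
    (hA : 0 ≤ A) (hY : 1 ≤ Y) (hQ : 1 ≤ Q)
    (h1 : ∀ n : ℕ, 0 < n → (n : ℝ) ≤ Y → (n : ℝ) ≤ Q →
      ((S.filter (P n)).card : ℝ) ≤ A * (1 / Q + 1 / Y) ^ 4)
    (h2 : ∀ n : ℕ, 0 < n → (n : ℝ) ≤ Y → Q < n → ((S.filter (P n)).card : ℝ) ≤ A * (1 / (n : ℝ) ^ 4))
    (hS : ∀ x ∈ S, ∃ n : ℕ, 0 < n ∧ (n : ℝ) ≤ Y ∧ P n x) :
    (S.card : ℝ) ≤ 19 * A * (1 / Q ^ 3 + 1 / Y ^ 3) := by
  classical
  have hY0 : 0 < Y := by linarith
  have hQ0 : 0 < Q := by linarith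
  obtain ⟨m, hm⟩ : ∃ m : ℝ, m = min Q Y := ⟨_, rfl⟩
  have hm1 : 1 ≤ m := by rw [hm]; exact le_min hQ hY
  have hm0 : 0 < m := by linarith
  have hmQ : m ≤ Q := by rw [hm]; exact min_le_left _ _
  have hmY : m ≤ Y := by rw [hm]; exact min_le_right _ _
  set Ia := Finset.Ico 1 (⌊m⌋₊ + 1) with hIa
  set Ib := Finset.Ico ⌈Q⌉₊ (max ⌈Q⌉₊ (⌊Y⌋₊ + 1)) with hIb
  set Fb : ℕ → Finset α := fun n => S.filter (fun x => Q < n ∧ (n : ℝ) ≤ Y ∧ P n x) with hFb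
  have hsub : S ⊆ Ia.biUnion (fun n => S.filter (P n)) ∪ Ib.biUnion Fb := by
    intro x hx
    obtain ⟨n, hn0, hnY, hP⟩ := hS x hx
    by_cases hnQ : (n : ℝ) ≤ Q
    · refine Finset.mem_union_left _ (Finset.mem_biUnion.2 ⟨n, ?_, Finset.mem_filter.2 ⟨hx, hP⟩⟩)
      rw [hIa, Finset.mem_Ico]
      refine ⟨hn0, Nat.lt_succ_of_le (Nat.le_floor ?_)⟩
      rw [hm]
      exact le_min hnQ hnY
    · push Not at hnQ
      refine Finset.mem_union_right _ (Finset.mem_biUnion.2 ⟨n, ?_, Finset.mem_filter.2 ⟨hx, hnQ, hnY, hP⟩⟩)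
      rw [hIb, Finset.mem_Ico]
      refine ⟨Nat.ceil_le.2 hnQ.le, ?_⟩
      have := Nat.le_floor hnY
      exact lt_of_lt_of_le (by omega) (le_max_right _ _)
  have hc : (S.card : ℝ) ≤ ∑ n ∈ Ia, ((S.filter (P n)).card : ℝ) + ∑ n ∈ Ib, ((Fb n).card : ℝ) := by
    have h3 := (Finset.card_le_card hsub).trans ((Finset.card_union_le _ _).trans
      (Nat.add_le_add Finset.card_biUnion_le Finset.card_biUnion_le))
    exact_mod_cast h3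
  have ha : ∑ n ∈ Ia, ((S.filter (P n)).card : ℝ) ≤ 16 * A * (1 / Q ^ 3 + 1 / Y ^ 3) := by
    have g1 : ∀ n ∈ Ia, ((S.filter (P n)).card : ℝ) ≤ A * (1 / Q + 1 / Y) ^ 4 := by
      intro n hn
      rw [hIa, Finset.mem_Ico] at hn
      have g2 : (n : ℝ) ≤ m := (Nat.cast_le.2 (Nat.lt_succ_iff.1 hn.2)).trans (Nat.floor_le hm0.le)
      exact h1 n hn.1 (g2.trans hmY) (g2.trans hmQ)
    have g3 := Finset.sum_le_sum g1
    rw [Finset.sum_const, hIa, Nat.card_Ico, nsmul_eq_mul] at g3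
    have g4 : ((⌊m⌋₊ + 1 - 1 : ℕ) : ℝ) ≤ m := by
      rw [Nat.add_sub_cancel]
      exact Nat.floor_le hm0.le
    have g5 : 1 / Q + 1 / Y ≤ 2 / m := by
      have e1 : 1 / Q ≤ 1 / m := one_div_le_one_div_of_le hm0 hmQ
      have e2 : 1 / Y ≤ 1 / m := one_div_le_one_div_of_le hm0 hmY
      have e3 : 2 / m = 1 / m + 1 / m := by ring
      linarith
    have g6 : (1 / Q + 1 / Y) ^ 4 ≤ (2 / m) ^ 4 := pow_le_pow_left₀ (by positivity) g5 4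
    have g7 : 1 / m ^ 3 ≤ 1 / Q ^ 3 + 1 / Y ^ 3 := by
      rcases le_total Q Y with h | h
      · rw [hm, min_eq_left h]
        have : 0 ≤ 1 / Y ^ 3 := by positivity
        linarith
      · rw [hm, min_eq_right h]
        have : 0 ≤ 1 / Q ^ 3 := by positivity
        linarith
    calc ∑ n ∈ Ia, ((S.filter (P n)).card : ℝ) ≤ ((⌊m⌋₊ + 1 - 1 : ℕ) : ℝ) * (A * (1 / Q + 1 / Y) ^ 4) := g3
      _ ≤ m * (A * (2 / m) ^ 4) :=
          mul_le_mul g4 (mul_le_mul_of_nonneg_left g6 hA) (by positivity) hm0.le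
      _ = 16 * A * (1 / m ^ 3) := by field_simp; norm_num
      _ ≤ _ := mul_le_mul_of_nonneg_left g7 (by positivity)
  have hceil : 0 < ⌈Q⌉₊ := Nat.ceil_pos.2 hQ0
  have hb : ∑ n ∈ Ib, ((Fb n).card : ℝ) ≤ 3 * A * (1 / Q ^ 3 + 1 / Y ^ 3) := by
    have g1 : ∀ n ∈ Ib, ((Fb n).card : ℝ) ≤ A * (1 / (n : ℝ) ^ 4) := by
      intro n hn
      have hn0 : 0 < n := lt_of_lt_of_le hceil (Finset.mem_Ico.1 hn).1
      by_cases hq : Q < n ∧ (n : ℝ) ≤ Y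
      · refine le_trans ?_ (h2 n hn0 hq.2 hq.1)
        have : Fb n ⊆ S.filter (P n) := by
          intro x hx
          obtain ⟨hx1, _, _, hx2⟩ := Finset.mem_filter.1 hx
          exact Finset.mem_filter.2 ⟨hx1, hx2⟩
        exact_mod_cast Finset.card_le_card this
      · have : Fb n = ∅ := Finset.filter_false_of_mem (fun x _ hx => hq ⟨hx.1, hx.2.1⟩)
        rw [this]
        simp
        positivity
    have g3 := Finset.sum_le_sum g1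
    rw [← Finset.mul_sum] at g3
    have h4 := tel ⌈Q⌉₊ hceil (max ⌈Q⌉₊ (⌊Y⌋₊ + 1)) (le_max_left _ _)
    have h5 : (1 : ℝ) / (⌈Q⌉₊ : ℝ) ^ 3 ≤ 1 / Q ^ 3 :=
      one_div_le_one_div_of_le (by positivity) (pow_le_pow_left₀ hQ0.le (Nat.le_ceil Q) 3)
    have h6 : (0 : ℝ) ≤ 1 / ((max ⌈Q⌉₊ (⌊Y⌋₊ + 1) : ℕ) : ℝ) ^ 3 := by positivity
    have h7 : (0 : ℝ) ≤ 1 / Y ^ 3 := by positivity
    calc ∑ n ∈ Ib, ((Fb n).card : ℝ) ≤ A * ∑ n ∈ Ib, 1 / (n : ℝ) ^ 4 := g3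
      _ ≤ A * (3 * (1 / Q ^ 3 + 1 / Y ^ 3)) := mul_le_mul_of_nonneg_left (by linarith) hA
      _ = _ := by ring
  linarith

/-- (CK), moduli `n ≤ Y` -/
theorem ck_small {ε : ℝ} (hε : 0 < ε) : ∃ C : ℝ, 1 ≤ C ∧ ∀ Y K Q : ℝ, 1 ≤ Y → 1 ≤ K → 1 ≤ Q →
    ∀ S : Finset (Fin 10 → ℤ),
    (∀ x ∈ S, FF x = 0 ∧ (∀ j, |(x j : ℝ)| ≤ Y) ∧ (∃ j, Y ≤ K * |(x j : ℝ)|) ∧
      ∃ n : ℕ, 0 < n ∧ (n : ℝ) ≤ Y ∧ RK n x ∧ Mn x ((n : ℝ) / Q * Y ^ 4)) →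
    (S.card : ℝ) ≤ C * K ^ 64 * Y ^ (8 + ε) * (1 / Q ^ 3 + 1 / Y ^ 3) := by
  classical
  obtain ⟨C1, hC1, h1⟩ := rr_count hε
  obtain ⟨C2, hC2, h2⟩ := rk_card hε
  refine ⟨19 * (C1 + C2), by linarith, fun Y K Q hY hK hQ S hS => ?_⟩
  have hY0 : 0 < Y := by linarith
  have hQ0 : 0 < Q := by linarith
  have hK64 : (1 : ℝ) ≤ K ^ 64 := one_le_pow₀ hK
  have hA : (0 : ℝ) ≤ (C1 + C2) * K ^ 64 * Y ^ (8 + ε) := by positivity
  have key := jsum S (fun n x => RK n x ∧ Mn x ((n : ℝ) / Q * Y ^ 4)) (A := (C1 + C2) * K ^ 64 * Y ^ (8 + ε))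
    hA hY hQ ?_ ?_ ?_
  · calc (S.card : ℝ) ≤ _ := key
      _ = _ := by ring
  · intro n hn hnY hnQ
    have hn0 : (0 : ℝ) < n := by exact_mod_cast hn
    have g1 := h1 Y K ((n : ℝ) / Q) hY hK (by positivity) n hn hnY
      (S.filter fun x => RK n x ∧ Mn x ((n : ℝ) / Q * Y ^ 4)) (by
      intro x hx
      obtain ⟨hx1, hx2, hx3⟩ := Finset.mem_filter.1 hx
      obtain ⟨a, b, c, _⟩ := hS x hx1
      exact ⟨a, b, c, hx2, hx3⟩)
    have e1 : C1 * K ^ 64 * Y ^ (8 + ε) * ((n : ℝ) / Q + n / Y) ^ 4 / (n : ℝ) ^ 4 =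
        C1 * K ^ 64 * Y ^ (8 + ε) * (1 / Q + 1 / Y) ^ 4 := by
      have : (n : ℝ) / Q + n / Y = n * (1 / Q + 1 / Y) := by ring
      rw [this, mul_pow]
      field_simp
    rw [e1] at g1
    refine g1.trans ?_
    have : C1 * K ^ 64 * Y ^ (8 + ε) ≤ (C1 + C2) * K ^ 64 * Y ^ (8 + ε) := by
      have : 0 ≤ C2 * K ^ 64 * Y ^ (8 + ε) := by positivity
      nlinarith
    exact mul_le_mul_of_nonneg_right this (by positivity)
  · intro n hn hnY hnQ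
    have hn0 : (0 : ℝ) < n := by exact_mod_cast hn
    have g1 := h2 Y hY n hn hnY (S.filter fun x => RK n x ∧ Mn x ((n : ℝ) / Q * Y ^ 4)) (by
      intro x hx
      obtain ⟨hx1, hx2, hx3⟩ := Finset.mem_filter.1 hx
      obtain ⟨a, b, c, _⟩ := hS x hx1
      exact ⟨b, a, hx2⟩)
    refine g1.trans ?_
    have : C2 * Y ^ (8 + ε) ≤ (C1 + C2) * K ^ 64 * Y ^ (8 + ε) := by
      have h3 : C2 * 1 ≤ (C1 + C2) * K ^ 64 :=
        mul_le_mul (by linarith) hK64 (by norm_num) (by linarith)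
      have h4 : 0 ≤ Y ^ (8 + ε) := by positivity
      nlinarith
    exact mul_le_mul_of_nonneg_right this (by positivity)
  · intro x hx
    obtain ⟨_, _, _, n, hn, hnY, hR, hM⟩ := hS x hx
    exact ⟨n, hn, hnY, hR, hM⟩

private theorem card4 {S : Finset (Fin 10 → ℤ)} {P : Fin 4 → (Fin 10 → ℤ) → Prop}
    [∀ i, DecidablePred (P i)] {B : ℝ} (h : ∀ x ∈ S, ∃ i, P i x)
    (hB : ∀ i, ((S.filter (P i)).card : ℝ) ≤ B) : (S.card : ℝ) ≤ 4 * B := by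
  classical
  have h1 : S ⊆ Finset.univ.biUnion fun i => S.filter (P i) := by
    intro x hx
    obtain ⟨i, hi⟩ := h x hx
    exact Finset.mem_biUnion.2 ⟨i, Finset.mem_univ _, Finset.mem_filter.2 ⟨hx, hi⟩⟩
  have h2 := (Finset.card_le_card h1).trans Finset.card_biUnion_le
  calc (S.card : ℝ) ≤ ((∑ i : Fin 4, (S.filter (P i)).card : ℕ) : ℝ) := by exact_mod_cast h2
    _ = ∑ i : Fin 4, ((S.filter (P i)).card : ℝ) := by push_cast; rfl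
    _ ≤ ∑ _i : Fin 4, B := Finset.sum_le_sum fun i _ => hB i
    _ = 4 * B := by simp

/-- some diagonal entry of `S(x)` is large if its minors are small -/
theorem ssdg {Y K p : ℝ} (hY : 1 ≤ Y) (hK : 1 ≤ K) (hp : 0 ≤ p) (hsm : 2 * K ^ 2 * p ≤ 1) {x : Fin 10 → ℤ}
    (hj : ∃ j, Y ≤ K * |(x j : ℝ)|)
    (hM : ∀ i i' j j', |((SS x i j * SS x i' j' - SS x i j' * SS x i' j : ℤ) : ℝ)| ≤ p * Y ^ 2) :
    ∃ i, Y ≤ 2 * K * |((SS x i i : ℤ) : ℝ)| := by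
  have hY0 : 0 < Y := by linarith
  obtain ⟨l, hl⟩ := hj
  by_contra hcon
  push Not at hcon
  have hKp : 0 < K := by linarith
  have hd : ∀ i, |((SS x i i : ℤ) : ℝ)| ≤ Y / (2 * K) := by
    intro i
    rw [le_div_iff₀ (by positivity)]
    have := hcon i
    linarith
  have hall : ∀ i j, (((SS x i j : ℤ) : ℝ)) ^ 2 ≤ 3 / 4 * (Y / K) ^ 2 := by
    intro i j
    have g1 := (abs_le.1 (hM i j i j)).1
    push_cast at g1
    have g2 : |((SS x i i : ℤ) : ℝ) * ((SS x j j : ℤ) : ℝ)| ≤ Y / (2 * K) * (Y / (2 * K)) := by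
      rw [abs_mul]
      exact mul_le_mul (hd i) (hd j) (abs_nonneg _) (by positivity)
    have g3 := (abs_le.1 g2).2
    have g4 : ((SS x i j : ℤ) : ℝ) * ((SS x j i : ℤ) : ℝ) = (((SS x i j : ℤ) : ℝ)) ^ 2 := by
      have : SS x j i = SS x i j := Mf_SS.sym x j i
      rw [this]
      ring
    have g5 : p * Y ^ 2 ≤ 1 / 2 * (Y / K) ^ 2 := by
      rw [div_pow, mul_div_assoc', le_div_iff₀ (by positivity)]
      nlinarith [sq_nonneg Y]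
    have g6 : Y / (2 * K) * (Y / (2 * K)) = 1 / 4 * (Y / K) ^ 2 := by field_simp; ring
    nlinarith
  have hYK : 0 ≤ Y / K := by positivity
  have g7 := Mf_SS.dist x (fun _ => 0) (Real.sqrt (3 / 4 * (Y / K) ^ 2)) (by
    intro i j
    have g8 : ((SS (fun _ => (0 : ℤ)) i j : ℤ) : ℝ) = 0 := by
      fin_cases i <;> fin_cases j <;> simp [SS]
    rw [g8, sub_zero, ← Real.sqrt_sq_eq_abs]
    exact Real.sqrt_le_sqrt (hall i j)) l
  rw [Int.cast_zero, sub_zero] at g7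
  have g9 : Real.sqrt (3 / 4 * (Y / K) ^ 2) < Y / K := by
    rw [Real.sqrt_lt' (by positivity)]
    have : 0 < (Y / K) ^ 2 := by positivity
    linarith
  have g10 : |(x l : ℝ)| < Y / K := lt_of_le_of_lt g7 g9
  rw [lt_div_iff₀ hKp] at g10
  linarith

/-- (N5') with a modulus -/
theorem sr_count {ε : ℝ} (hε : 0 < ε) : ∃ C : ℝ, 1 ≤ C ∧ ∀ Y K p : ℝ, 1 ≤ Y → 1 ≤ K → 0 ≤ p →
    ∀ n : ℕ, 0 < n → (n : ℝ) ≤ Y → ∀ S : Finset (Fin 10 → ℤ),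
    (∀ x ∈ S, FF x = 0 ∧ (∀ j, |(x j : ℝ)| ≤ Y) ∧ (∃ j, Y ≤ K * |(x j : ℝ)|) ∧ SK n x ∧
      ∀ i i' j j', |((SS x i j * SS x i' j' - SS x i j' * SS x i' j : ℤ) : ℝ)| ≤ p * Y ^ 2) →
    (S.card : ℝ) ≤ C * K ^ 8 * Y ^ (8 + ε) * (p + n / Y) ^ 4 / (n : ℝ) ^ 4 := by
  classical
  obtain ⟨C2, hC2, h2⟩ := gen_count Mf_SS (half_pos hε)
  obtain ⟨C1, hC1, h1⟩ := sk_card hε
  obtain ⟨c, hc, hdiv⟩ := Pool.Agent.FTA.divisor_bound (ε := ε / 44) (by positivity)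
  refine ⟨C1 * 16 + 4 * C2 * 2 ^ 8 * c ^ 22, by
    have : 0 ≤ 4 * C2 * 2 ^ 8 * c ^ 22 := by positivity
    linarith, fun Y K p hY hK hp n hn hnY S hS => ?_⟩
  have hY0 : 0 < Y := by linarith
  have hn0 : (0 : ℝ) < n := by exact_mod_cast hn
  have hnY0 : 0 ≤ (n : ℝ) / Y := by positivity
  obtain ⟨R, hR⟩ : ∃ R : ℝ, R = K ^ 8 * Y ^ (8 + ε) * (p + n / Y) ^ 4 / (n : ℝ) ^ 4 := ⟨_, rfl⟩
  have hR0 : 0 ≤ R := by rw [hR]; positivity
  by_cases hsm : 2 * K ^ 2 * p ≤ 1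
  · have hp1 : p ≤ 1 := by nlinarith
    have hNc : ((S.image fun x j => x j % (n : ℤ)).card : ℝ) ≤ c ^ 22 * Y ^ (ε / 2) * (n : ℝ) ^ 4 := by
      have hnz : (0 : ℤ) < n := by exact_mod_cast hn
      have g2 := scl_nat n hn (S.image fun x => fun j => x j % (n : ℤ)) (by
        intro z hz
        obtain ⟨x, hx, rfl⟩ := Finset.mem_image.1 hz
        refine ⟨fun j => ⟨Int.emod_nonneg _ hnz.ne', Int.emod_lt_of_pos _ hnz⟩, ?_⟩
        exact SK_congr (x := x) (fun j => (Int.mod_modEq _ _).symm) (hS x hx).2.2.2.1)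
      have g3 := hdiv n hn.ne'
      have g4 : ((n.divisors.card : ℝ)) ^ 22 ≤ c ^ 22 * Y ^ (ε / 2) := by
        calc ((n.divisors.card : ℝ)) ^ 22 ≤ (c * (n : ℝ) ^ (ε / 44)) ^ 22 :=
              pow_le_pow_left₀ (by positivity) g3 22
          _ = c ^ 22 * (n : ℝ) ^ (ε / 2) := by
              rw [mul_pow, ← Real.rpow_natCast ((n : ℝ) ^ (ε / 44)) 22, ← Real.rpow_mul hn0.le]
              congr 2
              push_cast
              ring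
          _ ≤ c ^ 22 * Y ^ (ε / 2) :=
              mul_le_mul_of_nonneg_left (Real.rpow_le_rpow hn0.le hnY (by positivity)) (by positivity)
      have g6 : ((S.image fun x => fun j => x j % (n : ℤ)).card : ℝ) ≤
          (n.divisors.card : ℝ) ^ 22 * (n : ℝ) ^ 4 := by exact_mod_cast g2
      exact g6.trans (mul_le_mul_of_nonneg_right g4 (by positivity))
    have hdg : ∀ x ∈ S, ∃ i, Y ≤ 2 * K * |((SS x i i : ℤ) : ℝ)| := fun x hx =>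
      ssdg hY hK hp hsm (hS x hx).2.2.1 (hS x hx).2.2.2.2
    have key := card4 (S := S) (P := fun i x => Y ≤ 2 * K * |((SS x i i : ℤ) : ℝ)|)
      (B := C2 * (2 * K) ^ 8 * Y ^ (4 + ε / 2) * (p * Y + n) ^ 4 * (c ^ 22 * Y ^ (ε / 2) * (n : ℝ) ^ 4) /
        (n : ℝ) ^ 8) hdg (by
      intro i
      refine h2 Y (2 * K) p hY (by linarith) hp hp1 n hn hnY _ i _ ?_ ?_
      · intro x hx
        have hx1 := Finset.mem_filter.1 hx
        obtain ⟨hF, hb, hj, _, hM⟩ := hS x hx1.1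
        refine ⟨hF, hb, hx1.2, ?_⟩
        intro j k
        have g1 := hM i j i k
        push_cast at g1
        have g2 : ((SS x i k : ℤ) : ℝ) * ((SS x j i : ℤ) : ℝ) =
            ((SS x i j : ℤ) : ℝ) * ((SS x i k : ℤ) : ℝ) := by
          have : SS x j i = SS x i j := Mf_SS.sym x j i
          rw [this]
          ring
        rw [g2] at g1
        exact g1
      · refine le_trans ?_ hNc
        exact_mod_cast Finset.card_le_card (Finset.image_subset_image (Finset.filter_subset _ _)))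
    have e1 : Y ^ (4 + ε / 2) * Y ^ (ε / 2) * Y ^ 4 = Y ^ (8 + ε) := by
      rw [← Real.rpow_natCast Y 4, ← Real.rpow_add hY0, ← Real.rpow_add hY0]
      congr 1
      push_cast
      ring
    have e2 : (p * Y + n) ^ 4 = (p + n / Y) ^ 4 * Y ^ 4 := by
      rw [← mul_pow]
      congr 1
      field_simp
    have e3 : 0 ≤ C1 * 16 * R := by positivity
    calc (S.card : ℝ) ≤ 4 * (C2 * (2 * K) ^ 8 * Y ^ (4 + ε / 2) * (p * Y + n) ^ 4 *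
          (c ^ 22 * Y ^ (ε / 2) * (n : ℝ) ^ 4) / (n : ℝ) ^ 8) := key
      _ = 4 * C2 * 2 ^ 8 * c ^ 22 * (K ^ 8 * (Y ^ (4 + ε / 2) * Y ^ (ε / 2) * Y ^ 4) * (p + n / Y) ^ 4 /
          (n : ℝ) ^ 4) := by
          rw [e2]; field_simp
      _ = 4 * C2 * 2 ^ 8 * c ^ 22 * R := by rw [e1, hR]
      _ ≤ (C1 * 16 + 4 * C2 * 2 ^ 8 * c ^ 22) * R := by linarith
      _ = _ := by rw [hR]; ring
  · push Not at hsm
    have g1 := h1 Y hY n hn hnY S (fun x hx => ⟨(hS x hx).2.1, (hS x hx).1, (hS x hx).2.2.2.1⟩)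
    have g2 : (1 : ℝ) ≤ 16 * K ^ 8 * (p + n / Y) ^ 4 := by
      have g3 : 1 ≤ 2 * K ^ 2 * (p + n / Y) := by
        have g4 : 2 * K ^ 2 * p ≤ 2 * K ^ 2 * (p + n / Y) :=
          mul_le_mul_of_nonneg_left (by linarith) (by positivity)
        linarith
      have g5 : 1 ≤ (2 * K ^ 2 * (p + n / Y)) ^ 4 := one_le_pow₀ g3
      have g6 : (2 * K ^ 2 * (p + n / Y)) ^ 4 = 16 * K ^ 8 * (p + n / Y) ^ 4 := by ring
      linarith
    have e4 : 0 ≤ 4 * C2 * 2 ^ 8 * c ^ 22 * R := by positivity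
    calc (S.card : ℝ) ≤ C1 * Y ^ (8 + ε) * (1 / (n : ℝ) ^ 4) := g1
      _ = C1 * Y ^ (8 + ε) * (1 / (n : ℝ) ^ 4) * 1 := by ring
      _ ≤ C1 * Y ^ (8 + ε) * (1 / (n : ℝ) ^ 4) * (16 * K ^ 8 * (p + n / Y) ^ 4) :=
          mul_le_mul_of_nonneg_left g2 (by positivity)
      _ = C1 * 16 * R := by rw [hR]; ring
      _ ≤ (C1 * 16 + 4 * C2 * 2 ^ 8 * c ^ 22) * R := by linarith
      _ = _ := by rw [hR]; ring

/-- (CA), moduli `n ≤ Y` -/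
theorem ca_small {ε : ℝ} (hε : 0 < ε) : ∃ C : ℝ, 1 ≤ C ∧ ∀ Y K Q : ℝ, 1 ≤ Y → 1 ≤ K → 1 ≤ Q →
    ∀ S : Finset (Fin 10 → ℤ),
    (∀ x ∈ S, FF x = 0 ∧ (∀ j, |(x j : ℝ)| ≤ Y) ∧ (∃ j, Y ≤ K * |(x j : ℝ)|) ∧
      ∃ n : ℕ, 0 < n ∧ (n : ℝ) ≤ Y ∧ SK n x ∧
      ∀ i i' j j', |((SS x i j * SS x i' j' - SS x i j' * SS x i' j : ℤ) : ℝ)| ≤ (n : ℝ) / Q * Y ^ 2) →
    (S.card : ℝ) ≤ C * K ^ 8 * Y ^ (8 + ε) * (1 / Q ^ 3 + 1 / Y ^ 3) := by
  classical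
  obtain ⟨C1, hC1, h1⟩ := sr_count hε
  obtain ⟨C2, hC2, h2⟩ := sk_card hε
  refine ⟨19 * (C1 + C2), by linarith, fun Y K Q hY hK hQ S hS => ?_⟩
  have hY0 : 0 < Y := by linarith
  have hQ0 : 0 < Q := by linarith
  have hK8 : (1 : ℝ) ≤ K ^ 8 := one_le_pow₀ hK
  have hA : (0 : ℝ) ≤ (C1 + C2) * K ^ 8 * Y ^ (8 + ε) := by positivity
  have key := jsum S (fun n x => SK n x ∧ ∀ i i' j j',
      |((SS x i j * SS x i' j' - SS x i j' * SS x i' j : ℤ) : ℝ)| ≤ (n : ℝ) / Q * Y ^ 2)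
    (A := (C1 + C2) * K ^ 8 * Y ^ (8 + ε)) hA hY hQ ?_ ?_ ?_
  · calc (S.card : ℝ) ≤ _ := key
      _ = _ := by ring
  · intro n hn hnY hnQ
    have hn0 : (0 : ℝ) < n := by exact_mod_cast hn
    have g1 := h1 Y K ((n : ℝ) / Q) hY hK (by positivity) n hn hnY
      (S.filter fun x => SK n x ∧ ∀ i i' j j',
      |((SS x i j * SS x i' j' - SS x i j' * SS x i' j : ℤ) : ℝ)| ≤ (n : ℝ) / Q * Y ^ 2) (by
      intro x hx
      obtain ⟨hx1, hx2, hx3⟩ := Finset.mem_filter.1 hx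
      obtain ⟨a, b, c, _⟩ := hS x hx1
      exact ⟨a, b, c, hx2, hx3⟩)
    have e1 : C1 * K ^ 8 * Y ^ (8 + ε) * ((n : ℝ) / Q + n / Y) ^ 4 / (n : ℝ) ^ 4 =
        C1 * K ^ 8 * Y ^ (8 + ε) * (1 / Q + 1 / Y) ^ 4 := by
      have : (n : ℝ) / Q + n / Y = n * (1 / Q + 1 / Y) := by ring
      rw [this, mul_pow]
      field_simp
    rw [e1] at g1
    refine g1.trans ?_
    have : C1 * K ^ 8 * Y ^ (8 + ε) ≤ (C1 + C2) * K ^ 8 * Y ^ (8 + ε) := by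
      have : 0 ≤ C2 * K ^ 8 * Y ^ (8 + ε) := by positivity
      nlinarith
    exact mul_le_mul_of_nonneg_right this (by positivity)
  · intro n hn hnY hnQ
    have hn0 : (0 : ℝ) < n := by exact_mod_cast hn
    have g1 := h2 Y hY n hn hnY (S.filter fun x => SK n x ∧ ∀ i i' j j',
      |((SS x i j * SS x i' j' - SS x i j' * SS x i' j : ℤ) : ℝ)| ≤ (n : ℝ) / Q * Y ^ 2) (by
      intro x hx
      obtain ⟨hx1, hx2, hx3⟩ := Finset.mem_filter.1 hx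
      obtain ⟨a, b, c, _⟩ := hS x hx1
      exact ⟨b, a, hx2⟩)
    refine g1.trans ?_
    have : C2 * Y ^ (8 + ε) ≤ (C1 + C2) * K ^ 8 * Y ^ (8 + ε) := by
      have h3 : C2 * 1 ≤ (C1 + C2) * K ^ 8 :=
        mul_le_mul (by linarith) hK8 (by norm_num) (by linarith)
      have h4 : 0 ≤ Y ^ (8 + ε) := by positivity
      nlinarith
    exact mul_le_mul_of_nonneg_right this (by positivity)
  · intro x hx
    obtain ⟨_, _, _, n, hn, hnY, hR, hM⟩ := hS x hx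
    exact ⟨n, hn, hnY, hR, hM⟩

end Pool.Agent.PP5T
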