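import Pool.Agent.PP5T.Jna

/-!
# PP5 (D'): joint counts for a modulus and a real size, all moduli

The tails `n > Y` are the hypotheses `hT` (helper20's `tail_R`, `tail_S`).
-/

set_option autoImplicit false

namespace Pool.Agent.PP5T

open Matrix Pool.Agent.PP5L Pool.Agent.PP5K

/-- (CK) from the tail bound -/
theorem ck_of (hT : ∀ {e : ℝ}, 0 < e → ∃ C : ℝ, 1 ≤ C ∧ ∀ Y : ℝ, 1 ≤ Y → ∀ S : Finset (Fin 10 → ℤ),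
      (∀ x ∈ S, (∀ j, |(x j : ℝ)| ≤ Y) ∧ ∃ n : ℕ, Y < (n : ℝ) ∧ RK (n : ℤ) x) →
      (S.card : ℝ) ≤ C * Y ^ (5 + e)) {ε : ℝ} (hε : 0 < ε) :
    ∃ C : ℝ, 1 ≤ C ∧ ∀ Y K Q : ℝ, 1 ≤ Y → 1 ≤ K → 1 ≤ Q → ∀ S : Finset (Fin 10 → ℤ),
    (∀ x ∈ S, FF x = 0 ∧ (∀ j, |(x j : ℝ)| ≤ Y) ∧ (∃ j, Y ≤ K * |(x j : ℝ)|) ∧
      ∃ n : ℕ, 0 < n ∧ RK n x ∧ Mn x ((n : ℝ) / Q * Y ^ 4)) →
    (S.card : ℝ) ≤ C * K ^ 64 * Y ^ (8 + ε) * (1 / Q ^ 3 + 1 / Y ^ 3) := by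
  classical
  obtain ⟨C1, hC1, h1⟩ := ck_small hε
  obtain ⟨C2, hC2, h2⟩ := hT hε
  refine ⟨C1 + C2, by linarith, fun Y K Q hY hK hQ S hS => ?_⟩
  have hY0 : 0 < Y := by linarith
  have hQ0 : 0 < Q := by linarith
  have hK64 : (1 : ℝ) ≤ K ^ 64 := one_le_pow₀ hK
  set Sa := S.filter (fun x => ∃ n : ℕ, 0 < n ∧ (n : ℝ) ≤ Y ∧ RK n x ∧ Mn x ((n : ℝ) / Q * Y ^ 4)) with hSa
  set Sb := S.filter (fun x => ∃ n : ℕ, Y < (n : ℝ) ∧ RK n x) with hSb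
  have hsub : S ⊆ Sa ∪ Sb := by
    intro x hx
    obtain ⟨_, _, _, n, hn, hR, hM⟩ := hS x hx
    by_cases hnY : (n : ℝ) ≤ Y
    · exact Finset.mem_union_left _ (Finset.mem_filter.2 ⟨hx, n, hn, hnY, hR, hM⟩)
    · exact Finset.mem_union_right _ (Finset.mem_filter.2 ⟨hx, n, not_le.1 hnY, hR⟩)
  have hc : (S.card : ℝ) ≤ Sa.card + Sb.card := by
    exact_mod_cast (Finset.card_le_card hsub).trans (Finset.card_union_le _ _)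
  have ha := h1 Y K Q hY hK hQ Sa (fun x hx => by
    obtain ⟨a, b⟩ := Finset.mem_filter.1 hx
    obtain ⟨f1, f2, f3, _⟩ := hS x a
    exact ⟨f1, f2, f3, b⟩)
  have hb := h2 Y hY Sb (fun x hx => by
    obtain ⟨a, b⟩ := Finset.mem_filter.1 hx
    exact ⟨(hS x a).2.1, b⟩)
  have e1 : Y ^ (5 + ε) = Y ^ (8 + ε) * (1 / Y ^ 3) := by
    rw [show (8 + ε : ℝ) = (5 + ε) + 3 by ring, Real.rpow_add hY0 (5 + ε) 3]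
    have : Y ^ (3 : ℝ) = Y ^ 3 := by rw [← Real.rpow_natCast Y 3]; norm_num
    rw [this]
    field_simp
  rw [e1] at hb
  have p1 : 0 ≤ Y ^ (8 + ε) * (1 / Q ^ 3) := by positivity
  have p2 : 0 ≤ Y ^ (8 + ε) * (1 / Y ^ 3) := by positivity
  have hb' : (Sb.card : ℝ) ≤ C2 * K ^ 64 * (Y ^ (8 + ε) * (1 / Y ^ 3)) := by
    refine hb.trans (mul_le_mul_of_nonneg_right ?_ p2)
    nlinarith
  have p3 : 0 ≤ C2 * K ^ 64 * (Y ^ (8 + ε) * (1 / Q ^ 3)) := by positivity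
  calc (S.card : ℝ) ≤ C1 * K ^ 64 * Y ^ (8 + ε) * (1 / Q ^ 3 + 1 / Y ^ 3) +
        C2 * K ^ 64 * (Y ^ (8 + ε) * (1 / Y ^ 3)) := by linarith
    _ ≤ C1 * K ^ 64 * Y ^ (8 + ε) * (1 / Q ^ 3 + 1 / Y ^ 3) +
        C2 * K ^ 64 * (Y ^ (8 + ε) * (1 / Y ^ 3)) + C2 * K ^ 64 * (Y ^ (8 + ε) * (1 / Q ^ 3)) := by linarith
    _ = _ := by ring

/-- (CA) from the tail bound -/
theorem ca_of (hT : ∀ {e : ℝ}, 0 < e → ∃ C : ℝ, 1 ≤ C ∧ ∀ Y : ℝ, 1 ≤ Y → ∀ S : Finset (Fin 10 → ℤ),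
      (∀ x ∈ S, (∀ j, |(x j : ℝ)| ≤ Y) ∧ ∃ n : ℕ, Y < (n : ℝ) ∧ SK (n : ℤ) x) →
      (S.card : ℝ) ≤ C * Y ^ (5 + e)) {ε : ℝ} (hε : 0 < ε) :
    ∃ C : ℝ, 1 ≤ C ∧ ∀ Y K Q : ℝ, 1 ≤ Y → 1 ≤ K → 1 ≤ Q → ∀ S : Finset (Fin 10 → ℤ),
    (∀ x ∈ S, FF x = 0 ∧ (∀ j, |(x j : ℝ)| ≤ Y) ∧ (∃ j, Y ≤ K * |(x j : ℝ)|) ∧
      (∀ p : ℕ, p.Prime → ∃ j, ¬ (p : ℤ) ∣ x j) ∧
      ∃ n : ℕ, 0 < n ∧ (∀ i j k l, (n : ℤ) ∣ SS x i k * SS x j l - SS x i l * SS x j k) ∧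
      ∀ i i' j j', |((SS x i j * SS x i' j' - SS x i j' * SS x i' j : ℤ) : ℝ)| ≤ (n : ℝ) / Q * Y ^ 2) →
    (S.card : ℝ) ≤ C * K ^ 8 * Y ^ (8 + ε) * (1 / Q ^ 3 + 1 / Y ^ 3) := by
  classical
  obtain ⟨C1, hC1, h1⟩ := ca_small hε
  obtain ⟨C2, hC2, h2⟩ := hT hε
  obtain ⟨C3, hC3, h3⟩ := sk_card hε
  refine ⟨64 * C1 + C2 + 64 * C3, by linarith, fun Y K Q hY hK hQ S hS => ?_⟩
  have hY0 : 0 < Y := by linarith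
  have hQ0 : 0 < Q := by linarith
  have hK8 : (1 : ℝ) ≤ K ^ 8 := one_le_pow₀ hK
  have p1 : 0 ≤ Y ^ (8 + ε) * (1 / Q ^ 3) := by positivity
  have p2 : 0 ≤ Y ^ (8 + ε) * (1 / Y ^ 3) := by positivity
  by_cases hQ4 : Q < 4
  · have g1 := h3 Y hY 1 one_pos (by simpa using hY) S (fun x hx => ⟨(hS x hx).2.1, (hS x hx).1, by
      refine ⟨fun p pp hp => ?_, fun i j k => ?_⟩
      · have h3 := Int.natCast_dvd_natCast.1 hp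
        exact absurd (Nat.dvd_one.1 h3) pp.one_lt.ne'
      · simp⟩)
    have g2 : 1 ≤ 64 * (1 / Q ^ 3) := by
      have : Q ^ 3 ≤ 4 ^ 3 := pow_le_pow_left₀ hQ0.le hQ4.le 3
      rw [mul_one_div, le_div_iff₀ (by positivity)]
      linarith
    have g3 : (1 : ℝ) / ((1 : ℕ) : ℝ) ^ 4 = 1 := by norm_num
    rw [g3, mul_one] at g1
    have p3 : 0 ≤ Y ^ (8 + ε) := by positivity
    have g4 : 1 ≤ 64 * K ^ 8 * (1 / Q ^ 3 + 1 / Y ^ 3) := by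
      have a1 : 0 ≤ 1 / Y ^ 3 := by positivity
      have a2 : 1 ≤ 64 * (1 / Q ^ 3 + 1 / Y ^ 3) := by linarith
      calc (1 : ℝ) ≤ 64 * (1 / Q ^ 3 + 1 / Y ^ 3) := a2
        _ = 1 * (64 * (1 / Q ^ 3 + 1 / Y ^ 3)) := by ring
        _ ≤ K ^ 8 * (64 * (1 / Q ^ 3 + 1 / Y ^ 3)) := mul_le_mul_of_nonneg_right hK8 (by positivity)
        _ = _ := by ring
    calc (S.card : ℝ) ≤ C3 * Y ^ (8 + ε) := g1
      _ = C3 * Y ^ (8 + ε) * 1 := by ring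
      _ ≤ C3 * Y ^ (8 + ε) * (64 * K ^ 8 * (1 / Q ^ 3 + 1 / Y ^ 3)) :=
          mul_le_mul_of_nonneg_left g4 (by positivity)
      _ = 64 * C3 * (K ^ 8 * Y ^ (8 + ε) * (1 / Q ^ 3 + 1 / Y ^ 3)) := by ring
      _ ≤ (64 * C1 + C2 + 64 * C3) * (K ^ 8 * Y ^ (8 + ε) * (1 / Q ^ 3 + 1 / Y ^ 3)) :=
          mul_le_mul_of_nonneg_right (by linarith) (by positivity)
      _ = _ := by ring
  push Not at hQ4
  set Sa := S.filter (fun x => ∃ n : ℕ, 0 < n ∧ (n : ℝ) ≤ Y ∧ SK n x ∧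
      ∀ i i' j j', |((SS x i j * SS x i' j' - SS x i j' * SS x i' j : ℤ) : ℝ)| ≤
        (n : ℝ) / (Q / 4) * Y ^ 2) with hSa
  set Sb := S.filter (fun x => ∃ n : ℕ, Y < (n : ℝ) ∧ SK n x) with hSb
  have hsub : S ⊆ Sa ∪ Sb := by
    intro x hx
    obtain ⟨_, _, _, hp, n, hn, hd, hM⟩ := hS x hx
    obtain ⟨m, hmn, hnm, hk⟩ := SK_of hp hn.ne' hd
    have hm0 : 0 < m := by omega
    by_cases hmY : (m : ℝ) ≤ Y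
    · refine Finset.mem_union_left _ (Finset.mem_filter.2 ⟨hx, m, hm0, hmY, hk, ?_⟩)
      intro i i' j j'
      refine (hM i i' j j').trans (mul_le_mul_of_nonneg_right ?_ (by positivity))
      have h4 : (n : ℝ) ≤ 4 * m := by exact_mod_cast hnm
      calc (n : ℝ) / Q ≤ 4 * m / Q := div_le_div_of_nonneg_right h4 hQ0.le
        _ = _ := by field_simp
    · exact Finset.mem_union_right _ (Finset.mem_filter.2 ⟨hx, m, not_le.1 hmY, hk⟩)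
  have hc : (S.card : ℝ) ≤ Sa.card + Sb.card := by
    exact_mod_cast (Finset.card_le_card hsub).trans (Finset.card_union_le _ _)
  have ha := h1 Y K (Q / 4) hY hK (by linarith) Sa (fun x hx => by
    obtain ⟨a, b⟩ := Finset.mem_filter.1 hx
    obtain ⟨f1, f2, f3, _⟩ := hS x a
    exact ⟨f1, f2, f3, b⟩)
  have hb := h2 Y hY Sb (fun x hx => by
    obtain ⟨a, b⟩ := Finset.mem_filter.1 hx
    exact ⟨(hS x a).2.1, b⟩)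
  have e1 : Y ^ (5 + ε) = Y ^ (8 + ε) * (1 / Y ^ 3) := by
    rw [show (8 + ε : ℝ) = (5 + ε) + 3 by ring, Real.rpow_add hY0 (5 + ε) 3]
    have : Y ^ (3 : ℝ) = Y ^ 3 := by rw [← Real.rpow_natCast Y 3]; norm_num
    rw [this]
    field_simp
  rw [e1] at hb
  have e2 : 1 / (Q / 4) ^ 3 = 64 * (1 / Q ^ 3) := by field_simp; norm_num
  rw [e2] at ha
  have hb' : (Sb.card : ℝ) ≤ C2 * K ^ 8 * (Y ^ (8 + ε) * (1 / Y ^ 3)) := by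
    refine hb.trans (mul_le_mul_of_nonneg_right ?_ p2)
    nlinarith
  have p3 : 0 ≤ C2 * K ^ 8 * (Y ^ (8 + ε) * (1 / Q ^ 3)) := by positivity
  have p4 : 0 ≤ C1 * K ^ 8 * (Y ^ (8 + ε) * (1 / Y ^ 3)) := by positivity
  have p5 : 0 ≤ C3 * K ^ 8 * (Y ^ (8 + ε) * (1 / Q ^ 3 + 1 / Y ^ 3)) := by positivity
  calc (S.card : ℝ) ≤ C1 * K ^ 8 * Y ^ (8 + ε) * (64 * (1 / Q ^ 3) + 1 / Y ^ 3) +
        C2 * K ^ 8 * (Y ^ (8 + ε) * (1 / Y ^ 3)) := by linarith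
    _ ≤ C1 * K ^ 8 * Y ^ (8 + ε) * (64 * (1 / Q ^ 3) + 1 / Y ^ 3) +
        C2 * K ^ 8 * (Y ^ (8 + ε) * (1 / Y ^ 3)) + C2 * K ^ 8 * (Y ^ (8 + ε) * (1 / Q ^ 3)) +
        63 * (C1 * K ^ 8 * (Y ^ (8 + ε) * (1 / Y ^ 3))) +
        64 * (C3 * K ^ 8 * (Y ^ (8 + ε) * (1 / Q ^ 3 + 1 / Y ^ 3))) := by linarith
    _ = _ := by ring

end Pool.Agent.PP5T
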