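import Pool.Agent.PP5K.Kc

/-!
# PP5 (D'), (N5): the relations of PP5K.Kb for sizes
-/

set_option autoImplicit false

namespace Pool.Agent.PP5T

open Matrix Pool.Agent.PP5L Pool.Agent.PP5K

theorem ra_011 {x : Fin 10 → ℤ} (hF : FF x = 0) {b : ℤ} (hk : ∀ c : Fin 4 → Fin 16, |(Matrix.of fun i a => HP x (rho i) (c a)).det| ≤ b) :
    |(x 0) ^ 2 * (4 * x 0 * x 2 - x 4 * x 4 - 2 * x 4 * x 5 - x 5 * x 5)| ≤ 20 * b := by
  have e : (x 0) ^ 2 * (4 * x 0 * x 2 - x 4 * x 4 - 2 * x 4 * x 5 - x 5 * x 5) =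
      (1) * (Matrix.of fun i a => HP x (rho i) ((![0, 1, 3, 8] : Fin 4 → Fin 16) a)).det +
      (1) * (Matrix.of fun i a => HP x (rho i) ((![0, 3, 6, 10] : Fin 4 → Fin 16) a)).det +
      (1) * (Matrix.of fun i a => HP x (rho i) ((![0, 8, 10, 15] : Fin 4 → Fin 16) a)).det +
      (3) * (Matrix.of fun i a => HP x (rho i) ((![0, 3, 4, 7] : Fin 4 → Fin 16) a)).det +
      (1) * (Matrix.of fun i a => HP x (rho i) ((![3, 8, 14, 15] : Fin 4 → Fin 16) a)).det +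
      (2) * (Matrix.of fun i a => HP x (rho i) ((![0, 3, 4, 15] : Fin 4 → Fin 16) a)).det +
      (1) * (Matrix.of fun i a => HP x (rho i) ((![3, 4, 5, 8] : Fin 4 → Fin 16) a)).det +
      (2) * (Matrix.of fun i a => HP x (rho i) ((![3, 4, 8, 13] : Fin 4 → Fin 16) a)).det +
      (1) * (Matrix.of fun i a => HP x (rho i) ((![3, 8, 12, 13] : Fin 4 → Fin 16) a)).det := by
    simp only [mdet, det4]
    simp only [NM, FF, Matrix.of_apply, Matrix.cons_val]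
    ring
  have h0 := abs_le.1 (hk ![0, 1, 3, 8])
  have h1 := abs_le.1 (hk ![0, 3, 6, 10])
  have h2 := abs_le.1 (hk ![0, 8, 10, 15])
  have h3 := abs_le.1 (hk ![0, 3, 4, 7])
  have h4 := abs_le.1 (hk ![3, 8, 14, 15])
  have h5 := abs_le.1 (hk ![0, 3, 4, 15])
  have h6 := abs_le.1 (hk ![3, 4, 5, 8])
  have h7 := abs_le.1 (hk ![3, 4, 8, 13])
  have h8 := abs_le.1 (hk ![3, 8, 12, 13])
  have hb : 0 ≤ b := (abs_nonneg _).trans (hk ![0, 0, 0, 0])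
  rw [e, abs_le]
  constructor <;> linarith [h0.1, h0.2, h1.1, h1.2, h2.1, h2.2, h3.1, h3.2, h4.1, h4.2, h5.1, h5.2, h6.1, h6.2, h7.1, h7.2, h8.1, h8.2]

theorem ra_012 {x : Fin 10 → ℤ} (hF : FF x = 0) {b : ℤ} (hk : ∀ c : Fin 4 → Fin 16, |(Matrix.of fun i a => HP x (rho i) (c a)).det| ≤ b) :
    |(x 0) ^ 2 * (2 * x 0 * x 7 - x 4 * x 6 - x 5 * x 6)| ≤ 20 * b := by
  have e : (x 0) ^ 2 * (2 * x 0 * x 7 - x 4 * x 6 - x 5 * x 6) =
      (1) * (Matrix.of fun i a => HP x (rho i) ((![0, 3, 8, 15] : Fin 4 → Fin 16) a)).det +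
      (-2) * (Matrix.of fun i a => HP x (rho i) ((![3, 4, 8, 14] : Fin 4 → Fin 16) a)).det +
      (1) * (Matrix.of fun i a => HP x (rho i) ((![0, 3, 4, 12] : Fin 4 → Fin 16) a)).det := by
    simp only [mdet, det4]
    simp only [NM, FF, Matrix.of_apply, Matrix.cons_val]
    ring
  have h0 := abs_le.1 (hk ![0, 3, 8, 15])
  have h1 := abs_le.1 (hk ![3, 4, 8, 14])
  have h2 := abs_le.1 (hk ![0, 3, 4, 12])
  have hb : 0 ≤ b := (abs_nonneg _).trans (hk ![0, 0, 0, 0])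
  rw [e, abs_le]
  constructor <;> linarith [h0.1, h0.2, h1.1, h1.2, h2.1, h2.2]

theorem ra_013 {x : Fin 10 → ℤ} (hF : FF x = 0) {b : ℤ} (hk : ∀ c : Fin 4 → Fin 16, |(Matrix.of fun i a => HP x (rho i) (c a)).det| ≤ b) :
    |(x 0) ^ 2 * (2 * x 0 * x 9 - x 4 * x 8 - x 5 * x 8)| ≤ 20 * b := by
  have e : (x 0) ^ 2 * (2 * x 0 * x 9 - x 4 * x 8 - x 5 * x 8) =
      (1) * (Matrix.of fun i a => HP x (rho i) ((![0, 3, 4, 10] : Fin 4 → Fin 16) a)).det +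
      (2) * (Matrix.of fun i a => HP x (rho i) ((![3, 4, 7, 8] : Fin 4 → Fin 16) a)).det +
      (-1) * (Matrix.of fun i a => HP x (rho i) ((![3, 4, 8, 15] : Fin 4 → Fin 16) a)).det := by
    simp only [mdet, det4]
    simp only [NM, FF, Matrix.of_apply, Matrix.cons_val]
    ring
  have h0 := abs_le.1 (hk ![0, 3, 4, 10])
  have h1 := abs_le.1 (hk ![3, 4, 7, 8])
  have h2 := abs_le.1 (hk ![3, 4, 8, 15])
  have hb : 0 ≤ b := (abs_nonneg _).trans (hk ![0, 0, 0, 0])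
  rw [e, abs_le]
  constructor <;> linarith [h0.1, h0.2, h1.1, h1.2, h2.1, h2.2]

theorem ra_022 {x : Fin 10 → ℤ} (hF : FF x = 0) {b : ℤ} (hk : ∀ c : Fin 4 → Fin 16, |(Matrix.of fun i a => HP x (rho i) (c a)).det| ≤ b) :
    |(x 0) ^ 2 * (x 0 * x 1 - x 6 * x 6)| ≤ 20 * b := by
  have e : (x 0) ^ 2 * (x 0 * x 1 - x 6 * x 6) =
      (-1) * (Matrix.of fun i a => HP x (rho i) ((![0, 3, 4, 8] : Fin 4 → Fin 16) a)).det := by
    simp only [mdet, det4]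
    simp only [NM, FF, Matrix.of_apply, Matrix.cons_val]
    ring
  have h0 := abs_le.1 (hk ![0, 3, 4, 8])
  have hb : 0 ≤ b := (abs_nonneg _).trans (hk ![0, 0, 0, 0])
  rw [e, abs_le]
  constructor <;> linarith [h0.1, h0.2]

theorem ra_023 {x : Fin 10 → ℤ} (hF : FF x = 0) {b : ℤ} (hk : ∀ c : Fin 4 → Fin 16, |(Matrix.of fun i a => HP x (rho i) (c a)).det| ≤ b) :
    |(x 0) ^ 2 * (x 0 * x 4 - x 0 * x 5 - 2 * x 6 * x 8)| ≤ 20 * b := by
  have e : (x 0) ^ 2 * (x 0 * x 4 - x 0 * x 5 - 2 * x 6 * x 8) =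
      (1) * (Matrix.of fun i a => HP x (rho i) ((![3, 4, 8, 12] : Fin 4 → Fin 16) a)).det := by
    simp only [mdet, det4]
    simp only [NM, FF, Matrix.of_apply, Matrix.cons_val]
    ring
  have h0 := abs_le.1 (hk ![3, 4, 8, 12])
  have hb : 0 ≤ b := (abs_nonneg _).trans (hk ![0, 0, 0, 0])
  rw [e, abs_le]
  constructor <;> linarith [h0.1, h0.2]

theorem ra_033 {x : Fin 10 → ℤ} (hF : FF x = 0) {b : ℤ} (hk : ∀ c : Fin 4 → Fin 16, |(Matrix.of fun i a => HP x (rho i) (c a)).det| ≤ b) :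
    |(x 0) ^ 2 * (x 0 * x 3 - x 8 * x 8)| ≤ 20 * b := by
  have e : (x 0) ^ 2 * (x 0 * x 3 - x 8 * x 8) =
      (1) * (Matrix.of fun i a => HP x (rho i) ((![3, 4, 8, 10] : Fin 4 → Fin 16) a)).det := by
    simp only [mdet, det4]
    simp only [NM, FF, Matrix.of_apply, Matrix.cons_val]
    ring
  have h0 := abs_le.1 (hk ![3, 4, 8, 10])
  have hb : 0 ≤ b := (abs_nonneg _).trans (hk ![0, 0, 0, 0])
  rw [e, abs_le]
  constructor <;> linarith [h0.1, h0.2]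

theorem ra_100 {x : Fin 10 → ℤ} (hF : FF x = 0) {b : ℤ} (hk : ∀ c : Fin 4 → Fin 16, |(Matrix.of fun i a => HP x (rho i) (c a)).det| ≤ b) :
    |(x 2) ^ 2 * (4 * x 0 * x 2 - x 4 * x 4 - 2 * x 4 * x 5 - x 5 * x 5)| ≤ 20 * b := by
  have e : (x 2) ^ 2 * (4 * x 0 * x 2 - x 4 * x 4 - 2 * x 4 * x 5 - x 5 * x 5) =
      (1) * (Matrix.of fun i a => HP x (rho i) ((![0, 1, 2, 9] : Fin 4 → Fin 16) a)).det +
      (-1) * (Matrix.of fun i a => HP x (rho i) ((![1, 2, 7, 11] : Fin 4 → Fin 16) a)).det +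
      (-1) * (Matrix.of fun i a => HP x (rho i) ((![1, 9, 11, 14] : Fin 4 → Fin 16) a)).det +
      (1) * (Matrix.of fun i a => HP x (rho i) ((![1, 2, 5, 6] : Fin 4 → Fin 16) a)).det +
      (-3) * (Matrix.of fun i a => HP x (rho i) ((![2, 9, 14, 15] : Fin 4 → Fin 16) a)).det +
      (2) * (Matrix.of fun i a => HP x (rho i) ((![1, 2, 5, 14] : Fin 4 → Fin 16) a)).det +
      (-1) * (Matrix.of fun i a => HP x (rho i) ((![2, 4, 5, 9] : Fin 4 → Fin 16) a)).det +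
      (-2) * (Matrix.of fun i a => HP x (rho i) ((![2, 4, 9, 13] : Fin 4 → Fin 16) a)).det +
      (-1) * (Matrix.of fun i a => HP x (rho i) ((![2, 9, 12, 13] : Fin 4 → Fin 16) a)).det := by
    simp only [mdet, det4]
    simp only [NM, FF, Matrix.of_apply, Matrix.cons_val]
    ring
  have h0 := abs_le.1 (hk ![0, 1, 2, 9])
  have h1 := abs_le.1 (hk ![1, 2, 7, 11])
  have h2 := abs_le.1 (hk ![1, 9, 11, 14])
  have h3 := abs_le.1 (hk ![1, 2, 5, 6])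
  have h4 := abs_le.1 (hk ![2, 9, 14, 15])
  have h5 := abs_le.1 (hk ![1, 2, 5, 14])
  have h6 := abs_le.1 (hk ![2, 4, 5, 9])
  have h7 := abs_le.1 (hk ![2, 4, 9, 13])
  have h8 := abs_le.1 (hk ![2, 9, 12, 13])
  have hb : 0 ≤ b := (abs_nonneg _).trans (hk ![0, 0, 0, 0])
  rw [e, abs_le]
  constructor <;> linarith [h0.1, h0.2, h1.1, h1.2, h2.1, h2.2, h3.1, h3.2, h4.1, h4.2, h5.1, h5.2, h6.1, h6.2, h7.1, h7.2, h8.1, h8.2]

theorem ra_102 {x : Fin 10 → ℤ} (hF : FF x = 0) {b : ℤ} (hk : ∀ c : Fin 4 → Fin 16, |(Matrix.of fun i a => HP x (rho i) (c a)).det| ≤ b) :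
    |(x 2) ^ 2 * (2 * x 2 * x 6 - x 4 * x 7 - x 5 * x 7)| ≤ 20 * b := by
  have e : (x 2) ^ 2 * (2 * x 2 * x 6 - x 4 * x 7 - x 5 * x 7) =
      (1) * (Matrix.of fun i a => HP x (rho i) ((![1, 2, 5, 11] : Fin 4 → Fin 16) a)).det +
      (2) * (Matrix.of fun i a => HP x (rho i) ((![2, 5, 6, 9] : Fin 4 → Fin 16) a)).det +
      (-1) * (Matrix.of fun i a => HP x (rho i) ((![2, 5, 9, 14] : Fin 4 → Fin 16) a)).det := by
    simp only [mdet, det4]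
    simp only [NM, FF, Matrix.of_apply, Matrix.cons_val]
    ring
  have h0 := abs_le.1 (hk ![1, 2, 5, 11])
  have h1 := abs_le.1 (hk ![2, 5, 6, 9])
  have h2 := abs_le.1 (hk ![2, 5, 9, 14])
  have hb : 0 ≤ b := (abs_nonneg _).trans (hk ![0, 0, 0, 0])
  rw [e, abs_le]
  constructor <;> linarith [h0.1, h0.2, h1.1, h1.2, h2.1, h2.2]

theorem ra_103 {x : Fin 10 → ℤ} (hF : FF x = 0) {b : ℤ} (hk : ∀ c : Fin 4 → Fin 16, |(Matrix.of fun i a => HP x (rho i) (c a)).det| ≤ b) :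
    |(x 2) ^ 2 * (2 * x 2 * x 8 - x 4 * x 9 - x 5 * x 9)| ≤ 20 * b := by
  have e : (x 2) ^ 2 * (2 * x 2 * x 8 - x 4 * x 9 - x 5 * x 9) =
      (1) * (Matrix.of fun i a => HP x (rho i) ((![1, 2, 9, 14] : Fin 4 → Fin 16) a)).det +
      (-2) * (Matrix.of fun i a => HP x (rho i) ((![2, 5, 9, 15] : Fin 4 → Fin 16) a)).det +
      (1) * (Matrix.of fun i a => HP x (rho i) ((![1, 2, 5, 13] : Fin 4 → Fin 16) a)).det := by
    simp only [mdet, det4]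
    simp only [NM, FF, Matrix.of_apply, Matrix.cons_val]
    ring
  have h0 := abs_le.1 (hk ![1, 2, 9, 14])
  have h1 := abs_le.1 (hk ![2, 5, 9, 15])
  have h2 := abs_le.1 (hk ![1, 2, 5, 13])
  have hb : 0 ≤ b := (abs_nonneg _).trans (hk ![0, 0, 0, 0])
  rw [e, abs_le]
  constructor <;> linarith [h0.1, h0.2, h1.1, h1.2, h2.1, h2.2]

theorem ra_122 {x : Fin 10 → ℤ} (hF : FF x = 0) {b : ℤ} (hk : ∀ c : Fin 4 → Fin 16, |(Matrix.of fun i a => HP x (rho i) (c a)).det| ≤ b) :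
    |(x 2) ^ 2 * (x 1 * x 2 - x 7 * x 7)| ≤ 20 * b := by
  have e : (x 2) ^ 2 * (x 1 * x 2 - x 7 * x 7) =
      (1) * (Matrix.of fun i a => HP x (rho i) ((![2, 5, 9, 11] : Fin 4 → Fin 16) a)).det := by
    simp only [mdet, det4]
    simp only [NM, FF, Matrix.of_apply, Matrix.cons_val]
    ring
  have h0 := abs_le.1 (hk ![2, 5, 9, 11])
  have hb : 0 ≤ b := (abs_nonneg _).trans (hk ![0, 0, 0, 0])
  rw [e, abs_le]
  constructor <;> linarith [h0.1, h0.2]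

theorem ra_123 {x : Fin 10 → ℤ} (hF : FF x = 0) {b : ℤ} (hk : ∀ c : Fin 4 → Fin 16, |(Matrix.of fun i a => HP x (rho i) (c a)).det| ≤ b) :
    |(x 2) ^ 2 * (x 2 * x 4 - x 2 * x 5 - 2 * x 7 * x 9)| ≤ 20 * b := by
  have e : (x 2) ^ 2 * (x 2 * x 4 - x 2 * x 5 - 2 * x 7 * x 9) =
      (1) * (Matrix.of fun i a => HP x (rho i) ((![2, 5, 9, 13] : Fin 4 → Fin 16) a)).det := by
    simp only [mdet, det4]
    simp only [NM, FF, Matrix.of_apply, Matrix.cons_val]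
    ring
  have h0 := abs_le.1 (hk ![2, 5, 9, 13])
  have hb : 0 ≤ b := (abs_nonneg _).trans (hk ![0, 0, 0, 0])
  rw [e, abs_le]
  constructor <;> linarith [h0.1, h0.2]

theorem ra_133 {x : Fin 10 → ℤ} (hF : FF x = 0) {b : ℤ} (hk : ∀ c : Fin 4 → Fin 16, |(Matrix.of fun i a => HP x (rho i) (c a)).det| ≤ b) :
    |(x 2) ^ 2 * (x 2 * x 3 - x 9 * x 9)| ≤ 20 * b := by
  have e : (x 2) ^ 2 * (x 2 * x 3 - x 9 * x 9) =
      (-1) * (Matrix.of fun i a => HP x (rho i) ((![1, 2, 5, 9] : Fin 4 → Fin 16) a)).det := by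
    simp only [mdet, det4]
    simp only [NM, FF, Matrix.of_apply, Matrix.cons_val]
    ring
  have h0 := abs_le.1 (hk ![1, 2, 5, 9])
  have hb : 0 ≤ b := (abs_nonneg _).trans (hk ![0, 0, 0, 0])
  rw [e, abs_le]
  constructor <;> linarith [h0.1, h0.2]

theorem ra_200 {x : Fin 10 → ℤ} (hF : FF x = 0) {b : ℤ} (hk : ∀ c : Fin 4 → Fin 16, |(Matrix.of fun i a => HP x (rho i) (c a)).det| ≤ b) :
    |(x 1) ^ 2 * (x 0 * x 1 - x 6 * x 6)| ≤ 20 * b := by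
  have e : (x 1) ^ 2 * (x 0 * x 1 - x 6 * x 6) =
      (1) * (Matrix.of fun i a => HP x (rho i) ((![0, 6, 8, 11] : Fin 4 → Fin 16) a)).det := by
    simp only [mdet, det4]
    simp only [NM, FF, Matrix.of_apply, Matrix.cons_val]
    ring
  have h0 := abs_le.1 (hk ![0, 6, 8, 11])
  have hb : 0 ≤ b := (abs_nonneg _).trans (hk ![0, 0, 0, 0])
  rw [e, abs_le]
  constructor <;> linarith [h0.1, h0.2]

theorem ra_201 {x : Fin 10 → ℤ} (hF : FF x = 0) {b : ℤ} (hk : ∀ c : Fin 4 → Fin 16, |(Matrix.of fun i a => HP x (rho i) (c a)).det| ≤ b) :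
    |(x 1) ^ 2 * (x 1 * x 4 + x 1 * x 5 - 2 * x 6 * x 7)| ≤ 20 * b := by
  have e : (x 1) ^ 2 * (x 1 * x 4 + x 1 * x 5 - 2 * x 6 * x 7) =
      (-1) * (Matrix.of fun i a => HP x (rho i) ((![0, 6, 11, 14] : Fin 4 → Fin 16) a)).det := by
    simp only [mdet, det4]
    simp only [NM, FF, Matrix.of_apply, Matrix.cons_val]
    ring
  have h0 := abs_le.1 (hk ![0, 6, 11, 14])
  have hb : 0 ≤ b := (abs_nonneg _).trans (hk ![0, 0, 0, 0])
  rw [e, abs_le]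
  constructor <;> linarith [h0.1, h0.2]

theorem ra_203 {x : Fin 10 → ℤ} (hF : FF x = 0) {b : ℤ} (hk : ∀ c : Fin 4 → Fin 16, |(Matrix.of fun i a => HP x (rho i) (c a)).det| ≤ b) :
    |(x 1) ^ 2 * (2 * x 1 * x 8 - x 4 * x 6 + x 5 * x 6)| ≤ 20 * b := by
  have e : (x 1) ^ 2 * (2 * x 1 * x 8 - x 4 * x 6 + x 5 * x 6) =
      (1) * (Matrix.of fun i a => HP x (rho i) ((![0, 2, 6, 8] : Fin 4 → Fin 16) a)).det +
      (2) * (Matrix.of fun i a => HP x (rho i) ((![0, 4, 6, 11] : Fin 4 → Fin 16) a)).det +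
      (1) * (Matrix.of fun i a => HP x (rho i) ((![0, 6, 11, 12] : Fin 4 → Fin 16) a)).det := by
    simp only [mdet, det4]
    simp only [NM, FF, Matrix.of_apply, Matrix.cons_val]
    ring
  have h0 := abs_le.1 (hk ![0, 2, 6, 8])
  have h1 := abs_le.1 (hk ![0, 4, 6, 11])
  have h2 := abs_le.1 (hk ![0, 6, 11, 12])
  have hb : 0 ≤ b := (abs_nonneg _).trans (hk ![0, 0, 0, 0])
  rw [e, abs_le]
  constructor <;> linarith [h0.1, h0.2, h1.1, h1.2, h2.1, h2.2]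

theorem ra_211 {x : Fin 10 → ℤ} (hF : FF x = 0) {b : ℤ} (hk : ∀ c : Fin 4 → Fin 16, |(Matrix.of fun i a => HP x (rho i) (c a)).det| ≤ b) :
    |(x 1) ^ 2 * (x 1 * x 2 - x 7 * x 7)| ≤ 20 * b := by
  have e : (x 1) ^ 2 * (x 1 * x 2 - x 7 * x 7) =
      (-1) * (Matrix.of fun i a => HP x (rho i) ((![0, 2, 6, 11] : Fin 4 → Fin 16) a)).det := by
    simp only [mdet, det4]
    simp only [NM, FF, Matrix.of_apply, Matrix.cons_val]
    ring
  have h0 := abs_le.1 (hk ![0, 2, 6, 11])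
  have hb : 0 ≤ b := (abs_nonneg _).trans (hk ![0, 0, 0, 0])
  rw [e, abs_le]
  constructor <;> linarith [h0.1, h0.2]

theorem ra_213 {x : Fin 10 → ℤ} (hF : FF x = 0) {b : ℤ} (hk : ∀ c : Fin 4 → Fin 16, |(Matrix.of fun i a => HP x (rho i) (c a)).det| ≤ b) :
    |(x 1) ^ 2 * (2 * x 1 * x 9 - x 4 * x 7 + x 5 * x 7)| ≤ 20 * b := by
  have e : (x 1) ^ 2 * (2 * x 1 * x 9 - x 4 * x 7 + x 5 * x 7) =
      (1) * (Matrix.of fun i a => HP x (rho i) ((![0, 2, 11, 12] : Fin 4 → Fin 16) a)).det +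
      (2) * (Matrix.of fun i a => HP x (rho i) ((![0, 6, 11, 13] : Fin 4 → Fin 16) a)).det +
      (1) * (Matrix.of fun i a => HP x (rho i) ((![0, 2, 6, 14] : Fin 4 → Fin 16) a)).det := by
    simp only [mdet, det4]
    simp only [NM, FF, Matrix.of_apply, Matrix.cons_val]
    ring
  have h0 := abs_le.1 (hk ![0, 2, 11, 12])
  have h1 := abs_le.1 (hk ![0, 6, 11, 13])
  have h2 := abs_le.1 (hk ![0, 2, 6, 14])
  have hb : 0 ≤ b := (abs_nonneg _).trans (hk ![0, 0, 0, 0])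
  rw [e, abs_le]
  constructor <;> linarith [h0.1, h0.2, h1.1, h1.2, h2.1, h2.2]

theorem ra_233 {x : Fin 10 → ℤ} (hF : FF x = 0) {b : ℤ} (hk : ∀ c : Fin 4 → Fin 16, |(Matrix.of fun i a => HP x (rho i) (c a)).det| ≤ b) :
    |(x 1) ^ 2 * (4 * x 1 * x 3 - x 4 * x 4 + 2 * x 4 * x 5 - x 5 * x 5)| ≤ 20 * b := by
  have e : (x 1) ^ 2 * (4 * x 1 * x 3 - x 4 * x 4 + 2 * x 4 * x 5 - x 5 * x 5) =
      (-1) * (Matrix.of fun i a => HP x (rho i) ((![0, 8, 9, 11] : Fin 4 → Fin 16) a)).det +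
      (-3) * (Matrix.of fun i a => HP x (rho i) ((![0, 2, 4, 6] : Fin 4 → Fin 16) a)).det +
      (1) * (Matrix.of fun i a => HP x (rho i) ((![0, 11, 12, 13] : Fin 4 → Fin 16) a)).det +
      (2) * (Matrix.of fun i a => HP x (rho i) ((![0, 2, 6, 12] : Fin 4 → Fin 16) a)).det +
      (-1) * (Matrix.of fun i a => HP x (rho i) ((![0, 6, 7, 11] : Fin 4 → Fin 16) a)).det +
      (-2) * (Matrix.of fun i a => HP x (rho i) ((![0, 6, 11, 15] : Fin 4 → Fin 16) a)).det +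
      (-1) * (Matrix.of fun i a => HP x (rho i) ((![0, 11, 14, 15] : Fin 4 → Fin 16) a)).det := by
    simp only [mdet, det4]
    simp only [NM, FF, Matrix.of_apply, Matrix.cons_val]
    ring
  have h0 := abs_le.1 (hk ![0, 8, 9, 11])
  have h1 := abs_le.1 (hk ![0, 2, 4, 6])
  have h2 := abs_le.1 (hk ![0, 11, 12, 13])
  have h3 := abs_le.1 (hk ![0, 2, 6, 12])
  have h4 := abs_le.1 (hk ![0, 6, 7, 11])
  have h5 := abs_le.1 (hk ![0, 6, 11, 15])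
  have h6 := abs_le.1 (hk ![0, 11, 14, 15])
  have hb : 0 ≤ b := (abs_nonneg _).trans (hk ![0, 0, 0, 0])
  rw [e, abs_le]
  constructor <;> linarith [h0.1, h0.2, h1.1, h1.2, h2.1, h2.2, h3.1, h3.2, h4.1, h4.2, h5.1, h5.2, h6.1, h6.2]

theorem ra_300 {x : Fin 10 → ℤ} (hF : FF x = 0) {b : ℤ} (hk : ∀ c : Fin 4 → Fin 16, |(Matrix.of fun i a => HP x (rho i) (c a)).det| ≤ b) :
    |(x 3) ^ 2 * (x 0 * x 3 - x 8 * x 8)| ≤ 20 * b := by
  have e : (x 3) ^ 2 * (x 0 * x 3 - x 8 * x 8) =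
      (-1) * (Matrix.of fun i a => HP x (rho i) ((![1, 3, 7, 10] : Fin 4 → Fin 16) a)).det := by
    simp only [mdet, det4]
    simp only [NM, FF, Matrix.of_apply, Matrix.cons_val]
    ring
  have h0 := abs_le.1 (hk ![1, 3, 7, 10])
  have hb : 0 ≤ b := (abs_nonneg _).trans (hk ![0, 0, 0, 0])
  rw [e, abs_le]
  constructor <;> linarith [h0.1, h0.2]

theorem ra_301 {x : Fin 10 → ℤ} (hF : FF x = 0) {b : ℤ} (hk : ∀ c : Fin 4 → Fin 16, |(Matrix.of fun i a => HP x (rho i) (c a)).det| ≤ b) :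
    |(x 3) ^ 2 * (x 3 * x 4 + x 3 * x 5 - 2 * x 8 * x 9)| ≤ 20 * b := by
  have e : (x 3) ^ 2 * (x 3 * x 4 + x 3 * x 5 - 2 * x 8 * x 9) =
      (-1) * (Matrix.of fun i a => HP x (rho i) ((![1, 7, 10, 15] : Fin 4 → Fin 16) a)).det := by
    simp only [mdet, det4]
    simp only [NM, FF, Matrix.of_apply, Matrix.cons_val]
    ring
  have h0 := abs_le.1 (hk ![1, 7, 10, 15])
  have hb : 0 ≤ b := (abs_nonneg _).trans (hk ![0, 0, 0, 0])
  rw [e, abs_le]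
  constructor <;> linarith [h0.1, h0.2]

theorem ra_302 {x : Fin 10 → ℤ} (hF : FF x = 0) {b : ℤ} (hk : ∀ c : Fin 4 → Fin 16, |(Matrix.of fun i a => HP x (rho i) (c a)).det| ≤ b) :
    |(x 3) ^ 2 * (2 * x 3 * x 6 - x 4 * x 8 + x 5 * x 8)| ≤ 20 * b := by
  have e : (x 3) ^ 2 * (2 * x 3 * x 6 - x 4 * x 8 + x 5 * x 8) =
      (1) * (Matrix.of fun i a => HP x (rho i) ((![1, 3, 10, 13] : Fin 4 → Fin 16) a)).det +
      (2) * (Matrix.of fun i a => HP x (rho i) ((![1, 7, 10, 12] : Fin 4 → Fin 16) a)).det +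
      (1) * (Matrix.of fun i a => HP x (rho i) ((![1, 3, 7, 15] : Fin 4 → Fin 16) a)).det := by
    simp only [mdet, det4]
    simp only [NM, FF, Matrix.of_apply, Matrix.cons_val]
    ring
  have h0 := abs_le.1 (hk ![1, 3, 10, 13])
  have h1 := abs_le.1 (hk ![1, 7, 10, 12])
  have h2 := abs_le.1 (hk ![1, 3, 7, 15])
  have hb : 0 ≤ b := (abs_nonneg _).trans (hk ![0, 0, 0, 0])
  rw [e, abs_le]
  constructor <;> linarith [h0.1, h0.2, h1.1, h1.2, h2.1, h2.2]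

theorem ra_311 {x : Fin 10 → ℤ} (hF : FF x = 0) {b : ℤ} (hk : ∀ c : Fin 4 → Fin 16, |(Matrix.of fun i a => HP x (rho i) (c a)).det| ≤ b) :
    |(x 3) ^ 2 * (x 2 * x 3 - x 9 * x 9)| ≤ 20 * b := by
  have e : (x 3) ^ 2 * (x 2 * x 3 - x 9 * x 9) =
      (1) * (Matrix.of fun i a => HP x (rho i) ((![1, 7, 9, 10] : Fin 4 → Fin 16) a)).det := by
    simp only [mdet, det4]
    simp only [NM, FF, Matrix.of_apply, Matrix.cons_val]
    ring
  have h0 := abs_le.1 (hk ![1, 7, 9, 10])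
  have hb : 0 ≤ b := (abs_nonneg _).trans (hk ![0, 0, 0, 0])
  rw [e, abs_le]
  constructor <;> linarith [h0.1, h0.2]

theorem ra_312 {x : Fin 10 → ℤ} (hF : FF x = 0) {b : ℤ} (hk : ∀ c : Fin 4 → Fin 16, |(Matrix.of fun i a => HP x (rho i) (c a)).det| ≤ b) :
    |(x 3) ^ 2 * (2 * x 3 * x 7 - x 4 * x 9 + x 5 * x 9)| ≤ 20 * b := by
  have e : (x 3) ^ 2 * (2 * x 3 * x 7 - x 4 * x 9 + x 5 * x 9) =
      (1) * (Matrix.of fun i a => HP x (rho i) ((![1, 3, 7, 9] : Fin 4 → Fin 16) a)).det +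
      (2) * (Matrix.of fun i a => HP x (rho i) ((![1, 5, 7, 10] : Fin 4 → Fin 16) a)).det +
      (1) * (Matrix.of fun i a => HP x (rho i) ((![1, 7, 10, 13] : Fin 4 → Fin 16) a)).det := by
    simp only [mdet, det4]
    simp only [NM, FF, Matrix.of_apply, Matrix.cons_val]
    ring
  have h0 := abs_le.1 (hk ![1, 3, 7, 9])
  have h1 := abs_le.1 (hk ![1, 5, 7, 10])
  have h2 := abs_le.1 (hk ![1, 7, 10, 13])
  have hb : 0 ≤ b := (abs_nonneg _).trans (hk ![0, 0, 0, 0])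
  rw [e, abs_le]
  constructor <;> linarith [h0.1, h0.2, h1.1, h1.2, h2.1, h2.2]

theorem ra_322 {x : Fin 10 → ℤ} (hF : FF x = 0) {b : ℤ} (hk : ∀ c : Fin 4 → Fin 16, |(Matrix.of fun i a => HP x (rho i) (c a)).det| ≤ b) :
    |(x 3) ^ 2 * (4 * x 1 * x 3 - x 4 * x 4 + 2 * x 4 * x 5 - x 5 * x 5)| ≤ 20 * b := by
  have e : (x 3) ^ 2 * (4 * x 1 * x 3 - x 4 * x 4 + 2 * x 4 * x 5 - x 5 * x 5) =
      (-1) * (Matrix.of fun i a => HP x (rho i) ((![1, 8, 9, 10] : Fin 4 → Fin 16) a)).det +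
      (-1) * (Matrix.of fun i a => HP x (rho i) ((![1, 3, 5, 7] : Fin 4 → Fin 16) a)).det +
      (-3) * (Matrix.of fun i a => HP x (rho i) ((![1, 10, 12, 13] : Fin 4 → Fin 16) a)).det +
      (2) * (Matrix.of fun i a => HP x (rho i) ((![1, 3, 7, 13] : Fin 4 → Fin 16) a)).det +
      (1) * (Matrix.of fun i a => HP x (rho i) ((![1, 6, 7, 10] : Fin 4 → Fin 16) a)).det +
      (2) * (Matrix.of fun i a => HP x (rho i) ((![1, 6, 10, 15] : Fin 4 → Fin 16) a)).det +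
      (1) * (Matrix.of fun i a => HP x (rho i) ((![1, 10, 14, 15] : Fin 4 → Fin 16) a)).det := by
    simp only [mdet, det4]
    simp only [NM, FF, Matrix.of_apply, Matrix.cons_val]
    ring
  have h0 := abs_le.1 (hk ![1, 8, 9, 10])
  have h1 := abs_le.1 (hk ![1, 3, 5, 7])
  have h2 := abs_le.1 (hk ![1, 10, 12, 13])
  have h3 := abs_le.1 (hk ![1, 3, 7, 13])
  have h4 := abs_le.1 (hk ![1, 6, 7, 10])
  have h5 := abs_le.1 (hk ![1, 6, 10, 15])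
  have h6 := abs_le.1 (hk ![1, 10, 14, 15])
  have hb : 0 ≤ b := (abs_nonneg _).trans (hk ![0, 0, 0, 0])
  rw [e, abs_le]
  constructor <;> linarith [h0.1, h0.2, h1.1, h1.2, h2.1, h2.2, h3.1, h3.2, h4.1, h4.2, h5.1, h5.2, h6.1, h6.2]

theorem rd_6 {x : Fin 10 → ℤ} (hF : FF x = 0) {b : ℤ} (hk : ∀ c : Fin 4 → Fin 16, |(Matrix.of fun i a => HP x (rho i) (c a)).det| ≤ b) :
    |(x 6) ^ 2 * (x 0 * x 1 - x 6 * x 6)| ≤ 20 * b := by
  have e : (x 6) ^ 2 * (x 0 * x 1 - x 6 * x 6) =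
      (1) * (Matrix.of fun i a => HP x (rho i) ((![0, 3, 8, 11] : Fin 4 → Fin 16) a)).det +
      (1) * (Matrix.of fun i a => HP x (rho i) ((![0, 6, 8, 12] : Fin 4 → Fin 16) a)).det := by
    simp only [mdet, det4]
    simp only [NM, FF, Matrix.of_apply, Matrix.cons_val]
    ring
  have h0 := abs_le.1 (hk ![0, 3, 8, 11])
  have h1 := abs_le.1 (hk ![0, 6, 8, 12])
  have hb : 0 ≤ b := (abs_nonneg _).trans (hk ![0, 0, 0, 0])
  rw [e, abs_le]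
  constructor <;> linarith [h0.1, h0.2, h1.1, h1.2]

theorem rd_7 {x : Fin 10 → ℤ} (hF : FF x = 0) {b : ℤ} (hk : ∀ c : Fin 4 → Fin 16, |(Matrix.of fun i a => HP x (rho i) (c a)).det| ≤ b) :
    |(x 7) ^ 2 * (x 1 * x 2 - x 7 * x 7)| ≤ 20 * b := by
  have e : (x 7) ^ 2 * (x 1 * x 2 - x 7 * x 7) =
      (-1) * (Matrix.of fun i a => HP x (rho i) ((![0, 2, 9, 11] : Fin 4 → Fin 16) a)).det +
      (-1) * (Matrix.of fun i a => HP x (rho i) ((![2, 5, 11, 14] : Fin 4 → Fin 16) a)).det := by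
    simp only [mdet, det4]
    simp only [NM, FF, Matrix.of_apply, Matrix.cons_val]
    ring
  have h0 := abs_le.1 (hk ![0, 2, 9, 11])
  have h1 := abs_le.1 (hk ![2, 5, 11, 14])
  have hb : 0 ≤ b := (abs_nonneg _).trans (hk ![0, 0, 0, 0])
  rw [e, abs_le]
  constructor <;> linarith [h0.1, h0.2, h1.1, h1.2]

theorem rd_8 {x : Fin 10 → ℤ} (hF : FF x = 0) {b : ℤ} (hk : ∀ c : Fin 4 → Fin 16, |(Matrix.of fun i a => HP x (rho i) (c a)).det| ≤ b) :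
    |(x 8) ^ 2 * (x 0 * x 3 - x 8 * x 8)| ≤ 20 * b := by
  have e : (x 8) ^ 2 * (x 0 * x 3 - x 8 * x 8) =
      (-1) * (Matrix.of fun i a => HP x (rho i) ((![1, 3, 8, 10] : Fin 4 → Fin 16) a)).det +
      (-1) * (Matrix.of fun i a => HP x (rho i) ((![3, 4, 10, 15] : Fin 4 → Fin 16) a)).det := by
    simp only [mdet, det4]
    simp only [NM, FF, Matrix.of_apply, Matrix.cons_val]
    ring
  have h0 := abs_le.1 (hk ![1, 3, 8, 10])
  have h1 := abs_le.1 (hk ![3, 4, 10, 15])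
  have hb : 0 ≤ b := (abs_nonneg _).trans (hk ![0, 0, 0, 0])
  rw [e, abs_le]
  constructor <;> linarith [h0.1, h0.2, h1.1, h1.2]

theorem rd_9 {x : Fin 10 → ℤ} (hF : FF x = 0) {b : ℤ} (hk : ∀ c : Fin 4 → Fin 16, |(Matrix.of fun i a => HP x (rho i) (c a)).det| ≤ b) :
    |(x 9) ^ 2 * (x 2 * x 3 - x 9 * x 9)| ≤ 20 * b := by
  have e : (x 9) ^ 2 * (x 2 * x 3 - x 9 * x 9) =
      (1) * (Matrix.of fun i a => HP x (rho i) ((![1, 2, 9, 10] : Fin 4 → Fin 16) a)).det +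
      (1) * (Matrix.of fun i a => HP x (rho i) ((![1, 7, 9, 13] : Fin 4 → Fin 16) a)).det := by
    simp only [mdet, det4]
    simp only [NM, FF, Matrix.of_apply, Matrix.cons_val]
    ring
  have h0 := abs_le.1 (hk ![1, 2, 9, 10])
  have h1 := abs_le.1 (hk ![1, 7, 9, 13])
  have hb : 0 ≤ b := (abs_nonneg _).trans (hk ![0, 0, 0, 0])
  rw [e, abs_le]
  constructor <;> linarith [h0.1, h0.2, h1.1, h1.2]

theorem rl_a {x : Fin 10 → ℤ} {b : ℤ} (hk : ∀ c : Fin 4 → Fin 16, |(Matrix.of fun i a => HP x (rho i) (c a)).det| ≤ b) :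
    |x 0 * x 1 * x 2 * x 3 - x 0 * x 2 * x 4 * x 4 - x 0 * x 4 * x 7 * x 9 - x 1 * x 3 * x 4 * x 4 - x 1 * x 4 * x 8 * x 9 - x 2 * x 4 * x 6 * x 8 - x 3 * x 4 * x 6 * x 7 + x 4 * x 4 * x 4 * x 4 - x 6 * x 7 * x 8 * x 9| ≤ 20 * b := by
  have e : x 0 * x 1 * x 2 * x 3 - x 0 * x 2 * x 4 * x 4 - x 0 * x 4 * x 7 * x 9 - x 1 * x 3 * x 4 * x 4 - x 1 * x 4 * x 8 * x 9 - x 2 * x 4 * x 6 * x 8 - x 3 * x 4 * x 6 * x 7 + x 4 * x 4 * x 4 * x 4 - x 6 * x 7 * x 8 * x 9 = (Matrix.of fun i a => HP x (rho i) ((![4, 5, 6, 7] : Fin 4 → Fin 16) a)).det := by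
    simp only [mdet, det4]
    simp [NM]
    ring
  have h0 := abs_le.1 (hk ![4, 5, 6, 7])
  have hb : 0 ≤ b := (abs_nonneg _).trans (hk ![0, 0, 0, 0])
  rw [e, abs_le]
  constructor <;> linarith [h0.1, h0.2]

theorem rl_b {x : Fin 10 → ℤ} {b : ℤ} (hk : ∀ c : Fin 4 → Fin 16, |(Matrix.of fun i a => HP x (rho i) (c a)).det| ≤ b) :
    |x 0 * x 1 * x 2 * x 3 - x 0 * x 2 * x 5 * x 5 + x 0 * x 5 * x 7 * x 9 - x 1 * x 3 * x 5 * x 5 - x 1 * x 5 * x 8 * x 9 + x 2 * x 5 * x 6 * x 8 - x 3 * x 5 * x 6 * x 7 + x 5 * x 5 * x 5 * x 5 - x 6 * x 7 * x 8 * x 9| ≤ 20 * b := by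
  have e : x 0 * x 1 * x 2 * x 3 - x 0 * x 2 * x 5 * x 5 + x 0 * x 5 * x 7 * x 9 - x 1 * x 3 * x 5 * x 5 - x 1 * x 5 * x 8 * x 9 + x 2 * x 5 * x 6 * x 8 - x 3 * x 5 * x 6 * x 7 + x 5 * x 5 * x 5 * x 5 - x 6 * x 7 * x 8 * x 9 = (Matrix.of fun i a => HP x (rho i) ((![12, 13, 14, 15] : Fin 4 → Fin 16) a)).det := by
    simp only [mdet, det4]
    simp [NM]
    ring
  have h0 := abs_le.1 (hk ![12, 13, 14, 15])
  have hb : 0 ≤ b := (abs_nonneg _).trans (hk ![0, 0, 0, 0])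
  rw [e, abs_le]
  constructor <;> linarith [h0.1, h0.2]

end Pool.Agent.PP5T
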