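import Pool.Agent.PP5T.Rba

/-!
# PP5 (D'), (N5): a point all whose `4 x 4` minors are small is close to a rank one point
-/

set_option autoImplicit false

namespace Pool.Agent.PP5T

open Matrix Pool.Agent.PP5L Pool.Agent.PP5K

private theorem bn {b a E : ℤ} (c : ℤ) (h : |a| ≤ 20 * b) (e : E = c * a) (hc : |c| ≤ 4) : |E| ≤ 80 * b := by
  have hb : 0 ≤ 20 * b := (abs_nonneg a).trans h
  rw [e, abs_mul]
  calc |c| * |a| ≤ 4 * (20 * b) := mul_le_mul hc h (abs_nonneg _) (by norm_num)
    _ = 80 * b := by ring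

theorem ra_all {x : Fin 10 → ℤ} (hF : FF x = 0) {b : ℤ}
    (hk : ∀ c : Fin 4 → Fin 16, |(Matrix.of fun i a => HP x (rho i) (c a)).det| ≤ b) (i j k : Fin 4) :
    |(x (dg i)) ^ 2 * (RR x i i * RR x j k - RR x i j * RR x i k)| ≤ 80 * b := by
  have hb : 0 ≤ b := (abs_nonneg _).trans (hk ![0, 0, 0, 0])
  have e0 : |(0 : ℤ)| ≤ 20 * b := by rw [abs_zero]; linarith
  have e11 := ra_011 hF hk
  have e12 := ra_012 hF hk
  have e13 := ra_013 hF hk
  have e22 := ra_022 hF hk
  have e23 := ra_023 hF hk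
  have e33 := ra_033 hF hk
  have f00 := ra_100 hF hk
  have f02 := ra_102 hF hk
  have f03 := ra_103 hF hk
  have f22 := ra_122 hF hk
  have f23 := ra_123 hF hk
  have f33 := ra_133 hF hk
  have g00 := ra_200 hF hk
  have g01 := ra_201 hF hk
  have g03 := ra_203 hF hk
  have g11 := ra_211 hF hk
  have g13 := ra_213 hF hk
  have g33 := ra_233 hF hk
  have h00 := ra_300 hF hk
  have h01 := ra_301 hF hk
  have h02 := ra_302 hF hk
  have h11 := ra_311 hF hk
  have h12 := ra_312 hF hk
  have h22 := ra_322 hF hk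
  fin_cases i <;> fin_cases j <;> fin_cases k
  · refine bn 0 e0 ?_ (by norm_num); (try simp only [RR, dg, Fin.isValue, Fin.zero_eta, Fin.mk_one, Fin.reduceFinMk, Matrix.cons_val_zero, Matrix.cons_val_one, Matrix.cons_val]); ring1
  · refine bn 0 e0 ?_ (by norm_num); (try simp only [RR, dg, Fin.isValue, Fin.zero_eta, Fin.mk_one, Fin.reduceFinMk, Matrix.cons_val_zero, Matrix.cons_val_one, Matrix.cons_val]); ring1
  · refine bn 0 e0 ?_ (by norm_num); (try simp only [RR, dg, Fin.isValue, Fin.zero_eta, Fin.mk_one, Fin.reduceFinMk, Matrix.cons_val_zero, Matrix.cons_val_one, Matrix.cons_val]); ring1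
  · refine bn 0 e0 ?_ (by norm_num); (try simp only [RR, dg, Fin.isValue, Fin.zero_eta, Fin.mk_one, Fin.reduceFinMk, Matrix.cons_val_zero, Matrix.cons_val_one, Matrix.cons_val]); ring1
  · refine bn 0 e0 ?_ (by norm_num); (try simp only [RR, dg, Fin.isValue, Fin.zero_eta, Fin.mk_one, Fin.reduceFinMk, Matrix.cons_val_zero, Matrix.cons_val_one, Matrix.cons_val]); ring1
  · refine bn 1 e11 ?_ (by norm_num); (try simp only [RR, dg, Fin.isValue, Fin.zero_eta, Fin.mk_one, Fin.reduceFinMk, Matrix.cons_val_zero, Matrix.cons_val_one, Matrix.cons_val]); ring1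
  · refine bn 2 e12 ?_ (by norm_num); (try simp only [RR, dg, Fin.isValue, Fin.zero_eta, Fin.mk_one, Fin.reduceFinMk, Matrix.cons_val_zero, Matrix.cons_val_one, Matrix.cons_val]); ring1
  · refine bn 2 e13 ?_ (by norm_num); (try simp only [RR, dg, Fin.isValue, Fin.zero_eta, Fin.mk_one, Fin.reduceFinMk, Matrix.cons_val_zero, Matrix.cons_val_one, Matrix.cons_val]); ring1
  · refine bn 0 e0 ?_ (by norm_num); (try simp only [RR, dg, Fin.isValue, Fin.zero_eta, Fin.mk_one, Fin.reduceFinMk, Matrix.cons_val_zero, Matrix.cons_val_one, Matrix.cons_val]); ring1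
  · refine bn 2 e12 ?_ (by norm_num); (try simp only [RR, dg, Fin.isValue, Fin.zero_eta, Fin.mk_one, Fin.reduceFinMk, Matrix.cons_val_zero, Matrix.cons_val_one, Matrix.cons_val]); ring1
  · refine bn 4 e22 ?_ (by norm_num); (try simp only [RR, dg, Fin.isValue, Fin.zero_eta, Fin.mk_one, Fin.reduceFinMk, Matrix.cons_val_zero, Matrix.cons_val_one, Matrix.cons_val]); ring1
  · refine bn 2 e23 ?_ (by norm_num); (try simp only [RR, dg, Fin.isValue, Fin.zero_eta, Fin.mk_one, Fin.reduceFinMk, Matrix.cons_val_zero, Matrix.cons_val_one, Matrix.cons_val]); ring1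
  · refine bn 0 e0 ?_ (by norm_num); (try simp only [RR, dg, Fin.isValue, Fin.zero_eta, Fin.mk_one, Fin.reduceFinMk, Matrix.cons_val_zero, Matrix.cons_val_one, Matrix.cons_val]); ring1
  · refine bn 2 e13 ?_ (by norm_num); (try simp only [RR, dg, Fin.isValue, Fin.zero_eta, Fin.mk_one, Fin.reduceFinMk, Matrix.cons_val_zero, Matrix.cons_val_one, Matrix.cons_val]); ring1
  · refine bn 2 e23 ?_ (by norm_num); (try simp only [RR, dg, Fin.isValue, Fin.zero_eta, Fin.mk_one, Fin.reduceFinMk, Matrix.cons_val_zero, Matrix.cons_val_one, Matrix.cons_val]); ring1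
  · refine bn 4 e33 ?_ (by norm_num); (try simp only [RR, dg, Fin.isValue, Fin.zero_eta, Fin.mk_one, Fin.reduceFinMk, Matrix.cons_val_zero, Matrix.cons_val_one, Matrix.cons_val]); ring1
  · refine bn 1 f00 ?_ (by norm_num); (try simp only [RR, dg, Fin.isValue, Fin.zero_eta, Fin.mk_one, Fin.reduceFinMk, Matrix.cons_val_zero, Matrix.cons_val_one, Matrix.cons_val]); ring1
  · refine bn 0 e0 ?_ (by norm_num); (try simp only [RR, dg, Fin.isValue, Fin.zero_eta, Fin.mk_one, Fin.reduceFinMk, Matrix.cons_val_zero, Matrix.cons_val_one, Matrix.cons_val]); ring1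
  · refine bn 2 f02 ?_ (by norm_num); (try simp only [RR, dg, Fin.isValue, Fin.zero_eta, Fin.mk_one, Fin.reduceFinMk, Matrix.cons_val_zero, Matrix.cons_val_one, Matrix.cons_val]); ring1
  · refine bn 2 f03 ?_ (by norm_num); (try simp only [RR, dg, Fin.isValue, Fin.zero_eta, Fin.mk_one, Fin.reduceFinMk, Matrix.cons_val_zero, Matrix.cons_val_one, Matrix.cons_val]); ring1
  · refine bn 0 e0 ?_ (by norm_num); (try simp only [RR, dg, Fin.isValue, Fin.zero_eta, Fin.mk_one, Fin.reduceFinMk, Matrix.cons_val_zero, Matrix.cons_val_one, Matrix.cons_val]); ring1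
  · refine bn 0 e0 ?_ (by norm_num); (try simp only [RR, dg, Fin.isValue, Fin.zero_eta, Fin.mk_one, Fin.reduceFinMk, Matrix.cons_val_zero, Matrix.cons_val_one, Matrix.cons_val]); ring1
  · refine bn 0 e0 ?_ (by norm_num); (try simp only [RR, dg, Fin.isValue, Fin.zero_eta, Fin.mk_one, Fin.reduceFinMk, Matrix.cons_val_zero, Matrix.cons_val_one, Matrix.cons_val]); ring1
  · refine bn 0 e0 ?_ (by norm_num); (try simp only [RR, dg, Fin.isValue, Fin.zero_eta, Fin.mk_one, Fin.reduceFinMk, Matrix.cons_val_zero, Matrix.cons_val_one, Matrix.cons_val]); ring1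
  · refine bn 2 f02 ?_ (by norm_num); (try simp only [RR, dg, Fin.isValue, Fin.zero_eta, Fin.mk_one, Fin.reduceFinMk, Matrix.cons_val_zero, Matrix.cons_val_one, Matrix.cons_val]); ring1
  · refine bn 0 e0 ?_ (by norm_num); (try simp only [RR, dg, Fin.isValue, Fin.zero_eta, Fin.mk_one, Fin.reduceFinMk, Matrix.cons_val_zero, Matrix.cons_val_one, Matrix.cons_val]); ring1
  · refine bn 4 f22 ?_ (by norm_num); (try simp only [RR, dg, Fin.isValue, Fin.zero_eta, Fin.mk_one, Fin.reduceFinMk, Matrix.cons_val_zero, Matrix.cons_val_one, Matrix.cons_val]); ring1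
  · refine bn 2 f23 ?_ (by norm_num); (try simp only [RR, dg, Fin.isValue, Fin.zero_eta, Fin.mk_one, Fin.reduceFinMk, Matrix.cons_val_zero, Matrix.cons_val_one, Matrix.cons_val]); ring1
  · refine bn 2 f03 ?_ (by norm_num); (try simp only [RR, dg, Fin.isValue, Fin.zero_eta, Fin.mk_one, Fin.reduceFinMk, Matrix.cons_val_zero, Matrix.cons_val_one, Matrix.cons_val]); ring1
  · refine bn 0 e0 ?_ (by norm_num); (try simp only [RR, dg, Fin.isValue, Fin.zero_eta, Fin.mk_one, Fin.reduceFinMk, Matrix.cons_val_zero, Matrix.cons_val_one, Matrix.cons_val]); ring1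
  · refine bn 2 f23 ?_ (by norm_num); (try simp only [RR, dg, Fin.isValue, Fin.zero_eta, Fin.mk_one, Fin.reduceFinMk, Matrix.cons_val_zero, Matrix.cons_val_one, Matrix.cons_val]); ring1
  · refine bn 4 f33 ?_ (by norm_num); (try simp only [RR, dg, Fin.isValue, Fin.zero_eta, Fin.mk_one, Fin.reduceFinMk, Matrix.cons_val_zero, Matrix.cons_val_one, Matrix.cons_val]); ring1
  · refine bn 4 g00 ?_ (by norm_num); (try simp only [RR, dg, Fin.isValue, Fin.zero_eta, Fin.mk_one, Fin.reduceFinMk, Matrix.cons_val_zero, Matrix.cons_val_one, Matrix.cons_val]); ring1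
  · refine bn 2 g01 ?_ (by norm_num); (try simp only [RR, dg, Fin.isValue, Fin.zero_eta, Fin.mk_one, Fin.reduceFinMk, Matrix.cons_val_zero, Matrix.cons_val_one, Matrix.cons_val]); ring1
  · refine bn 0 e0 ?_ (by norm_num); (try simp only [RR, dg, Fin.isValue, Fin.zero_eta, Fin.mk_one, Fin.reduceFinMk, Matrix.cons_val_zero, Matrix.cons_val_one, Matrix.cons_val]); ring1
  · refine bn 2 g03 ?_ (by norm_num); (try simp only [RR, dg, Fin.isValue, Fin.zero_eta, Fin.mk_one, Fin.reduceFinMk, Matrix.cons_val_zero, Matrix.cons_val_one, Matrix.cons_val]); ring1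
  · refine bn 2 g01 ?_ (by norm_num); (try simp only [RR, dg, Fin.isValue, Fin.zero_eta, Fin.mk_one, Fin.reduceFinMk, Matrix.cons_val_zero, Matrix.cons_val_one, Matrix.cons_val]); ring1
  · refine bn 4 g11 ?_ (by norm_num); (try simp only [RR, dg, Fin.isValue, Fin.zero_eta, Fin.mk_one, Fin.reduceFinMk, Matrix.cons_val_zero, Matrix.cons_val_one, Matrix.cons_val]); ring1
  · refine bn 0 e0 ?_ (by norm_num); (try simp only [RR, dg, Fin.isValue, Fin.zero_eta, Fin.mk_one, Fin.reduceFinMk, Matrix.cons_val_zero, Matrix.cons_val_one, Matrix.cons_val]); ring1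
  · refine bn 2 g13 ?_ (by norm_num); (try simp only [RR, dg, Fin.isValue, Fin.zero_eta, Fin.mk_one, Fin.reduceFinMk, Matrix.cons_val_zero, Matrix.cons_val_one, Matrix.cons_val]); ring1
  · refine bn 0 e0 ?_ (by norm_num); (try simp only [RR, dg, Fin.isValue, Fin.zero_eta, Fin.mk_one, Fin.reduceFinMk, Matrix.cons_val_zero, Matrix.cons_val_one, Matrix.cons_val]); ring1
  · refine bn 0 e0 ?_ (by norm_num); (try simp only [RR, dg, Fin.isValue, Fin.zero_eta, Fin.mk_one, Fin.reduceFinMk, Matrix.cons_val_zero, Matrix.cons_val_one, Matrix.cons_val]); ring1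
  · refine bn 0 e0 ?_ (by norm_num); (try simp only [RR, dg, Fin.isValue, Fin.zero_eta, Fin.mk_one, Fin.reduceFinMk, Matrix.cons_val_zero, Matrix.cons_val_one, Matrix.cons_val]); ring1
  · refine bn 0 e0 ?_ (by norm_num); (try simp only [RR, dg, Fin.isValue, Fin.zero_eta, Fin.mk_one, Fin.reduceFinMk, Matrix.cons_val_zero, Matrix.cons_val_one, Matrix.cons_val]); ring1
  · refine bn 2 g03 ?_ (by norm_num); (try simp only [RR, dg, Fin.isValue, Fin.zero_eta, Fin.mk_one, Fin.reduceFinMk, Matrix.cons_val_zero, Matrix.cons_val_one, Matrix.cons_val]); ring1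
  · refine bn 2 g13 ?_ (by norm_num); (try simp only [RR, dg, Fin.isValue, Fin.zero_eta, Fin.mk_one, Fin.reduceFinMk, Matrix.cons_val_zero, Matrix.cons_val_one, Matrix.cons_val]); ring1
  · refine bn 0 e0 ?_ (by norm_num); (try simp only [RR, dg, Fin.isValue, Fin.zero_eta, Fin.mk_one, Fin.reduceFinMk, Matrix.cons_val_zero, Matrix.cons_val_one, Matrix.cons_val]); ring1
  · refine bn 1 g33 ?_ (by norm_num); (try simp only [RR, dg, Fin.isValue, Fin.zero_eta, Fin.mk_one, Fin.reduceFinMk, Matrix.cons_val_zero, Matrix.cons_val_one, Matrix.cons_val]); ring1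
  · refine bn 4 h00 ?_ (by norm_num); (try simp only [RR, dg, Fin.isValue, Fin.zero_eta, Fin.mk_one, Fin.reduceFinMk, Matrix.cons_val_zero, Matrix.cons_val_one, Matrix.cons_val]); ring1
  · refine bn 2 h01 ?_ (by norm_num); (try simp only [RR, dg, Fin.isValue, Fin.zero_eta, Fin.mk_one, Fin.reduceFinMk, Matrix.cons_val_zero, Matrix.cons_val_one, Matrix.cons_val]); ring1
  · refine bn 2 h02 ?_ (by norm_num); (try simp only [RR, dg, Fin.isValue, Fin.zero_eta, Fin.mk_one, Fin.reduceFinMk, Matrix.cons_val_zero, Matrix.cons_val_one, Matrix.cons_val]); ring1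
  · refine bn 0 e0 ?_ (by norm_num); (try simp only [RR, dg, Fin.isValue, Fin.zero_eta, Fin.mk_one, Fin.reduceFinMk, Matrix.cons_val_zero, Matrix.cons_val_one, Matrix.cons_val]); ring1
  · refine bn 2 h01 ?_ (by norm_num); (try simp only [RR, dg, Fin.isValue, Fin.zero_eta, Fin.mk_one, Fin.reduceFinMk, Matrix.cons_val_zero, Matrix.cons_val_one, Matrix.cons_val]); ring1
  · refine bn 4 h11 ?_ (by norm_num); (try simp only [RR, dg, Fin.isValue, Fin.zero_eta, Fin.mk_one, Fin.reduceFinMk, Matrix.cons_val_zero, Matrix.cons_val_one, Matrix.cons_val]); ring1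
  · refine bn 2 h12 ?_ (by norm_num); (try simp only [RR, dg, Fin.isValue, Fin.zero_eta, Fin.mk_one, Fin.reduceFinMk, Matrix.cons_val_zero, Matrix.cons_val_one, Matrix.cons_val]); ring1
  · refine bn 0 e0 ?_ (by norm_num); (try simp only [RR, dg, Fin.isValue, Fin.zero_eta, Fin.mk_one, Fin.reduceFinMk, Matrix.cons_val_zero, Matrix.cons_val_one, Matrix.cons_val]); ring1
  · refine bn 2 h02 ?_ (by norm_num); (try simp only [RR, dg, Fin.isValue, Fin.zero_eta, Fin.mk_one, Fin.reduceFinMk, Matrix.cons_val_zero, Matrix.cons_val_one, Matrix.cons_val]); ring1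
  · refine bn 2 h12 ?_ (by norm_num); (try simp only [RR, dg, Fin.isValue, Fin.zero_eta, Fin.mk_one, Fin.reduceFinMk, Matrix.cons_val_zero, Matrix.cons_val_one, Matrix.cons_val]); ring1
  · refine bn 1 h22 ?_ (by norm_num); (try simp only [RR, dg, Fin.isValue, Fin.zero_eta, Fin.mk_one, Fin.reduceFinMk, Matrix.cons_val_zero, Matrix.cons_val_one, Matrix.cons_val]); ring1
  · refine bn 0 e0 ?_ (by norm_num); (try simp only [RR, dg, Fin.isValue, Fin.zero_eta, Fin.mk_one, Fin.reduceFinMk, Matrix.cons_val_zero, Matrix.cons_val_one, Matrix.cons_val]); ring1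
  · refine bn 0 e0 ?_ (by norm_num); (try simp only [RR, dg, Fin.isValue, Fin.zero_eta, Fin.mk_one, Fin.reduceFinMk, Matrix.cons_val_zero, Matrix.cons_val_one, Matrix.cons_val]); ring1
  · refine bn 0 e0 ?_ (by norm_num); (try simp only [RR, dg, Fin.isValue, Fin.zero_eta, Fin.mk_one, Fin.reduceFinMk, Matrix.cons_val_zero, Matrix.cons_val_one, Matrix.cons_val]); ring1
  · refine bn 0 e0 ?_ (by norm_num); (try simp only [RR, dg, Fin.isValue, Fin.zero_eta, Fin.mk_one, Fin.reduceFinMk, Matrix.cons_val_zero, Matrix.cons_val_one, Matrix.cons_val]); ring1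
  · refine bn 0 e0 ?_ (by norm_num); (try simp only [RR, dg, Fin.isValue, Fin.zero_eta, Fin.mk_one, Fin.reduceFinMk, Matrix.cons_val_zero, Matrix.cons_val_one, Matrix.cons_val]); ring1

end Pool.Agent.PP5T
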