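import Pool.Agent.PP5T.Gen
import Pool.Agent.PP5T.Dgb

/-!
# PP5 (D'), (N5): points with small minors, jointly with a modulus
-/

set_option autoImplicit false

namespace Pool.Agent.PP5T

open Matrix Pool.Agent.PP5L Pool.Agent.PP5K

theorem Mf_RR : Mf RR where
  sym := RR_symm
  up := by
    intro x Y hx i j
    have b := fun j => abs_le.1 (hx j)
    fin_cases i <;> fin_cases j <;>
      (simp only [RR, Fin.zero_eta, Fin.mk_one, Fin.reduceFinMk, Matrix.cons_val_zero,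
        Matrix.cons_val_one, Matrix.cons_val]
       push_cast
       rw [abs_le]
       constructor <;> linarith [(b 0).1, (b 0).2, (b 1).1, (b 1).2, (b 2).1, (b 2).2, (b 3).1, (b 3).2,
        (b 4).1, (b 4).2, (b 5).1, (b 5).2, (b 6).1, (b 6).2, (b 7).1, (b 7).2, (b 8).1, (b 8).2,
        (b 9).1, (b 9).2])
  dist := by
    intro x y D h l
    have e00 := abs_le.1 (h 0 0)
    have e11 := abs_le.1 (h 1 1)
    have e22 := abs_le.1 (h 2 2)
    have e33 := abs_le.1 (h 3 3)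
    have e01 := abs_le.1 (h 0 1)
    have e02 := abs_le.1 (h 0 2)
    have e03 := abs_le.1 (h 0 3)
    have e12 := abs_le.1 (h 1 2)
    have e13 := abs_le.1 (h 1 3)
    have e23 := abs_le.1 (h 2 3)
    simp only [RR, Fin.isValue, Matrix.cons_val_zero, Matrix.cons_val_one, Matrix.cons_val] at *
    push_cast at *
    rw [abs_le]
    fin_cases l <;> simp only [Fin.zero_eta, Fin.mk_one, Fin.reduceFinMk] <;>
      constructor <;> linarith [e00.1, e00.2, e11.1, e11.2, e22.1, e22.2, e33.1, e33.2, e01.1, e01.2,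
        e02.1, e02.2, e03.1, e03.2, e12.1, e12.2, e13.1, e13.2, e23.1, e23.2]

theorem Mf_SS : Mf (fun x i j => SS x i j) where
  sym := by
    intro x i j
    fin_cases i <;> fin_cases j <;> rfl
  up := by
    intro x Y hx i j
    have b := fun j => abs_le.1 (hx j)
    fin_cases i <;> fin_cases j <;>
      (simp [SS, -abs_neg, -abs_mul]
       rw [abs_le]
       constructor <;> linarith [(b 0).1, (b 0).2, (b 1).1, (b 1).2, (b 2).1, (b 2).2, (b 3).1, (b 3).2,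
        (b 4).1, (b 4).2, (b 5).1, (b 5).2, (b 6).1, (b 6).2, (b 7).1, (b 7).2, (b 8).1, (b 8).2,
        (b 9).1, (b 9).2])
  dist := by
    intro x y D h l
    have e00 := abs_le.1 (h 0 0)
    have e11 := abs_le.1 (h 1 1)
    have e22 := abs_le.1 (h 2 2)
    have e33 := abs_le.1 (h 3 3)
    have e01 := abs_le.1 (h 0 1)
    have e02 := abs_le.1 (h 0 2)
    have e03 := abs_le.1 (h 0 3)
    have e12 := abs_le.1 (h 1 2)
    have e13 := abs_le.1 (h 1 3)
    have e23 := abs_le.1 (h 2 3)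
    simp [SS] at e00 e11 e22 e33 e01 e02 e03 e12 e13 e23
    rw [abs_le]
    fin_cases l <;> simp only [Fin.zero_eta, Fin.mk_one, Fin.reduceFinMk] <;>
      constructor <;> linarith [e00.1, e00.2, e11.1, e11.2, e22.1, e22.2, e33.1, e33.2, e01.1, e01.2,
        e02.1, e02.2, e03.1, e03.2, e12.1, e12.2, e13.1, e13.2, e23.1, e23.2]

private theorem card4 {S : Finset (Fin 10 → ℤ)} {P : Fin 4 → (Fin 10 → ℤ) → Prop}
    [∀ i, DecidablePred (P i)] {B : ℝ} (h : ∀ x ∈ S, ∃ i, P i x)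
    (hB : ∀ i, ((S.filter (P i)).card : ℝ) ≤ B) : (S.card : ℝ) ≤ 4 * B := by
  classical
  have h1 : S ⊆ Finset.univ.biUnion fun i => S.filter (P i) := by
    intro x hx
    obtain ⟨i, hi⟩ := h x hx
    exact Finset.mem_biUnion.2 ⟨i, Finset.mem_univ _, Finset.mem_filter.2 ⟨hx, hi⟩⟩
  have h2 := (Finset.card_le_card h1).trans Finset.card_biUnion_le
  calc (S.card : ℝ) ≤ ((∑ i : Fin 4, (S.filter (P i)).card : ℕ) : ℝ) := by exact_mod_cast h2
    _ = ∑ i : Fin 4, ((S.filter (P i)).card : ℝ) := by push_cast; rfl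
    _ ≤ ∑ _i : Fin 4, B := Finset.sum_le_sum fun i _ => hB i
    _ = 4 * B := by simp

/-- (N5) with a modulus: all the `4 x 4` minors are small and `x` is a rank one point modulo `n` -/
theorem rr_count {ε : ℝ} (hε : 0 < ε) : ∃ C : ℝ, 1 ≤ C ∧ ∀ Y K w : ℝ, 1 ≤ Y → 1 ≤ K → 0 ≤ w →
    ∀ n : ℕ, 0 < n → (n : ℝ) ≤ Y → ∀ S : Finset (Fin 10 → ℤ),
    (∀ x ∈ S, FF x = 0 ∧ (∀ j, |(x j : ℝ)| ≤ Y) ∧ (∃ j, Y ≤ K * |(x j : ℝ)|) ∧ RK n x ∧
      Mn x (w * Y ^ 4)) →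
    (S.card : ℝ) ≤ C * K ^ 64 * Y ^ (8 + ε) * (w + n / Y) ^ 4 / (n : ℝ) ^ 4 := by
  classical
  obtain ⟨C1, hC1, h1⟩ := rk_card hε
  obtain ⟨C2, hC2, h2⟩ := gen_count Mf_RR (half_pos hε)
  obtain ⟨c, hc, hdiv⟩ := Pool.Agent.FTA.divisor_bound (ε := ε / 44) (by positivity)
  refine ⟨C1 * 128000 ^ 4 + 4 * C2 * 20 ^ 8 * c ^ 22 * 128000 ^ 4, by
    have : 0 ≤ 4 * C2 * 20 ^ 8 * c ^ 22 * 128000 ^ 4 := by positivity
    linarith, fun Y K w hY hK hw n hn hnY S hS => ?_⟩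
  have hY0 : 0 < Y := by linarith
  have hn0 : (0 : ℝ) < n := by exact_mod_cast hn
  have hK64 : (1 : ℝ) ≤ K ^ 32 := one_le_pow₀ hK
  have hnY0 : 0 ≤ (n : ℝ) / Y := by positivity
  obtain ⟨R, hR⟩ : ∃ R : ℝ, R = K ^ 64 * Y ^ (8 + ε) * (w + n / Y) ^ 4 / (n : ℝ) ^ 4 := ⟨_, rfl⟩
  have hR0 : 0 ≤ R := by rw [hR]; positivity
  by_cases hsm : 128000 * K ^ 8 * w ≤ 1
  · -- small minors
    have hNc : ((S.image fun x j => x j % (n : ℤ)).card : ℝ) ≤ c ^ 22 * Y ^ (ε / 2) * (n : ℝ) ^ 4 := by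
      have hnz : (0 : ℤ) < n := by exact_mod_cast hn
      have g2 := class_card_nat n hn (S.image fun x => fun j => x j % (n : ℤ)) (by
        intro z hz
        obtain ⟨x, hx, rfl⟩ := Finset.mem_image.1 hz
        refine ⟨fun j => ⟨Int.emod_nonneg _ hnz.ne', Int.emod_lt_of_pos _ hnz⟩, ?_⟩
        exact RK_congr (x := x) (fun j => (Int.mod_modEq _ _).symm) (hS x hx).2.2.2.1)
      have g3 := hdiv n hn.ne'
      have g4 : ((n.divisors.card : ℝ)) ^ 22 ≤ c ^ 22 * Y ^ (ε / 2) := by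
        calc ((n.divisors.card : ℝ)) ^ 22 ≤ (c * (n : ℝ) ^ (ε / 44)) ^ 22 :=
              pow_le_pow_left₀ (by positivity) g3 22
          _ = c ^ 22 * (n : ℝ) ^ (ε / 2) := by
              rw [mul_pow, ← Real.rpow_natCast ((n : ℝ) ^ (ε / 44)) 22, ← Real.rpow_mul hn0.le]
              congr 2
              push_cast
              ring
          _ ≤ c ^ 22 * Y ^ (ε / 2) :=
              mul_le_mul_of_nonneg_left (Real.rpow_le_rpow hn0.le hnY (by positivity)) (by positivity)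
      have g6 : ((S.image fun x => fun j => x j % (n : ℤ)).card : ℝ) ≤
          (n.divisors.card : ℝ) ^ 22 * (n : ℝ) ^ 4 := by exact_mod_cast g2
      exact g6.trans (mul_le_mul_of_nonneg_right g4 (by positivity))
    have hK4 : (1 : ℝ) ≤ K ^ 4 := one_le_pow₀ hK
    have hK8 : K ^ 8 = K ^ 4 * K ^ 4 := by ring
    have hP : 80 * K ^ 4 * w ≤ 1 := by
      have : 80 * K ^ 4 * w ≤ 128000 * K ^ 8 * w := by
        rw [hK8]
        have h0 : 0 ≤ K ^ 4 * w := by positivity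
        nlinarith
      linarith
    have hdg : ∀ x ∈ S, ∃ i, Y ≤ 20 * K ^ 4 * |(RR x i i : ℝ)| := by
      intro x hx
      obtain ⟨hF, hb, hj, _, hM⟩ := hS x hx
      obtain ⟨i, hi⟩ := dgb hF hY0 hK hP hb hj hM
      refine ⟨i, ?_⟩
      rw [RR_diag]
      push_cast
      rw [abs_mul, abs_two]
      linarith
    have key := card4 (S := S) (P := fun i x => Y ≤ 20 * K ^ 4 * |(RR x i i : ℝ)|)
      (B := C2 * (20 * K ^ 4) ^ 8 * Y ^ (4 + ε / 2) * (128000 * K ^ 8 * w * Y + n) ^ 4 *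
        (c ^ 22 * Y ^ (ε / 2) * (n : ℝ) ^ 4) / (n : ℝ) ^ 8) hdg (by
      intro i
      refine h2 Y (20 * K ^ 4) (128000 * K ^ 8 * w) hY (by linarith) (by positivity) hsm n hn hnY
        _ i _ ?_ ?_
      · intro x hx
        have hx1 := Finset.mem_filter.1 hx
        obtain ⟨hF, hb, hj, _, hM⟩ := hS x hx1.1
        refine ⟨hF, hb, hx1.2, ?_⟩
        intro j k
        have g1 := ra_all hF hM.fl i j k
        have g2 : ((x (dg i) : ℝ)) ^ 2 * |(RR x i i : ℝ) * RR x j k - RR x i j * RR x i k| ≤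
            80 * (w * Y ^ 4) := by
          have g3 : |((x (dg i) : ℝ)) ^ 2 * ((RR x i i : ℝ) * RR x j k - RR x i j * RR x i k)| ≤
              80 * ((⌊w * Y ^ 4⌋ : ℤ) : ℝ) := by exact_mod_cast g1
          rw [abs_mul, abs_of_nonneg (by positivity : (0 : ℝ) ≤ ((x (dg i) : ℝ)) ^ 2)] at g3
          have g4 := Int.floor_le (w * Y ^ 4)
          linarith
        have g5 : Y ≤ 40 * K ^ 4 * |(x (dg i) : ℝ)| := by
          have := hx1.2
          rw [RR_diag] at this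
          push_cast at this
          rw [abs_mul, abs_two] at this
          linarith
        have g6 : Y ^ 2 ≤ 1600 * K ^ 8 * ((x (dg i) : ℝ)) ^ 2 := by
          calc Y ^ 2 ≤ (40 * K ^ 4 * |(x (dg i) : ℝ)|) ^ 2 := pow_le_pow_left₀ hY0.le g5 2
            _ = 1600 * K ^ 8 * ((x (dg i) : ℝ)) ^ 2 := by
                rw [mul_pow, mul_pow, sq_abs]; ring
        have g7 : Y ^ 2 * |(RR x i i : ℝ) * RR x j k - RR x i j * RR x i k| ≤
            Y ^ 2 * (128000 * K ^ 8 * w * Y ^ 2) := by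
          calc Y ^ 2 * |(RR x i i : ℝ) * RR x j k - RR x i j * RR x i k|
              ≤ (1600 * K ^ 8 * ((x (dg i) : ℝ)) ^ 2) *
                |(RR x i i : ℝ) * RR x j k - RR x i j * RR x i k| :=
                mul_le_mul_of_nonneg_right g6 (abs_nonneg _)
            _ = 1600 * K ^ 8 * (((x (dg i) : ℝ)) ^ 2 *
                |(RR x i i : ℝ) * RR x j k - RR x i j * RR x i k|) := by ring
            _ ≤ 1600 * K ^ 8 * (80 * (w * Y ^ 4)) := mul_le_mul_of_nonneg_left g2 (by positivity)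
            _ = _ := by ring
        exact le_of_mul_le_mul_left g7 (by positivity)
      · refine le_trans ?_ hNc
        exact_mod_cast Finset.card_le_card (Finset.image_subset_image (Finset.filter_subset _ _)))
    have e1 : Y ^ (4 + ε / 2) * Y ^ (ε / 2) * Y ^ 4 = Y ^ (8 + ε) := by
      rw [← Real.rpow_natCast Y 4, ← Real.rpow_add hY0, ← Real.rpow_add hY0]
      congr 1
      push_cast
      ring
    have e2 : (128000 * K ^ 8 * w * Y + n) ^ 4 ≤ (128000 * K ^ 8) ^ 4 * (w + n / Y) ^ 4 * Y ^ 4 := by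
      have g1 : 128000 * K ^ 8 * w * Y + n ≤ 128000 * K ^ 8 * (w + n / Y) * Y := by
        have g2 : 128000 * K ^ 8 * (w + n / Y) * Y = 128000 * K ^ 8 * w * Y + 128000 * K ^ 8 * n := by
          field_simp
        have g3 : (1 : ℝ) ≤ K ^ 8 := one_le_pow₀ hK
        rw [g2]
        nlinarith
      calc (128000 * K ^ 8 * w * Y + n) ^ 4 ≤ (128000 * K ^ 8 * (w + n / Y) * Y) ^ 4 :=
            pow_le_pow_left₀ (by positivity) g1 4
        _ = _ := by ring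
    have e3 : 4 * (C2 * (20 * K ^ 4) ^ 8 * Y ^ (4 + ε / 2) * (128000 * K ^ 8 * w * Y + n) ^ 4 *
        (c ^ 22 * Y ^ (ε / 2) * (n : ℝ) ^ 4) / (n : ℝ) ^ 8) ≤
        4 * C2 * 20 ^ 8 * c ^ 22 * 128000 ^ 4 * R := by
      calc 4 * (C2 * (20 * K ^ 4) ^ 8 * Y ^ (4 + ε / 2) * (128000 * K ^ 8 * w * Y + n) ^ 4 *
          (c ^ 22 * Y ^ (ε / 2) * (n : ℝ) ^ 4) / (n : ℝ) ^ 8)
          = (4 * C2 * (20 * K ^ 4) ^ 8 * Y ^ (4 + ε / 2) * (c ^ 22 * Y ^ (ε / 2)) / (n : ℝ) ^ 4) *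
            (128000 * K ^ 8 * w * Y + n) ^ 4 := by field_simp
        _ ≤ (4 * C2 * (20 * K ^ 4) ^ 8 * Y ^ (4 + ε / 2) * (c ^ 22 * Y ^ (ε / 2)) / (n : ℝ) ^ 4) *
            ((128000 * K ^ 8) ^ 4 * (w + n / Y) ^ 4 * Y ^ 4) :=
            mul_le_mul_of_nonneg_left e2 (by positivity)
        _ = 4 * C2 * 20 ^ 8 * c ^ 22 * 128000 ^ 4 * (K ^ 64 * (Y ^ (4 + ε / 2) * Y ^ (ε / 2) * Y ^ 4) *
            (w + n / Y) ^ 4 / (n : ℝ) ^ 4) := by ring
        _ = 4 * C2 * 20 ^ 8 * c ^ 22 * 128000 ^ 4 * R := by rw [e1, hR]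
    have e4 : 0 ≤ C1 * 128000 ^ 4 * R := by positivity
    calc (S.card : ℝ) ≤ _ := key
      _ ≤ _ := e3
      _ ≤ (C1 * 128000 ^ 4 + 4 * C2 * 20 ^ 8 * c ^ 22 * 128000 ^ 4) * R := by linarith
      _ = _ := by rw [hR]; ring
  · -- trivial
    push Not at hsm
    have g1 := h1 Y hY n hn hnY S (fun x hx => ⟨(hS x hx).2.1, (hS x hx).1, (hS x hx).2.2.2.1⟩)
    have g2 : (1 : ℝ) ≤ 128000 ^ 4 * K ^ 64 * (w + n / Y) ^ 4 := by
      have g3 : 1 ≤ 128000 * K ^ 8 * (w + n / Y) := by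
        have g4 : 128000 * K ^ 8 * w ≤ 128000 * K ^ 8 * (w + n / Y) :=
          mul_le_mul_of_nonneg_left (by linarith) (by positivity)
        linarith
      have g5 : 1 ≤ (128000 * K ^ 8 * (w + n / Y)) ^ 4 := one_le_pow₀ g3
      have g6 : (128000 * K ^ 8 * (w + n / Y)) ^ 4 = 128000 ^ 4 * K ^ 32 * (w + n / Y) ^ 4 := by ring
      have g7 : 128000 ^ 4 * K ^ 32 * (w + n / Y) ^ 4 ≤ 128000 ^ 4 * K ^ 64 * (w + n / Y) ^ 4 := by
        have g8 : K ^ 64 = K ^ 32 * K ^ 32 := by ring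
        have g9 : K ^ 32 ≤ K ^ 64 := by rw [g8]; nlinarith
        gcongr
      linarith
    have e4 : 0 ≤ 4 * C2 * 20 ^ 8 * c ^ 22 * 128000 ^ 4 * R := by positivity
    calc (S.card : ℝ) ≤ C1 * Y ^ (8 + ε) * (1 / (n : ℝ) ^ 4) := g1
      _ = C1 * Y ^ (8 + ε) * (1 / (n : ℝ) ^ 4) * 1 := by ring
      _ ≤ C1 * Y ^ (8 + ε) * (1 / (n : ℝ) ^ 4) * (128000 ^ 4 * K ^ 64 * (w + n / Y) ^ 4) :=
          mul_le_mul_of_nonneg_left g2 (by positivity)
      _ = C1 * 128000 ^ 4 * R := by rw [hR]; ring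
      _ ≤ (C1 * 128000 ^ 4 + 4 * C2 * 20 ^ 8 * c ^ 22 * 128000 ^ 4) * R := by linarith
      _ = _ := by rw [hR]; ring

/-- (N5') the `2 x 2` minors of `SS x` are small -/
theorem ss_count {ε : ℝ} (hε : 0 < ε) : ∃ C : ℝ, 1 ≤ C ∧ ∀ Y K p : ℝ, 1 ≤ Y → 1 ≤ K → 0 ≤ p →
    ∀ S : Finset (Fin 10 → ℤ),
    (∀ x ∈ S, FF x = 0 ∧ (∀ j, |(x j : ℝ)| ≤ Y) ∧ (∃ j, Y ≤ K * |(x j : ℝ)|) ∧
      ∀ i i' j j', |((SS x i j * SS x i' j' - SS x i j' * SS x i' j : ℤ) : ℝ)| ≤ p * Y ^ 2) →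
    (S.card : ℝ) ≤ C * K ^ 8 * Y ^ (8 + ε) * (p + 1 / Y) ^ 4 := by
  classical
  obtain ⟨C2, hC2, h2⟩ := gen_count Mf_SS hε
  obtain ⟨C1, hC1, h1⟩ := rk_card hε
  refine ⟨C1 * 16 + 4 * C2 * 2 ^ 8, by linarith, fun Y K p hY hK hp S hS => ?_⟩
  have hY0 : 0 < Y := by linarith
  have hY1 : 0 ≤ 1 / Y := by positivity
  obtain ⟨R, hR⟩ : ∃ R : ℝ, R = K ^ 8 * Y ^ (8 + ε) * (p + 1 / Y) ^ 4 := ⟨_, rfl⟩
  have hR0 : 0 ≤ R := by rw [hR]; positivity
  by_cases hsm : 2 * K ^ 2 * p ≤ 1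
  · have hp1 : p ≤ 1 := by nlinarith
    have hdg : ∀ x ∈ S, ∃ i, Y ≤ 2 * K * |((SS x i i : ℤ) : ℝ)| := by
      intro x hx
      obtain ⟨hF, hb, ⟨l, hl⟩, hM⟩ := hS x hx
      by_contra hcon
      push Not at hcon
      have hKp : 0 < K := by linarith
      have hd : ∀ i, |((SS x i i : ℤ) : ℝ)| ≤ Y / (2 * K) := by
        intro i
        rw [le_div_iff₀ (by positivity)]
        have := hcon i
        linarith
      have hall : ∀ i j, (((SS x i j : ℤ) : ℝ)) ^ 2 ≤ 3 / 4 * (Y / K) ^ 2 := by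
        intro i j
        have g1 := (abs_le.1 (hM i j i j)).1
        push_cast at g1
        have g2 : |((SS x i i : ℤ) : ℝ) * ((SS x j j : ℤ) : ℝ)| ≤ Y / (2 * K) * (Y / (2 * K)) := by
          rw [abs_mul]
          exact mul_le_mul (hd i) (hd j) (abs_nonneg _) (by positivity)
        have g3 := (abs_le.1 g2).2
        have g4 : ((SS x i j : ℤ) : ℝ) * ((SS x j i : ℤ) : ℝ) = (((SS x i j : ℤ) : ℝ)) ^ 2 := by
          have : SS x j i = SS x i j := Mf_SS.sym x j i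
          rw [this]
          ring
        have g5 : p * Y ^ 2 ≤ 1 / 2 * (Y / K) ^ 2 := by
          rw [div_pow, mul_div_assoc', le_div_iff₀ (by positivity)]
          nlinarith [sq_nonneg Y]
        have g6 : Y / (2 * K) * (Y / (2 * K)) = 1 / 4 * (Y / K) ^ 2 := by field_simp; ring
        linarith
      have hYK : 0 ≤ Y / K := by positivity
      have g7 := Mf_SS.dist x (fun _ => 0) (Real.sqrt (3 / 4 * (Y / K) ^ 2)) (by
        intro i j
        have g8 : ((SS (fun _ => (0 : ℤ)) i j : ℤ) : ℝ) = 0 := by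
          fin_cases i <;> fin_cases j <;> simp [SS]
        rw [g8, sub_zero, ← Real.sqrt_sq_eq_abs]
        exact Real.sqrt_le_sqrt (hall i j)) l
      rw [Int.cast_zero, sub_zero] at g7
      have g9 : Real.sqrt (3 / 4 * (Y / K) ^ 2) < Y / K := by
        rw [Real.sqrt_lt' (by positivity)]
        have : 0 < (Y / K) ^ 2 := by positivity
        linarith
      have g10 : |(x l : ℝ)| < Y / K := lt_of_le_of_lt g7 g9
      rw [lt_div_iff₀ hKp] at g10
      linarith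
    have key := card4 (S := S) (P := fun i x => Y ≤ 2 * K * |((SS x i i : ℤ) : ℝ)|)
      (B := C2 * (2 * K) ^ 8 * Y ^ (4 + ε) * (p * Y + (1 : ℕ)) ^ 4 * 1 / ((1 : ℕ) : ℝ) ^ 8) hdg (by
      intro i
      refine h2 Y (2 * K) p hY (by linarith) hp hp1 1 one_pos (by simpa using hY) 1 i _ ?_ ?_
      · intro x hx
        have hx1 := Finset.mem_filter.1 hx
        obtain ⟨hF, hb, hj, hM⟩ := hS x hx1.1
        refine ⟨hF, hb, hx1.2, ?_⟩
        intro j k
        have g1 := hM i j i k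
        push_cast at g1
        have g2 : ((SS x i k : ℤ) : ℝ) * ((SS x j i : ℤ) : ℝ) =
            ((SS x i j : ℤ) : ℝ) * ((SS x i k : ℤ) : ℝ) := by
          have : SS x j i = SS x i j := Mf_SS.sym x j i
          rw [this]
          ring
        rw [g2] at g1
        exact g1
      · have g3 : (S.filter fun x => Y ≤ 2 * K * |((SS x i i : ℤ) : ℝ)|).image
            (fun x j => x j % ((1 : ℕ) : ℤ)) ⊆ {fun _ => 0} := by
          intro z hz
          obtain ⟨x, _, rfl⟩ := Finset.mem_image.1 hz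
          rw [Finset.mem_singleton]
          funext j
          simp
        have g4 := Finset.card_le_card g3
        rw [Finset.card_singleton] at g4
        exact_mod_cast g4)
    have e1 : Y ^ (4 + ε) * Y ^ 4 = Y ^ (8 + ε) := by
      rw [← Real.rpow_natCast Y 4, ← Real.rpow_add hY0]
      congr 1
      push_cast
      ring
    have e2 : (p * Y + ((1 : ℕ) : ℝ)) ^ 4 = (p + 1 / Y) ^ 4 * Y ^ 4 := by
      rw [← mul_pow]
      congr 1
      push_cast
      field_simp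
    have e3 : 0 ≤ C1 * 16 * R := by positivity
    calc (S.card : ℝ) ≤ 4 * (C2 * (2 * K) ^ 8 * Y ^ (4 + ε) * (p * Y + (1 : ℕ)) ^ 4 * 1 /
          ((1 : ℕ) : ℝ) ^ 8) := key
      _ = 4 * C2 * 2 ^ 8 * (K ^ 8 * (Y ^ (4 + ε) * Y ^ 4) * (p + 1 / Y) ^ 4) := by
          rw [e2]; push_cast; ring
      _ = 4 * C2 * 2 ^ 8 * R := by rw [e1, hR]
      _ ≤ (C1 * 16 + 4 * C2 * 2 ^ 8) * R := by linarith
      _ = _ := by rw [hR]; ring
  · push Not at hsm
    have g1 := h1 Y hY 1 one_pos (by simpa using hY) S (fun x hx => ⟨(hS x hx).2.1, (hS x hx).1, by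
      refine ⟨fun p pp hp => ?_, fun i j k => ?_⟩
      · have h3 := Int.natCast_dvd_natCast.1 hp
        exact absurd (Nat.dvd_one.1 h3) pp.one_lt.ne'
      · simp⟩)
    have g2 : (1 : ℝ) ≤ 16 * K ^ 8 * (p + 1 / Y) ^ 4 := by
      have g3 : 1 ≤ 2 * K ^ 2 * (p + 1 / Y) := by
        have g4 : 2 * K ^ 2 * p ≤ 2 * K ^ 2 * (p + 1 / Y) :=
          mul_le_mul_of_nonneg_left (by linarith) (by positivity)
        linarith
      have g5 : 1 ≤ (2 * K ^ 2 * (p + 1 / Y)) ^ 4 := one_le_pow₀ g3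
      have g6 : (2 * K ^ 2 * (p + 1 / Y)) ^ 4 = 16 * K ^ 8 * (p + 1 / Y) ^ 4 := by ring
      linarith
    have e4 : 0 ≤ 4 * C2 * 2 ^ 8 * R := by positivity
    calc (S.card : ℝ) ≤ C1 * Y ^ (8 + ε) * (1 / (((1 : ℕ) : ℝ)) ^ 4) := g1
      _ = C1 * Y ^ (8 + ε) * 1 := by push_cast; ring
      _ ≤ C1 * Y ^ (8 + ε) * (16 * K ^ 8 * (p + 1 / Y) ^ 4) :=
          mul_le_mul_of_nonneg_left g2 (by positivity)
      _ = C1 * 16 * R := by rw [hR]; ring
      _ ≤ (C1 * 16 + 4 * C2 * 2 ^ 8) * R := by linarith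
      _ = _ := by rw [hR]; ring

end Pool.Agent.PP5T
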